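import Pool.Agent.H14.V.MainV

/-!
# AD T InCurve: curves in algebraic curves
-/

open MvPolynomial
open Pool.Agent.H17 (PN)
open Pool.Agent.H62.FC (Homog)
open Pool.Agent.H17LG.Variety (FunField)
open Pool.Agent.H17EF (projVar)

noncomputable section

namespace Pool.Agent.AD

variable {N : ℕ}

/-- The map `f` lies in an algebraic curve in the variety of `P`. -/
def InCurve (P : Ideal (MvPolynomial (Fin (N + 1)) ℂ)) (f : ℂ → PN N) : Prop :=
  ∃ (Q : Ideal (MvPolynomial (Fin (N + 1)) ℂ)) (_ : Q.IsPrime), Homog Q ∧ P ≤ Q ∧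
    (∃ z : Fin 1 → FunField Q, IsTranscendenceBasis ℂ z) ∧ ∀ z, f z ∈ projVar Q

end Pool.Agent.AD
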