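import Pool.Agent.AD.V.Main
import Pool.Agent.AD.T.InCurve
import Pool.Agent.AD.P.Conv
import Pool.Agent.H62.LGC.Final

/-!
# AD T Curve: doubly periodic curves lie in algebraic curves
-/

set_option autoImplicit false

open Topology Filter MvPolynomial Metric

noncomputable section

namespace Pool.Agent.AD

open Pool.Agent.H17 (PN VanishesAt HolomorphicInto)
open Pool.Agent.H62.FC (Homog exists_fin_basis)
open Pool.Agent.H17LG.Variety (FunField)
open Pool.Agent.H36.BP (EN fs OrdTwo)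
open Pool.Agent.H17EF (projVar LE)
open Pool.Agent.H14.V (IsLift DoublyPeriodic exists_isLift)
open Pool.Agent.H17BP (mapIdeal mapIdeal_isPrime exists_X_notMem mem_mapIdeal_form le_mapIdeal mapIdeal_homog
  eq_of_trdeg_zero mem_variety_mapIdeal)

variable {N : ℕ}

/-- every point is equivalent to a point of the fundamental parallelogram -/
theorem exists_compact {ω₁ ω₂ : ℂ} (hω : LinearIndependent ℝ ![ω₁, ω₂]) :
    ∃ K : Set ℂ, IsCompact K ∧ ∀ z, ∃ (m n : ℤ), z + (m * ω₁ + n * ω₂) ∈ K := by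
  refine ⟨(fun p : ℝ × ℝ => (p.1 : ℂ) * ω₁ + (p.2 : ℂ) * ω₂) '' (Set.Icc 0 1 ×ˢ Set.Icc 0 1),
    (isCompact_Icc.prod isCompact_Icc).image (by fun_prop), fun z => ?_⟩
  have hspan : Submodule.span ℝ (Set.range ![ω₁, ω₂]) = ⊤ :=
    hω.span_eq_top_of_card_eq_finrank' (by simp [Complex.finrank_real_complex])
  obtain ⟨c, hc⟩ := (Submodule.mem_span_range_iff_exists_fun ℝ).1 (hspan ▸ Submodule.mem_top (x := z))
  rw [Fin.sum_univ_two] at hc
  simp only [Matrix.cons_val_zero, Matrix.cons_val_one, Complex.real_smul] at hc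
  refine ⟨-⌊c 0⌋, -⌊c 1⌋, (Int.fract (c 0), Int.fract (c 1)), ⟨⟨Int.fract_nonneg _, (Int.fract_lt_one _).le⟩,
    ⟨Int.fract_nonneg _, (Int.fract_lt_one _).le⟩⟩, ?_⟩
  simp only [Int.fract]
  rw [← hc]
  push_cast
  ring

theorem periodic_add {α : Type*} {φ : ℂ → α} {ω₁ ω₂ : ℂ} (h : ∀ z, φ (z + ω₁) = φ z ∧ φ (z + ω₂) = φ z) (m n : ℤ) (z : ℂ) :
    φ (z + (m * ω₁ + n * ω₂)) = φ z := by
  have h1 : Function.Periodic φ ω₁ := fun z => (h z).1
  have h2 : Function.Periodic φ ω₂ := fun z => (h z).2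
  rw [← add_assoc]
  exact (h2.int_mul n _).trans (h1.int_mul m _)

theorem bounded_of_periodic {φ : ℂ → ℝ} (hφ : Continuous φ) {ω₁ ω₂ : ℂ} (hω : LinearIndependent ℝ ![ω₁, ω₂])
    (h : ∀ z, φ (z + ω₁) = φ z ∧ φ (z + ω₂) = φ z) : ∃ L : ℝ, ∀ z, φ z ≤ L := by
  obtain ⟨K, hK, hmem⟩ := exists_compact hω
  obtain ⟨L, hL⟩ := (hK.image hφ).bddAbove
  refine ⟨L, fun z => ?_⟩
  obtain ⟨m, n, hmn⟩ := hmem z
  rw [← periodic_add h m n z]
  exact hL ⟨_, hmn, rfl⟩

/-- the derivative of a doubly periodic curve is bounded -/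
theorem exists_bound_lift {f : ℂ → PN N} (hf : HolomorphicInto f Set.univ) (hper : DoublyPeriodic f) :
    ∃ (F : ℂ → EN N) (L : ℝ), IsLift F f ∧ ∀ z, fs (F z) (deriv F z) ≤ L := by
  obtain ⟨F, hF⟩ := exists_isLift hf
  obtain ⟨ω₁, ω₂, hω, hp⟩ := hper
  have hcont : Continuous fun z => fs (F z) (deriv F z) := by
    rw [continuous_iff_continuousAt]
    intro z
    have h1 : ContinuousAt (fun z => (F z, deriv F z)) z :=
      (hF.1.continuous.continuousAt).prodMk (((hF.1.analyticAt z).deriv).continuousAt)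
    exact ContinuousAt.comp (f := fun z => (F z, deriv F z)) (g := fun p : EN N × EN N => fs p.1 p.2)
      (Pool.Agent.H14.PP.continuousAt_fs (hF.ne_zero z) _) h1
  have hshift : ∀ ω, (∀ z, f (z + ω) = f z) → ∀ z, fs (F (z + ω)) (deriv F (z + ω)) = fs (F z) (deriv F z) := by
    intro ω hω z
    have h1 : AnalyticAt ℂ (fun z => F (z + ω)) z :=
      (hF.1.comp (differentiable_id.add_const ω)).analyticAt z
    have h2 := (Pool.Agent.AD.P.lift_ratio (f := f) h1 (hF.1.analyticAt z)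
      (Eventually.of_forall fun w => by
        obtain ⟨h3, h4⟩ := hF.2 (w + ω)
        exact ⟨h3, by rw [← hω w, h4]⟩)
      (Eventually.of_forall fun w => hF.2 w)).1
    rw [← h2, deriv_comp_add_const]
  obtain ⟨L, hL⟩ := bounded_of_periodic hcont hω fun z => ⟨hshift ω₁ (fun z => (hp z).1) z, hshift ω₂ (fun z => (hp z).2) z⟩
  exact ⟨F, L, hF, hL⟩

/-- the ideal of a doubly periodic curve -/
theorem trdeg_one {f : ℂ → PN N} (hf : HolomorphicInto f Set.univ) (hper : DoublyPeriodic f) (hne : ∃ z w, f z ≠ f w) :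
    ∃ _ : (mapIdeal f Set.univ).IsPrime, ∃ z : Fin 1 → FunField (mapIdeal f Set.univ), IsTranscendenceBasis ℂ z := by
  have hJp : (mapIdeal f Set.univ).IsPrime := mapIdeal_isPrime isOpen_univ isPreconnected_univ ⟨0, Set.mem_univ _⟩ hf
  have hJX : ∃ i, (X i : MvPolynomial (Fin (N + 1)) ℂ) ∉ mapIdeal f Set.univ := exists_X_notMem ⟨0, Set.mem_univ _⟩
  refine ⟨hJp, ?_⟩
  obtain ⟨w, hw⟩ := exists_fin_basis (P := mapIdeal f Set.univ) hJX
  have hJh : Homog (mapIdeal f Set.univ) := mapIdeal_homog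
  have hfJ : ∀ z, f z ∈ projVar (mapIdeal f Set.univ) := fun z Q hQ n hn => (mem_mapIdeal_form hn).1 hQ z (Set.mem_univ _)
  have hle : w ≤ 1 := by
    by_contra hcon
    obtain ⟨F, L, hF, hL⟩ := exists_bound_lift hf hper
    obtain ⟨z, hz⟩ := hw
    obtain ⟨Q, d, hQ, hQJ, hQf⟩ := degenerate_of (by omega) hJh hz hF hfJ hL hper
    exact hQJ ((mem_mapIdeal_form hQ).2 fun z _ => hQf z)
  rcases Nat.eq_zero_or_pos w with rfl | hpos
  · obtain ⟨z, w, hzw⟩ := hne
    exact absurd (eq_of_trdeg_zero hJh hJX hw _ (mem_variety_mapIdeal (Set.mem_univ z)) _ (mem_variety_mapIdeal (Set.mem_univ w))) hzw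
  · obtain rfl : w = 1 := by omega
    exact hw

/-- **Doubly periodic curves lie in algebraic curves.** -/
theorem inCurve_of {P : Ideal (MvPolynomial (Fin (N + 1)) ℂ)} (hP : Homog P) {f : ℂ → PN N} (hf : HolomorphicInto f Set.univ)
    (hfP : ∀ z, f z ∈ projVar P) (hper : DoublyPeriodic f) (hne : ∃ z w, f z ≠ f w) : InCurve P f := by
  obtain ⟨hJp, hz⟩ := trdeg_one hf hper hne
  exact ⟨mapIdeal f Set.univ, hJp, mapIdeal_homog, le_mapIdeal hP fun z _ => ⟨hfP z, fun m => m.elim0⟩, hz,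
    fun z Q hQ n hn => (mem_mapIdeal_form hn).1 hQ z (Set.mem_univ _)⟩

end Pool.Agent.AD
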