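import Pool.Agent.AD.T.Proj
import Pool.Agent.AD.V.KobFs
import Mathlib.Analysis.Complex.Liouville

/-!
# AD T Ell: Brody curves are mapped to affine curves of the torus; tori without elliptic curves
-/

set_option autoImplicit false

open Topology Filter Metric MvPolynomial

noncomputable section

namespace Pool.Agent.AD

open Pool.Agent.H36.BP (EN fs wd)
open Pool.Agent.H14.PP (IsCone Tan CurveAt)
open Pool.Agent.H22.W (PseudoLength tan_smul tan_mem tan_curve tan_entire)
open Pool.Agent.H17 (PN HolomorphicInto)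
open Pool.Agent.H62.FC (Homog)
open Pool.Agent.H17EF (projVar coneE LE mk_mem_projVar mem_coneE)
open Pool.Agent.H14.V (IsLift brodyCurves IsNull DoublyPeriodic Degenerate)
open Pool.Agent.H14.KB (KobayashiHyperbolicModulo)

variable {N g : ℕ} {X : Set (EN N)} {Λ : AddSubgroup (Fin g → ℂ)}

/-- **An entire curve with constant `du (F')` is mapped to an affine curve.** -/
theorem TorusMapV.affine_of_du {u : EN N → (Fin g → ℂ)} (hu : TorusMapV X Λ u) (hΛ : DiscreteSub Λ) {F : ℂ → EN N} (hF : Differentiable ℂ F)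
    (hFX : ∀ z, F z ∈ X) {a : Fin g → ℂ} (h0 : ∀ z, hu.du (F z) (deriv F z) = a) (z w : ℂ) : u (F z) - u (F w) - (z - w) • a ∈ Λ := by
  have hlc : IsLocallyConstant fun z => (QuotientAddGroup.mk (u (F z) - z • a) : (Fin g → ℂ) ⧸ Λ) := by
    rw [IsLocallyConstant.iff_eventually_eq]
    intro z₀
    have hx := hFX z₀
    have hl := hu.lift_an hx
    have hc : Tendsto F (𝓝 z₀) (𝓝 (F z₀)) := hF.continuous.tendsto z₀
    obtain ⟨h, hh⟩ : ∃ h : ℂ → (Fin g → ℂ), h = fun z => hu.lift (F z₀) (F z) - z • a := ⟨_, rfl⟩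
    have hder : ∀ᶠ z in 𝓝 z₀, deriv h z = 0 ∧ DifferentiableAt ℂ h z := by
      filter_upwards [hc.eventually hl.eventually_analyticAt, hc.eventually (hu.lift_mem hx).eventually_nhds] with z h1 h2
      have h3 : AnalyticAt ℂ (fun z => hu.lift (F z₀) (F z)) z :=
        AnalyticAt.comp (g := hu.lift (F z₀)) (f := F) h1 (hF.analyticAt z)
      have h4 : HasDerivAt (fun z : ℂ => z • a) a z := by
        have := (hasDerivAt_id z).smul_const a
        rwa [one_smul] at this
      have h5 : HasDerivAt h (deriv (fun z => hu.lift (F z₀) (F z)) z - a) z := by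
        rw [hh]
        exact h3.differentiableAt.hasDerivAt.sub h4
      refine ⟨?_, h5.differentiableAt⟩
      rw [h5.deriv, deriv_comp_lift (hF.analyticAt z) h1, ← hu.du_eq hΛ (tan_entire hF hFX z) h1 h2, h0 z, sub_self]
    obtain ⟨r, hr, hball⟩ := Metric.eventually_nhds_iff_ball.1 hder
    have hconst : ∀ z ∈ ball z₀ r, h z = h z₀ := by
      intro z hz
      exact (convex_ball z₀ r).is_const_of_fderivWithin_eq_zero (𝕜 := ℂ) (fun y hy => (hball y hy).2.differentiableWithinAt)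
        (fun y hy => by
          rw [fderivWithin_of_isOpen isOpen_ball hy]
          ext1
          exact (hball y hy).1) hz (mem_ball_self hr)
    filter_upwards [hc.eventually (hu.lift_mem hx), isOpen_ball.mem_nhds (mem_ball_self hr)] with z h1 h2
    have h3 := h1 (hFX z)
    have h4 := (hu.lift_mem hx).self_of_nhds hx
    have h5 : hu.lift (F z₀) (F z) - z • a = hu.lift (F z₀) (F z₀) - z₀ • a := by
      have := hconst z h2
      rwa [hh] at this
    rw [QuotientAddGroup.eq]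
    have h6 := Λ.sub_mem h4 h3
    have h7 : -(u (F z) - z • a) + (u (F z₀) - z₀ • a) =
        (u (F z₀) - hu.lift (F z₀) (F z₀)) - (u (F z) - hu.lift (F z₀) (F z)) := by
      have h8 : hu.lift (F z₀) (F z₀) = hu.lift (F z₀) (F z) - z • a + z₀ • a := by
        rw [h5, sub_add_cancel]
      rw [h8]
      abel
    rw [h7]
    exact h6
  have h1 := hlc.apply_eq_of_preconnectedSpace w z
  rw [QuotientAddGroup.eq] at h1
  have h2 : u (F z) - u (F w) - (z - w) • a = -(u (F w) - w • a) + (u (F z) - z • a) := by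
    rw [sub_smul]
    abel
  rw [h2]
  exact h1

/-- `du (F')` is constant on Brody curves -/
theorem TorusMapV.du_const {u : EN N → (Fin g → ℂ)} {d : ℕ} (hX : IsCone X) (hch : Charts d X) (hu : TorusMapV X Λ u) (hΛ : DiscreteSub Λ) {F : ℂ → EN N}
    (hF : Differentiable ℂ F) (hFX : ∀ z, F z ∈ X) {L : ℝ} (hL : ∀ z, fs (F z) (deriv F z) ≤ L) (z w : ℂ) :
    hu.du (F z) (deriv F z) = hu.du (F w) (deriv F w) := by
  obtain ⟨n, hn⟩ : ∃ n : PseudoLength X, n = symLength hX hch (m := fun _ : Fin g => 1) (fun _ => le_rfl) (fun j => hu.symDiff hΛ hX j) := ⟨_, rfl⟩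
  obtain ⟨C, hC, hb⟩ := length_bound hX hch n
  funext j
  have han : Differentiable ℂ fun z => hu.du (F z) (deriv F z) j := by
    intro z
    have h1 := (hu.symDiff hΛ hX j).curve_an (F := F) (z₀ := z) ⟨hF.analyticAt z, Eventually.of_forall hFX⟩
    exact h1.differentiableAt
  have hbd : Bornology.IsBounded (Set.range fun z => hu.du (F z) (deriv F z) j) := by
    refine isBounded_iff_forall_norm_le.2 ⟨C * L, ?_⟩
    rintro _ ⟨z, rfl⟩
    have h1 := hb _ _ (tan_entire hF hFX z)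
    have h2 : ‖hu.du (F z) (deriv F z) j‖ ≤ n.toFun (F z) (deriv F z) := by
      rw [hn]
      show _ ≤ Real.sqrt (∑ i, ‖hu.du (F z) (deriv F z) i‖ ^ ((2 : ℝ) / (1 : ℕ)))
      refine Real.le_sqrt_of_sq_le ?_
      have h3 : ∀ i, ‖hu.du (F z) (deriv F z) i‖ ^ ((2 : ℝ) / (1 : ℕ)) = ‖hu.du (F z) (deriv F z) i‖ ^ 2 := by
        intro i
        rw [Nat.cast_one, div_one, Real.rpow_two]
      simp only [h3]
      exact Finset.single_le_sum (f := fun i => ‖hu.du (F z) (deriv F z) i‖ ^ 2) (fun i _ => sq_nonneg _) (Finset.mem_univ j)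
    calc ‖hu.du (F z) (deriv F z) j‖ ≤ C * fs (F z) (deriv F z) := h2.trans h1
      _ ≤ C * L := mul_le_mul_of_nonneg_left (hL z) hC.le
  exact han.apply_eq_apply_of_bounded hbd z w

variable {P : Ideal (MvPolynomial (Fin (N + 1)) ℂ)}

/-- **Brody curves are mapped to affine curves of the torus.** -/
theorem exists_direction {d : ℕ} (hP : Homog P) (hch : Charts d (coneE P)) [DiscreteTopology Λ]
    {u : PN N → (Fin g → ℂ) ⧸ Λ} (hu : IsHolomorphicTorusMap (projVar P) Λ u) {L : ℝ} {f : ℂ → PN N} (hf : f ∈ brodyCurves (projVar P) L) :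
    ∃ a : Fin g → ℂ, (∀ ω : ℂ, (∀ z, f (z + ω) = f z) → ω • a ∈ Λ) ∧ (a = 0 → ∀ z w, u (f z) = u (f w)) := by
  have hX := isCone_coneE hP
  have hΛ := discreteSub_of Λ
  have hT := torusMapV hP hu
  obtain ⟨hfX, F, hF, hFL⟩ := hf
  have hFX : ∀ z, F z ∈ coneE P := fun z => (hF.mem_iff hP z).1 (hfX z)
  obtain ⟨a, ha⟩ : ∃ a, a = hT.du (F 0) (deriv F 0) := ⟨_, rfl⟩
  have h1 := hT.affine_of_du hΛ hF.1 hFX (a := a) fun z => by
    rw [ha]
    exact hT.du_const hX hch hΛ hF.1 hFX hFL z 0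
  have hne : ∀ z, (LE N).symm (F z) ≠ 0 := fun z => (hFX z).1
  have huf : ∀ z, ((uV Λ u (F z) : Fin g → ℂ) : (Fin g → ℂ) ⧸ Λ) = u (f z) := by
    intro z
    obtain ⟨h3, h3'⟩ := hF.2 z
    rw [uV_eq Λ u (hne z), h3']
    rfl
  refine ⟨a, fun ω hω => ?_, fun ha0 z w => ?_⟩
  · have h2 := h1 ω 0
    have h3 : uV Λ u (F ω) - uV Λ u (F 0) ∈ Λ := by
      rw [sub_mem_iff, huf, huf]
      have := hω 0
      rw [zero_add] at this
      rw [this]
    have h4 := Λ.sub_mem h3 h2
    rw [sub_zero] at h4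
    have h5 : uV Λ u (F ω) - uV Λ u (F 0) - (uV Λ u (F ω) - uV Λ u (F 0) - ω • a) = ω • a := by abel
    rwa [h5] at h4
  · have h2 := h1 z w
    rw [ha0, smul_zero, sub_zero, sub_mem_iff, huf, huf] at h2
    exact h2

/-- doubly periodic Brody curves lie in the fibres if the torus contains no elliptic curve -/
theorem fibre_of_doublyPeriodic {d : ℕ} (hP : Homog P) (hch : Charts d (coneE P)) [DiscreteTopology Λ]
    {u : PN N → (Fin g → ℂ) ⧸ Λ} (hu : IsHolomorphicTorusMap (projVar P) Λ u) (hell : NoEllipticCurve Λ) {L : ℝ} {f : ℂ → PN N}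
    (hf : f ∈ brodyCurves (projVar P) L) (hper : DoublyPeriodic f) (z w : ℂ) : u (f z) = u (f w) := by
  obtain ⟨a, h1, h2⟩ := exists_direction hP hch hu hf
  obtain ⟨ω₁, ω₂, hω, h3⟩ := hper
  exact h2 (hell a ω₁ ω₂ hω (h1 ω₁ fun z => (h3 z).1) (h1 ω₂ fun z => (h3 z).2)) z w

/-- **Brody's theorem** for the curves with `|f'| ≤ 1`. -/
theorem kobayashi_of_brody (hP : Homog P) (h : ∀ f ∈ brodyCurves (projVar P) 1, ∀ z w, f z = f w) :
    KobayashiHyperbolicModulo (projVar P) 1 0 := by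
  have hX := isCone_coneE hP
  obtain ⟨K, hK, hb⟩ := exists_bound_unit hX (zeroLength (coneE P)) (noNullBrody_of hP (n := zeroLength (coneE P)) fun f hf _ z w => h f hf z w)
  refine kobayashi_of_fs hP (isHomogeneous_one _ _) (C := K) fun F hF hFX => ?_
  rw [map_one, norm_one, pow_zero, div_one, one_mul]
  exact hb F hF hFX fun z hz => zero_le_one

end Pool.Agent.AD
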