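import Pool.Agent.AD.T.Null
import Pool.Agent.AD.T.Ell
import Pool.Agent.AD.V.Cases
import Pool.Agent.AD.P.Bridge
import Pool.Agent.AD.BD.Per

/-!
# AD T NullB: pseudo-lengths for null classes, curves with bounded distortion, hyperbolicity for tori without elliptic curves
-/

open MvPolynomial
open Pool.Agent.H17 (PN VanishesAt ZariskiClosedIn HolomorphicInto puncturedDisc)
open Pool.Agent.H62.FC (Homog)
open Pool.Agent.H17LG.Variety (FunField)
open Pool.Agent.H13.SM (conTan)
open Pool.Agent.H14.KB (KobayashiHyperbolicModulo)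
open Pool.Agent.H17EF (projVar coneE)
open Pool.Agent.H22.W (PseudoLength)
open Pool.Agent.H14.V (boundedDistortion brodyCurves DoublyPeriodic Degenerate IsNull IsMetric)

noncomputable section

namespace Pool.Agent.AD

variable {N n : ℕ} {P : Ideal (MvPolynomial (Fin (N + 1)) ℂ)} [P.IsPrime]

/-- a pseudo-length with smaller null class -/
theorem exists_length (hP : Homog P) {z : Fin n → FunField P} (hz : IsTranscendenceBasis ℂ z)
    (hsmooth : ∀ x : Fin (N + 1) → ℂ, x ≠ 0 → (∀ Q ∈ P, eval x Q = 0) → Module.finrank ℂ (conTan P x) ≤ n + 1)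
    {A : Set (ℂ → PN N)} (hA : NullClass P A) :
    ∃ ν : PseudoLength (coneE P), ∀ f : ℂ → PN N, (∀ z, f z ∈ projVar P) → IsNull ν f → f ∈ A := by
  have hch := charts_coneE hP hz hsmooth
  cases hA with
  | length ν => exact ⟨ν, fun f _ hf => hf⟩
  | differentials k m hm θ =>
    obtain ⟨ν, hν⟩ := exists_symLength hP hch hm θ
    exact ⟨ν, fun f _ hf => hν f hf⟩
  | torus g Λ hΛ u hu => exact exists_torusLength hP hch hu

/-- curves with bounded distortion, in all dimensions -/
theorem bd_ample (hP : Homog P) {z : Fin n → FunField P} (hz : IsTranscendenceBasis ℂ z)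
    (hsmooth : ∀ x : Fin (N + 1) → ℂ, x ≠ 0 → (∀ Q ∈ P, eval x Q = 0) → Module.finrank ℂ (conTan P x) ≤ n + 1)
    (hample : PluckerAmple P) (c L : ℝ) (hc : 0 < c) : BDTheorem (coneE P) c L := by
  obtain ⟨m, J, Ω, hm, hΩ⟩ := hample
  exact BDTheorem.of_pos hc fun hL => BD.curves_of_bounded_distortion (isCone_coneE hP) (charts_coneE hP hz hsmooth) hm _
    (Pool.Agent.AD.P.noZero_of_generates (n := n) hΩ) hc hL

/-- **Tori without elliptic curves.** -/
theorem kobayashi_of_torus (hP : Homog P) {z : Fin n → FunField P} (hz : IsTranscendenceBasis ℂ z)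
    (hsmooth : ∀ x : Fin (N + 1) → ℂ, x ≠ 0 → (∀ Q ∈ P, eval x Q = 0) → Module.finrank ℂ (conTan P x) ≤ n + 1)
    (hor : ∀ ν : PseudoLength (coneE P), ∀ f ∈ brodyCurves (projVar P) 1, IsNull ν f ∨ (DoublyPeriodic f ∧ Degenerate P f))
    {g : ℕ} {Λ : AddSubgroup (Fin g → ℂ)} [DiscreteTopology Λ] (hell : NoEllipticCurve Λ) {u : PN N → (Fin g → ℂ) ⧸ Λ}
    (hu : IsHolomorphicTorusMap (projVar P) Λ u)
    (hconst : ∀ f ∈ brodyCurves (projVar P) 1, (∀ z w, u (f z) = u (f w)) → ∀ z w, f z = f w) :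
    KobayashiHyperbolicModulo (projVar P) 1 0 := by
  have hch := charts_coneE hP hz hsmooth
  obtain ⟨ν, hν⟩ := exists_torusLength hP hch hu
  refine kobayashi_of_brody hP fun f hf => hconst f hf ?_
  rcases hor ν f hf with h1 | ⟨h1, -⟩
  · exact hν f hf.1 h1
  · exact fibre_of_doublyPeriodic hP hch hu hell hf h1

omit [P.IsPrime] in
/-- an empty union -/
theorem kobayashi_of_empty (hP : Homog P)
    (h : ∀ f : ℂ → PN N, HolomorphicInto f Set.univ → (∀ z, f z ∈ projVar P) → (∃ z w, f z ≠ f w) →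
      ∀ z, f z ∈ ⋃ g ∈ (∅ : Set (ℂ → PN N)), Pool.Agent.H17EF.zariskiClosure g) : KobayashiHyperbolicModulo (projVar P) 1 0 := by
  refine kobayashi_of_const hP fun f hf hfX z w => ?_
  by_contra hne
  have h1 := h f hf hfX ⟨z, w, hne⟩ z
  simp at h1

end Pool.Agent.AD
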