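import Pool.Agent.AD.T.RangeA
import Pool.Agent.H13.CV.PoleF
import Pool.Agent.H13.CV.FunF
import Pool.Agent.H13.CV.EllA
import Pool.Agent.H62.LGC.Dom
import Pool.Agent.H17BP.Final
import Pool.Agent.H17BP.MapIdeal

/-!
# AD T RangeB: the range of a doubly periodic curve is Zariski closed

Let `J` be the ideal of the curve, `K = FunField J` (of transcendence degree `1`), `φ : K → Mer` the homomorphism given by the curve.  Let `x` be a point
of the Zariski closure.  There is a place `E` of `K` centred at `x` (`exists_dom`) and a non-constant `f ∈ K` whose only pole is `E` (`exists_pole_only`).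
`φ f` is a non-constant doubly periodic function, so it has a pole `z₀` (`const_of_ordM`).  The place under `z₀` is `E`, so `g z₀ = x`.
-/

set_option autoImplicit false

open Topology Filter MvPolynomial
open Pool.Agent.H17 (EntFun PN VanishesAt HolomorphicInto)
open Pool.Agent.H17LG.Variety (FunField)
open Pool.Agent.H17GT (coordFun functionField)
open Pool.Agent.H17BP (mapIdeal mem_mapIdeal_form)
open Pool.Agent.H23.Fano (PrimeDivisorOver)
open Pool.Agent.H13.CV (Mer toM ordM ordM_div Place CurveField LD dv curveField_funField exists_pole_only exists_placeM ordM_toM_pos ordM_toM_nonneg)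

noncomputable section

namespace Pool.Agent.AD

variable {N : ℕ}

/-- the homogenisation -/
private def hgn (j : Fin (N + 1)) (p : MvPolynomial (Fin (N + 1)) ℂ) : MvPolynomial (Fin (N + 1)) ℂ :=
  ∑ n ∈ Finset.range (p.totalDegree + 1), X j ^ (p.totalDegree - n) * homogeneousComponent n p

private lemma hgn_homog (j : Fin (N + 1)) (p : MvPolynomial (Fin (N + 1)) ℂ) : (hgn j p).IsHomogeneous p.totalDegree := by
  refine IsHomogeneous.sum _ _ _ fun n hn => ?_
  have h1 : p.totalDegree - n + n = p.totalDegree := Nat.sub_add_cancel (Nat.lt_succ_iff.1 (Finset.mem_range.1 hn))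
  have h2 := ((isHomogeneous_X ℂ j).pow (p.totalDegree - n)).mul (homogeneousComponent_isHomogeneous n p)
  rw [one_mul, h1] at h2
  exact h2

private lemma hgn_aeval {A : Type} [CommRing A] [Algebra ℂ A] {j : Fin (N + 1)} {x : Fin (N + 1) → A} (hx : x j = 1) (p : MvPolynomial (Fin (N + 1)) ℂ) :
    aeval x (hgn j p) = aeval x p := by
  conv_rhs => rw [← sum_homogeneousComponent p]
  rw [hgn, map_sum, map_sum]
  refine Finset.sum_congr rfl fun n _ => ?_
  rw [map_mul, map_pow, aeval_X, hx, one_pow, one_mul]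

private lemma ev_aeval (z : ℂ) (c : Fin (N + 1) → EntFun) (G : MvPolynomial (Fin (N + 1)) ℂ) :
    ((aeval c G : EntFun) : ℂ → ℂ) z = eval (fun i => (c i : ℂ → ℂ) z) G := by
  have h1 : EntFun.ev z (aeval c G) = eval₂ ((EntFun.ev z).comp (algebraMap ℂ _)) (fun i => EntFun.ev z (c i)) G := by
    rw [aeval_def]
    exact (MvPolynomial.hom_eval₂ G _ _ _)
  exact h1

private lemma toM_aeval (c : Fin (N + 1) → EntFun) (G : MvPolynomial (Fin (N + 1)) ℂ) : aeval (fun i => toM (c i)) G = toM (aeval c G) :=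
  MvPolynomial.aeval_algebraMap_apply (R := ℂ) (A := EntFun) Mer c G

private lemma toM_inj {a b : EntFun} (h : toM a = toM b) : a = b := IsFractionRing.injective EntFun Mer h

private lemma toM_ne {a : EntFun} (ha : a ≠ 0) : toM a ≠ 0 := fun h => ha (toM_inj (h.trans (map_zero (algebraMap EntFun Mer)).symm))

/-- forms at the quotients -/
private lemma aeval_quot {F : Fin (N + 1) → EntFun} {j : Fin (N + 1)} {H : MvPolynomial (Fin (N + 1)) ℂ} {n : ℕ} (hH : H.IsHomogeneous n) :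
    aeval (fun i => toM (F i) / toM (F j)) H = toM (aeval F H) / toM (F j) ^ n := by
  have h1 : (fun i => toM (F i) / toM (F j)) = fun i => (toM (F j))⁻¹ * toM (F i) := by
    funext i
    rw [div_eq_inv_mul]
  rw [h1, Pool.Agent.H92.GT.Proj.aeval_scale hH, toM_aeval, inv_pow, div_eq_inv_mul]

variable {g : ℂ → PN N}

/-- `F` is a lift of `g` -/
private def Lft (F : Fin (N + 1) → EntFun) (g : ℂ → PN N) : Prop :=
  ∀ z, ∃ h : (fun j => (F j : ℂ → ℂ) z) ≠ 0, g z = Projectivization.mk ℂ _ h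

private lemma Lft.vanishes {F : Fin (N + 1) → EntFun} (hF : Lft F g) {H : MvPolynomial (Fin (N + 1)) ℂ} {n : ℕ} (hH : H.IsHomogeneous n) (z : ℂ) :
    VanishesAt H (g z) ↔ ((aeval F H : EntFun) : ℂ → ℂ) z = 0 := by
  obtain ⟨h, e⟩ := hF z
  rw [e, Pool.Agent.H17BP.vanishesAt_mk hH, ev_aeval]

private lemma Lft.mem_iff {F : Fin (N + 1) → EntFun} (hF : Lft F g) {H : MvPolynomial (Fin (N + 1)) ℂ} {n : ℕ} (hH : H.IsHomogeneous n) :
    H ∈ mapIdeal g Set.univ ↔ (aeval F H : EntFun) = 0 := by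
  rw [mem_mapIdeal_form hH]
  constructor
  · intro h
    apply EntFun.ext'
    intro z
    exact (hF.vanishes hH z).1 (h z (Set.mem_univ z))
  · intro h z _
    rw [hF.vanishes hH, h]
    rfl

/-- the lift at `z + w` -/
private lemma Lft.period {F : Fin (N + 1) → EntFun} (hF : Lft F g) {w : ℂ} (hw : ∀ z, g (z + w) = g z) (z : ℂ) :
    ∃ c : ℂ, ∀ i, (F i : ℂ → ℂ) (z + w) = c * (F i : ℂ → ℂ) z := by
  obtain ⟨h, e⟩ := hF z
  obtain ⟨h', e'⟩ := hF (z + w)
  obtain ⟨c, -, hc⟩ := Pool.Agent.H17.mk_eq_mk_cross (e'.symm.trans ((hw z).trans e))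
  exact ⟨c, hc⟩

private lemma Lft.period_form {F : Fin (N + 1) → EntFun} (hF : Lft F g) {w : ℂ} (hw : ∀ z, g (z + w) = g z) {A B : MvPolynomial (Fin (N + 1)) ℂ} {n : ℕ}
    (hA : A.IsHomogeneous n) (hB : B.IsHomogeneous n) (z : ℂ) :
    ((aeval F A : EntFun) : ℂ → ℂ) (z + w) * ((aeval F B : EntFun) : ℂ → ℂ) z =
      ((aeval F A : EntFun) : ℂ → ℂ) z * ((aeval F B : EntFun) : ℂ → ℂ) (z + w) := by
  obtain ⟨c, hc⟩ := hF.period hw z
  have h1 : ∀ {H : MvPolynomial (Fin (N + 1)) ℂ}, H.IsHomogeneous n →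
      ((aeval F H : EntFun) : ℂ → ℂ) (z + w) = c ^ n * ((aeval F H : EntFun) : ℂ → ℂ) z := by
    intro H hH
    rw [ev_aeval, ev_aeval, show (fun i => (F i : ℂ → ℂ) (z + w)) = fun i => c * (F i : ℂ → ℂ) z from funext hc]
    exact Pool.Agent.H92.GT.Proj.aeval_scale (K := ℂ) hH c fun i => (F i : ℂ → ℂ) z
  rw [h1 hA, h1 hB]
  ring

private lemma nsmul_pos' {a : WithTop ℤ} (ha : 0 < a) {e : ℕ} (he : 1 ≤ e) : 0 < e • a := by
  obtain ⟨e, rfl⟩ : ∃ k, e = k + 1 := ⟨e - 1, by omega⟩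
  rw [succ_nsmul]
  exact lt_of_lt_of_le ha (le_add_of_nonneg_left (nsmul_nonneg ha.le e))

private lemma add_pos_of_nonneg_of_pos' {a b : WithTop ℤ} (ha : 0 ≤ a) (hb : 0 < b) : 0 < a + b :=
  lt_of_lt_of_le hb (le_add_of_nonneg_left ha)

private lemma ordM_nonneg_add {z : ℂ} {a b : Mer} (ha : 0 ≤ ordM z a) (hb : 0 ≤ ordM z b) : 0 ≤ ordM z (a + b) :=
  (ordM z).map_le_add ha hb

private theorem range_core {K : Type} [Field K] [Algebra ℂ K] [Algebra.EssFiniteType ℂ K] (hK : CurveField K)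
    (hz : ∃ z : Fin 1 → K, IsTranscendenceBasis ℂ z) {F : Fin (N + 1) → EntFun} (hF : Lft F g) {w₁ w₂ : ℂ} (hw : LinearIndependent ℝ ![w₁, w₂])
    (h1 : ∀ z, g (z + w₁) = g z) (h2 : ∀ z, g (z + w₂) = g z) {j : Fin (N + 1)} {x : Fin (N + 1) → K} (hxj : x j = 1)
    (hgen : IntermediateField.adjoin ℂ (Set.range x) = ⊤)
    (hform : ∀ (n : ℕ) (G : MvPolynomial (Fin (N + 1)) ℂ), G.IsHomogeneous n → (aeval x G = 0 ↔ G ∈ mapIdeal g Set.univ)) {c : Fin (N + 1) → ℂ}
    (hcj : c j = 1) (hmemJ : ∀ {H : MvPolynomial (Fin (N + 1)) ℂ} {n : ℕ}, H.IsHomogeneous n → H ∈ mapIdeal g Set.univ → eval c H = 0) :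
    ∃ z₀, (F j : ℂ → ℂ) z₀ ≠ 0 ∧ ∀ i, (F i : ℂ → ℂ) z₀ = c i * (F j : ℂ → ℂ) z₀ := by
  classical
  have hXj : (X j : MvPolynomial (Fin (N + 1)) ℂ) ∉ mapIdeal g Set.univ := by
    intro h
    have := hmemJ (isHomogeneous_X ℂ j) h
    rw [eval_X, hcj] at this
    exact one_ne_zero this
  have hFj : F j ≠ 0 := by
    intro h
    apply hXj
    rw [hF.mem_iff (isHomogeneous_X ℂ j), aeval_X, h]
  obtain ⟨s, hs⟩ : ∃ s : Fin (N + 1) → Mer, s = fun i => toM (F i) / toM (F j) := ⟨_, rfl⟩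
  have hsj : s j = 1 := by
    rw [hs]
    exact div_self (toM_ne hFj)
  have hrel0 : ∀ {H : MvPolynomial (Fin (N + 1)) ℂ} {n : ℕ}, H.IsHomogeneous n → (H ∈ mapIdeal g Set.univ ↔ aeval s H = 0) := by
    intro H n hH
    rw [hF.mem_iff hH, hs, aeval_quot hH, div_eq_zero_iff]
    constructor
    · intro h
      left
      rw [h]
      exact map_zero (algebraMap EntFun Mer)
    · rintro (h | h)
      · exact toM_inj (h.trans (map_zero (algebraMap EntFun Mer)).symm)
      · exact absurd h (pow_ne_zero _ (toM_ne hFj))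
  have hrelx : ∀ p : MvPolynomial (Fin (N + 1)) ℂ, aeval x p = 0 ↔ hgn j p ∈ mapIdeal g Set.univ := fun p => by
    rw [← hgn_aeval hxj p, hform _ _ (hgn_homog j p)]
  have hrel : ∀ p : MvPolynomial (Fin (N + 1)) ℂ, aeval x p = 0 ↔ aeval s p = 0 := fun p => by
    rw [hrelx, hrel0 (hgn_homog j p), hgn_aeval hsj p]
  obtain ⟨φ, hφ⟩ : ∃ φ : K →ₐ[ℂ] Mer, ∀ i, φ (x i) = s i := exists_hom_gen x hgen s hrel
  have hφa : ∀ p : MvPolynomial (Fin (N + 1)) ℂ, φ (aeval x p) = aeval s p := fun p => by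
    rw [MvPolynomial.comp_aeval_apply]
    congr 2
    funext i
    exact hφ i
  -- the place at the point
  obtain ⟨E, hE⟩ : ∃ E : Place K, ∀ i, 0 < E.ord (x i - algebraMap ℂ K (c i)) := by
    obtain ⟨A, hA⟩ : ∃ A : Subalgebra ℂ K, A = Algebra.adjoin ℂ (Set.range x) := ⟨_, rfl⟩
    have hxA : ∀ i, x i ∈ A := fun i => by
      rw [hA]
      exact Algebra.subset_adjoin ⟨i, rfl⟩
    obtain ⟨y, hy⟩ : ∃ y : Fin (N + 1) → A, ∀ i, ((y i : A) : K) = x i - algebraMap ℂ K (c i) :=
      ⟨fun i => ⟨x i, hxA i⟩ - algebraMap ℂ A (c i), fun i => rfl⟩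
    have hJt : Ideal.span (Set.range y) ≠ ⊤ := by
      intro htop
      have h3 : (1 : A) ∈ Ideal.span (Set.range y) := by
        rw [htop]
        trivial
      rw [Ideal.span, Submodule.mem_span_range_iff_exists_fun] at h3
      obtain ⟨a, ha⟩ := h3
      have hex : ∀ i, ∃ p : MvPolynomial (Fin (N + 1)) ℂ, aeval x p = (a i : K) := fun i => by
        have h5 : A = (aeval x : MvPolynomial (Fin (N + 1)) ℂ →ₐ[ℂ] K).range := by
          rw [hA]
          exact Algebra.adjoin_range_eq_range_aeval ℂ x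
        have h6 : (a i : K) ∈ (aeval x : MvPolynomial (Fin (N + 1)) ℂ →ₐ[ℂ] K).range := by
          rw [← h5]
          exact (a i).2
        exact h6
      choose p hp using hex
      have h7 : aeval x (∑ i, p i * (X i - C (c i)) - 1) = 0 := by
        rw [map_sub, map_sum, map_one, sub_eq_zero]
        have h8 : ((∑ i, a i • y i : A) : K) = 1 := by
          rw [ha]
          rfl
        rw [AddSubmonoidClass.coe_finsetSum] at h8
        refine Eq.trans (Finset.sum_congr rfl fun i _ => ?_) h8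
        rw [map_mul, map_sub, aeval_X, aeval_C, hp]
        change (a i : K) * (x i - algebraMap ℂ K (c i)) = (a i : K) * (y i : K)
        rw [hy]
      have h9 := hmemJ (hgn_homog j _) ((hrelx _).1 h7)
      have h10 : eval c (hgn j (∑ i, p i * (X i - C (c i)) - 1)) = eval c (∑ i, p i * (X i - C (c i)) - 1) :=
        hgn_aeval (A := ℂ) hcj _
      rw [h10, map_sub, map_sum, map_one] at h9
      have h11 : ∑ i, eval c (p i * (X i - C (c i))) = 0 := Finset.sum_eq_zero fun i _ => by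
        rw [map_mul, map_sub, eval_X, eval_C, sub_self, mul_zero]
      rw [h11, zero_sub, neg_eq_zero] at h9
      exact one_ne_zero h9
    have hne : ∃ b ∈ Ideal.span (Set.range y), b ≠ 0 := by
      by_contra hcon
      push Not at hcon
      have h3 : ∀ i, x i = algebraMap ℂ K (c i) := fun i => by
        have h4 := hcon (y i) (Ideal.subset_span ⟨i, rfl⟩)
        have h5 : ((y i : A) : K) = 0 := by
          rw [h4]
          rfl
        rw [hy] at h5
        exact sub_eq_zero.1 h5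
      obtain ⟨t, ht⟩ := hK.exists_tr
      have h4 : t ∈ IntermediateField.adjoin ℂ (Set.range x) := by
        rw [hgen]
        exact IntermediateField.mem_top
      have h5 : IntermediateField.adjoin ℂ (Set.range x) ≤ ⊥ := by
        rw [IntermediateField.adjoin_le_iff]
        rintro _ ⟨i, rfl⟩
        rw [h3 i]
        exact IntermediateField.mem_bot.2 ⟨_, rfl⟩
      obtain ⟨d, hd⟩ := IntermediateField.mem_bot.1 (h5 h4)
      exact ht (hd ▸ isAlgebraic_algebraMap d)
    obtain ⟨E, -, hE⟩ := Pool.Agent.H62.LGC.exists_dom hz A _ hJt hne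
    exact ⟨E, fun i => by
      rw [← hy i]
      exact hE (y i) (Ideal.subset_span ⟨i, rfl⟩)⟩
  -- a function with a pole only at the place
  obtain ⟨f, k, -, hftr, hfLD⟩ := exists_pole_only hK E
  have hfE : ∀ E' : Place K, E' ≠ E → 0 ≤ E'.ord f := by
    intro E' hE'
    have h3 := Pool.Agent.H13.CV.mem_LD.1 hfLD E'
    simpa [dv, hE'] using h3
  -- its image has a pole
  obtain ⟨z₀, hz₀⟩ : ∃ z₀, ordM z₀ (φ f) < 0 := by
    by_contra hcon
    push Not at hcon
    have hf : f ∈ IntermediateField.adjoin ℂ (Set.range x) := by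
      rw [hgen]
      exact IntermediateField.mem_top
    obtain ⟨r, t, hrt⟩ := (IntermediateField.mem_adjoin_range_iff ℂ _ f).1 hf
    have ht0 : aeval x t ≠ 0 := by
      intro h
      rw [h, div_zero] at hrt
      rw [hrt] at hftr
      exact hftr isAlgebraic_zero
    have hst0 : aeval s t ≠ 0 := fun h => ht0 ((hrel t).2 h)
    obtain ⟨R, hR⟩ : ∃ R : MvPolynomial (Fin (N + 1)) ℂ, R = hgn j r * X j ^ t.totalDegree := ⟨_, rfl⟩
    obtain ⟨T, hT⟩ : ∃ T : MvPolynomial (Fin (N + 1)) ℂ, T = X j ^ r.totalDegree * hgn j t := ⟨_, rfl⟩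
    have hRh : R.IsHomogeneous (r.totalDegree + t.totalDegree) := by
      rw [hR]
      have := (hgn_homog j r).mul ((isHomogeneous_X ℂ j).pow t.totalDegree)
      rwa [one_mul] at this
    have hTh : T.IsHomogeneous (r.totalDegree + t.totalDegree) := by
      rw [hT]
      have := ((isHomogeneous_X ℂ j).pow r.totalDegree).mul (hgn_homog j t)
      rwa [one_mul] at this
    have hRs : aeval s R = aeval s r := by
      rw [hR, map_mul, map_pow, aeval_X, hsj, one_pow, mul_one, hgn_aeval hsj]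
    have hTs : aeval s T = aeval s t := by
      rw [hT, map_mul, map_pow, aeval_X, hsj, one_pow, one_mul, hgn_aeval hsj]
    have hφf : φ f = toM (aeval F R) / toM (aeval F T) := by
      rw [hrt, map_div₀, hφa, hφa, ← hRs, ← hTs, hs, aeval_quot hRh, aeval_quot hTh,
        div_div_div_cancel_right₀ (pow_ne_zero _ (toM_ne hFj))]
    have hTne : (aeval F T : EntFun) ≠ 0 := by
      intro h
      apply hst0
      rw [← hTs, hs, aeval_quot hTh, h]
      have : toM (0 : EntFun) = 0 := map_zero (algebraMap EntFun Mer)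
      rw [this, zero_div]
    obtain ⟨d, hd⟩ := const_of_ordM hTne hw (hF.period_form h1 hRh hTh) (hF.period_form h2 hRh hTh) (fun z => by
      rw [← hφf]
      exact hcon z)
    rw [← hφf, ← φ.commutes] at hd
    have h3 := φ.toRingHom.injective hd
    rw [h3] at hftr
    exact hftr (isAlgebraic_algebraMap d)
  -- the place under the pole
  obtain ⟨E', e, he, hE'⟩ := exists_placeM hK φ z₀
  have hEE : E' = E := by
    by_contra hne
    have h3 := hfE E' hne
    have h4 := hE' f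
    rw [h4] at hz₀
    exact absurd (nsmul_nonneg h3 e) (not_le.2 hz₀)
  subst hEE
  have hpos : ∀ i, 0 < ordM z₀ (s i - algebraMap ℂ Mer (c i)) := by
    intro i
    rw [← hφ i, ← φ.commutes, ← map_sub, hE']
    exact nsmul_pos' (hE i) he
  have hsnn : ∀ i, 0 ≤ ordM z₀ (s i) := by
    intro i
    have h3 : s i = (s i - algebraMap ℂ Mer (c i)) + algebraMap ℂ Mer (c i) := by ring
    rw [h3]
    refine ordM_nonneg_add (hpos i).le ?_
    rw [Pool.Agent.H13.CV.algebraMap_eq]
    exact ordM_toM_nonneg _ _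
  have hmul : ∀ i, s i * toM (F j) = toM (F i) := fun i => by
    rw [hs]
    exact div_mul_cancel₀ _ (toM_ne hFj)
  have hFj0 : (F j : ℂ → ℂ) z₀ ≠ 0 := by
    intro h
    obtain ⟨hne, -⟩ := hF z₀
    apply hne
    funext i
    have h3 : 0 < ordM z₀ (toM (F i)) := by
      rw [← hmul i, (ordM z₀).map_mul]
      exact add_pos_of_nonneg_of_pos' (hsnn i) ((ordM_toM_pos z₀ (F j)).2 h)
    exact (ordM_toM_pos z₀ (F i)).1 h3
  refine ⟨z₀, hFj0, fun i => ?_⟩
  have h3 : toM (F i - algebraMap ℂ EntFun (c i) * F j) = (s i - algebraMap ℂ Mer (c i)) * toM (F j) := by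
    rw [sub_mul, hmul, Pool.Agent.H13.CV.algebraMap_eq]
    exact (map_sub (algebraMap EntFun Mer) _ _).trans (congrArg _ (map_mul (algebraMap EntFun Mer) _ _))
  have h4 : 0 < ordM z₀ (toM (F i - algebraMap ℂ EntFun (c i) * F j)) := by
    rw [h3, (ordM z₀).map_mul, add_comm]
    exact add_pos_of_nonneg_of_pos' (ordM_toM_nonneg _ _) (hpos i)
  have h5 := (ordM_toM_pos z₀ _).1 h4
  have h6 : (F i : ℂ → ℂ) z₀ - c i * (F j : ℂ → ℂ) z₀ = 0 := h5
  exact sub_eq_zero.1 h6

theorem range_of_closure (hg : HolomorphicInto g Set.univ) {w₁ w₂ : ℂ} (hw : LinearIndependent ℝ ![w₁, w₂]) (h1 : ∀ z, g (z + w₁) = g z)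
    (h2 : ∀ z, g (z + w₂) = g z) [hJ : (mapIdeal g Set.univ).IsPrime] (hz : ∃ z : Fin 1 → FunField (mapIdeal g Set.univ), IsTranscendenceBasis ℂ z)
    {pt : PN N} (hpt : ∀ (Q : MvPolynomial (Fin (N + 1)) ℂ) (n : ℕ), Q.IsHomogeneous n → (∀ z, VanishesAt Q (g z)) → VanishesAt Q pt) :
    ∃ z, g z = pt := by
  classical
  obtain ⟨F, hF⟩ : ∃ F : Fin (N + 1) → EntFun, Lft F g := Pool.Agent.H17.exists_global_lift hg
  -- the point
  set v := pt.rep with hv
  have hv0 : v ≠ 0 := pt.rep_nonzero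
  obtain ⟨j, hj⟩ : ∃ j, v j ≠ 0 := by
    by_contra hcon
    push Not at hcon
    exact hv0 (funext hcon)
  set c : Fin (N + 1) → ℂ := fun i => v i / v j with hc
  have hcj : c j = 1 := div_self hj
  have hmemJ : ∀ {H : MvPolynomial (Fin (N + 1)) ℂ} {n : ℕ}, H.IsHomogeneous n → H ∈ mapIdeal g Set.univ → eval c H = 0 := by
    intro H n hH hHJ
    have h3 : eval v H = 0 := hpt H n hH fun z => (mem_mapIdeal_form hH).1 hHJ z (Set.mem_univ z)
    have h4 : eval c H = (v j)⁻¹ ^ n * eval v H := by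
      rw [show c = fun i => (v j)⁻¹ * v i from funext fun i => div_eq_inv_mul _ _]
      exact Pool.Agent.H92.GT.Proj.aeval_scale (K := ℂ) hH (v j)⁻¹ v
    rw [h4, h3, mul_zero]
  have hcoord : coordFun (mapIdeal g Set.univ) j ≠ 0 := by
    intro h
    have hXj : (X j : MvPolynomial (Fin (N + 1)) ℂ) ∈ mapIdeal g Set.univ := by
      rw [← Pool.Agent.H92.GT.Proj.aeval_coordFun_eq_zero_iff, aeval_X, h]
    have := hmemJ (isHomogeneous_X ℂ j) hXj
    rw [eval_X, hcj] at this
    exact one_ne_zero this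
  obtain ⟨x, hxj, hgen, hform⟩ := Pool.Agent.H92.GT.Proj.proj_point (mapIdeal g Set.univ) hcoord
  have hK := curveField_funField (mapIdeal g Set.univ) hz
  have hess : Algebra.EssFiniteType ℂ (FunField (mapIdeal g Set.univ)) := Pool.Agent.H17GT.essFiniteType_functionField _
  obtain ⟨z₀, hFj0, hFi⟩ := range_core (K := FunField (mapIdeal g Set.univ)) hK hz hF hw h1 h2 hxj hgen hform hcj hmemJ
  refine ⟨z₀, ?_⟩
  obtain ⟨hne, e⟩ := hF z₀
  rw [e, ← Projectivization.mk_rep pt, Projectivization.mk_eq_mk_iff]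
  refine ⟨Units.mk0 ((F j : ℂ → ℂ) z₀ / v j) (div_ne_zero hFj0 hj), ?_⟩
  funext i
  change (F j : ℂ → ℂ) z₀ / v j * v i = (F i : ℂ → ℂ) z₀
  rw [hFi i, hc]
  field_simp

end Pool.Agent.AD
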