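import Pool.Agent.AD.T.Curve
import Pool.Agent.AD.T.RangeB

/-!
# AD T RangeC: a doubly periodic curve is Zariski closed
-/

set_option autoImplicit false

open MvPolynomial
open Pool.Agent.H17 (PN VanishesAt HolomorphicInto)
open Pool.Agent.H17EF (zariskiClosure)
open Pool.Agent.H14.V (DoublyPeriodic)

noncomputable section

namespace Pool.Agent.AD

variable {N : ℕ}

/-- The range of a doubly periodic non-constant curve is Zariski closed. -/
theorem zariskiClosure_eq_range {g : ℂ → PN N} (hg : HolomorphicInto g Set.univ) (hper : DoublyPeriodic g) (hne : ∃ z w, g z ≠ g w) :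
    zariskiClosure g = Set.range g := by
  obtain ⟨hJ, hz⟩ := trdeg_one hg hper hne
  obtain ⟨w₁, w₂, hw, hp⟩ := hper
  ext pt
  constructor
  · intro h
    exact range_of_closure hg hw (fun z => (hp z).1) (fun z => (hp z).2) hz h
  · rintro ⟨z, rfl⟩ Q n _ hQ
    exact hQ z

end Pool.Agent.AD
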