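import Pool.Agent.AD.T.LiftC
import Pool.Agent.AD.T.RangeC
import Pool.Agent.AD.T.NullB

/-!
# AD T CurvesAll: all the entire curves
-/

set_option autoImplicit false

open MvPolynomial Topology Filter Metric

noncomputable section

namespace Pool.Agent.AD

open Pool.Agent.H17 (PN VanishesAt HolomorphicInto ZariskiClosedIn puncturedDisc)
open Pool.Agent.H62.FC (Homog)
open Pool.Agent.H17LG.Variety (FunField)
open Pool.Agent.H13.SM (conTan)
open Pool.Agent.H13.OT (OrderTwo)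
open Pool.Agent.H17EF (projVar coneE zariskiClosure)
open Pool.Agent.H22.W (PseudoLength)
open Pool.Agent.H14.V (IsLift boundedDistortion brodyCurves DoublyPeriodic Degenerate IsNull)

variable {N : ℕ} {P : Ideal (MvPolynomial (Fin (N + 1)) ℂ)}

/-- the change of the scale -/
theorem exists_scale_down [P.IsPrime] {n : ℕ} {z : Fin n → FunField P} (hP : Homog P) (hz : IsTranscendenceBasis ℂ z)
    (hsm : ∀ y : Fin (N + 1) → ℂ, y ≠ 0 → (∀ Q ∈ P, eval y Q = 0) → Module.finrank ℂ (conTan P y) ≤ n + 1)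
    (ν : PseudoLength (coneE P)) (hν : ∀ f ∈ brodyCurves (projVar P) 1, IsNull ν f → ∀ z w, f z = f w) :
    ∃ c L : ℝ, 0 < c ∧ ∀ f : ℂ → PN N, HolomorphicInto f Set.univ → OrderTwo f → (∀ z, f z ∈ projVar P) →
      (∃ z w, f z ≠ f w) → ∃ a : ℂ, a ≠ 0 ∧ (fun z => f (a * z)) ∈ boundedDistortion (projVar P) c L := by
  obtain ⟨c, L, hc, hL, h⟩ := exists_scale (isCone_coneE hP) (charts_coneE hP hz hsm) ν (noNullBrody_of hP hν)
  exact ⟨c, L, hc, scale_down hP h⟩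

/-- a rescaled curve -/
theorem boundedDistortion_of_scale {X : Set (PN N)} {c L : ℝ} (hc : 0 < c) {g : ℂ → PN N} {a : ℂ} (ha : a ≠ 0)
    (h : (fun z => g (a * z)) ∈ boundedDistortion X c L) : ∃ c' L' : ℝ, 0 < c' ∧ g ∈ boundedDistortion X c' L' := by
  obtain ⟨hX, F, hF, hFb⟩ := h
  have ha' : 0 < ‖a⁻¹‖ := norm_pos_iff.2 (inv_ne_zero ha)
  refine ⟨‖a⁻¹‖ * c, ‖a⁻¹‖ * L, mul_pos ha' hc, ?_, fun z => F (a⁻¹ * z), ?_, ?_⟩
  · intro z
    have := hX (a⁻¹ * z)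
    simp only at this
    rwa [mul_inv_cancel_left₀ ha] at this
  · refine ⟨hF.1.comp (differentiable_id.const_mul a⁻¹), fun z => ?_⟩
    obtain ⟨h1, h2⟩ := hF.2 (a⁻¹ * z)
    refine ⟨h1, ?_⟩
    have h3 : g (a * (a⁻¹ * z)) = Projectivization.mk ℂ (F (a⁻¹ * z)).ofLp h1 := h2
    rw [← h3, mul_inv_cancel_left₀ ha]
  · intro z
    have h1 : deriv (fun z => F (a⁻¹ * z)) z = a⁻¹ • deriv F (a⁻¹ * z) := by
      have h2 : HasDerivAt (fun z : ℂ => a⁻¹ * z) a⁻¹ z := by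
        simpa using (hasDerivAt_id z).const_mul a⁻¹
      exact ((hF.1 (a⁻¹ * z)).hasDerivAt.scomp z h2).deriv
    rw [h1, Pool.Agent.H36.BP.fs_smul_right]
    exact ⟨mul_le_mul_of_nonneg_left (hFb _).1 ha'.le, mul_le_mul_of_nonneg_left (hFb _).2 ha'.le⟩

/-- **All the entire curves.** -/
theorem curves_all (hP : Homog P) {c L : ℝ} (hc : 0 < c)
    (hscale : ∀ f : ℂ → PN N, HolomorphicInto f Set.univ → OrderTwo f → (∀ z, f z ∈ projVar P) →
      (∃ z w, f z ≠ f w) → ∃ a : ℂ, a ≠ 0 ∧ (fun z => f (a * z)) ∈ boundedDistortion (projVar P) c L)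
    {T : Set (ℂ → PN N)} (hT : T.Finite)
    (hell : ∀ g ∈ T, HolomorphicInto g Set.univ ∧ (∀ z, g z ∈ projVar P) ∧ (∃ z w, g z ≠ g w) ∧ OrderTwo g ∧
        DoublyPeriodic g ∧ Degenerate P g)
    (hord : ∀ f : ℂ → PN N, HolomorphicInto f Set.univ → OrderTwo f → (∀ z, f z ∈ projVar P) → (∃ z w, f z ≠ f w) →
        ∃ g ∈ T, ∃ a b : ℂ, a ≠ 0 ∧ ∀ z, f z = g (a * z + b))
    (hbr : ∀ f : ℂ → PN N, HolomorphicInto f Set.univ → (∀ z, f z ∈ projVar P) → (∃ z w, f z ≠ f w) →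
        ∀ z, f z ∈ (⋃ g ∈ T, zariskiClosure g)) :
    (⋃ g ∈ T, zariskiClosure g) = (⋃ g ∈ T, Set.range g) ∧
    (∀ g ∈ T, (∃ c L : ℝ, 0 < c ∧ g ∈ boundedDistortion (projVar P) c L) ∧ DoublyPeriodic g ∧ InCurve P g) ∧
    ∀ f : ℂ → PN N, HolomorphicInto f Set.univ → (∀ z, f z ∈ projVar P) → (∃ z w, f z ≠ f w) →
      ∃ g ∈ T, ∃ φ : ℂ → ℂ, Differentiable ℂ φ ∧ (OrderTwo f → ∃ a b : ℂ, ∀ z, φ z = a * z + b) ∧ ∀ z, f z = g (φ z) := by
  have hTb : ∀ g ∈ T, ∃ c L : ℝ, 0 < c ∧ g ∈ boundedDistortion (projVar P) c L := by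
    intro g hg
    obtain ⟨h1, h2, h3, h4, -, -⟩ := hell g hg
    obtain ⟨a, ha, h⟩ := hscale g h1 h4 h2 h3
    exact boundedDistortion_of_scale hc ha h
  have heq : (⋃ g ∈ T, zariskiClosure g) = (⋃ g ∈ T, Set.range g) :=
    Set.iUnion₂_congr fun g hg => zariskiClosure_eq_range (hell g hg).1 (hell g hg).2.2.2.2.1 (hell g hg).2.2.1
  refine ⟨heq, fun g hg => ?_, fun f hf hfX hfn => ?_⟩
  · obtain ⟨h1, h2, h3, h4, h5, -⟩ := hell g hg
    exact ⟨hTb g hg, h5, inCurve_of hP h1 h2 h5 h3⟩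
  · by_cases hfo : OrderTwo f
    · obtain ⟨g, hg, a, b, ha, h⟩ := hord f hf hfo hfX hfn
      exact ⟨g, hg, fun z => a * z + b, (differentiable_id.const_mul a).add_const b, fun _ => ⟨a, b, fun _ => rfl⟩, h⟩
    · obtain ⟨g, hg, φ, hφ, h⟩ := exists_factor hT hTb (fun g hg => (hell g hg).2.2.2.2.1) hf fun z => by
        have h1 := hbr f hf hfX hfn z
        rw [heq] at h1
        simp only [Set.mem_iUnion, Set.mem_range] at h1
        obtain ⟨g, hg, w, hw⟩ := h1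
        exact ⟨g, hg, w, hw.symm⟩
      exact ⟨g, hg, φ, hφ, fun h => absurd h hfo, h⟩

end Pool.Agent.AD
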