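import Pool.Agent.AD.T.Curve
import Mathlib.Analysis.Analytic.Uniqueness
import Mathlib.Analysis.Complex.CauchyIntegral

/-!
# AD T LiftA: lifting of entire curves through doubly periodic immersed curves, local part
-/

set_option autoImplicit false

open Topology Filter Metric

noncomputable section

namespace Pool.Agent.AD

open Pool.Agent.H36.BP (EN fs)

variable {N : ℕ}

/-- `F z` and `G w` are parallel. -/
def Par (F G : ℂ → EN N) (z w : ℂ) : Prop := ∀ k l, F z k * G w l = F z l * G w k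

theorem analyticAt_coord {F : ℂ → EN N} {z : ℂ} (hF : AnalyticAt ℂ F z) (k : Fin (N + 1)) : AnalyticAt ℂ (fun z => F z k) z :=
  ((PiLp.proj 2 (fun _ : Fin (N + 1) => ℂ) k : EN N →L[ℂ] ℂ).analyticAt _).comp hF

theorem exists_coord_ne {x : EN N} (hx : x ≠ 0) : ∃ i, x i ≠ 0 := by
  by_contra hcon
  push Not at hcon
  exact hx (by ext i; exact hcon i)

theorem isClosed_par {F G : ℂ → EN N} (hF : Differentiable ℂ F) (hG : Differentiable ℂ G) : IsClosed {p : ℂ × ℂ | Par F G p.1 p.2} := by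
  have h : {p : ℂ × ℂ | Par F G p.1 p.2} = ⋂ k, ⋂ l, {p : ℂ × ℂ | F p.1 k * G p.2 l = F p.1 l * G p.2 k} := by
    ext p
    simp only [Set.mem_ofPred_eq, Set.mem_iInter]
    exact Iff.rfl
  have hc : ∀ {H : ℂ → EN N} (_ : Differentiable ℂ H) (k : Fin (N + 1)), Continuous fun z => H z k := fun hH k =>
    (PiLp.proj 2 (fun _ : Fin (N + 1) => ℂ) k : EN N →L[ℂ] ℂ).continuous.comp hH.continuous
  rw [h]
  refine isClosed_iInter fun k => isClosed_iInter fun l => isClosed_eq ?_ ?_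
  · exact ((hc hF k).comp continuous_fst).mul ((hc hG l).comp continuous_snd)
  · exact ((hc hF l).comp continuous_fst).mul ((hc hG k).comp continuous_snd)

/-- the local solution -/
theorem exists_local {F G : ℂ → EN N} (hF : Differentiable ℂ F) (hF0 : ∀ z, F z ≠ 0) (hG : Differentiable ℂ G)
    (hG0 : ∀ z, G z ≠ 0) {z₀ w₀ : ℂ} (hpos : 0 < fs (G w₀) (deriv G w₀)) (h0 : Par F G z₀ w₀) :
    ∃ (ψ : ℂ → ℂ) (r : ℝ), 0 < r ∧ (∀ z ∈ ball z₀ r, AnalyticAt ℂ ψ z) ∧ ψ z₀ = w₀ ∧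
      (∀ᶠ p in 𝓝 (z₀, w₀), Par F G p.1 p.2 → p.2 = ψ p.1) ∧
      ∀ z₁ ∈ ball z₀ r, (∃ᶠ z in 𝓝[≠] z₁, Par F G z (ψ z)) → ∀ z ∈ ball z₀ r, Par F G z (ψ z) := by
  obtain ⟨i, hi⟩ := exists_coord_ne (hG0 w₀)
  have hFi : F z₀ i ≠ 0 := by
    intro h
    apply hF0 z₀
    ext l
    have h1 := h0 i l
    rw [h, zero_mul] at h1
    exact (mul_eq_zero.1 h1.symm).resolve_right hi
  have hGk : ∀ (w : ℂ) (k : Fin (N + 1)), AnalyticAt ℂ (fun w => G w k) w := fun w k => analyticAt_coord (hG.analyticAt w) k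
  have hFk : ∀ (z : ℂ) (k : Fin (N + 1)), AnalyticAt ℂ (fun z => F z k) z := fun z k => analyticAt_coord (hF.analyticAt z) k
  -- the coordinate
  obtain ⟨j, hj⟩ : ∃ j, deriv (fun w => G w j / G w i) w₀ ≠ 0 := by
    by_contra hcon
    push Not at hcon
    have hd : ∀ k, HasDerivAt (fun w => G w k) (deriv G w₀ k) w₀ := fun k =>
      ((PiLp.proj 2 (fun _ : Fin (N + 1) => ℂ) k : EN N →L[ℂ] ℂ).hasFDerivAt.comp_hasDerivAt w₀ (hG w₀).hasDerivAt)
    have h1 : deriv G w₀ = (deriv G w₀ i / G w₀ i) • G w₀ := by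
      ext k
      have h2 := ((hd k).div (hd i) hi).deriv
      have h3 := hcon k
      have h4 : (deriv (fun w => G w k / G w i) w₀) = (deriv G w₀ k * G w₀ i - G w₀ k * deriv G w₀ i) / G w₀ i ^ 2 := h2
      rw [h3] at h4
      have h5 : deriv G w₀ k * G w₀ i - G w₀ k * deriv G w₀ i = 0 := by
        field_simp at h4
        linear_combination -h4
      show deriv G w₀ k = deriv G w₀ i / G w₀ i * G w₀ k
      field_simp
      linear_combination h5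
    have h2 : fs (G w₀) (deriv G w₀) = 0 := by
      have h3 := Pool.Agent.H36.BP.fs_inv (hG0 w₀) 0 one_ne_zero (deriv G w₀ i / G w₀ i)
      rw [one_smul, smul_zero, zero_add, ← h1] at h3
      rw [h3]
      have h4 := Pool.Agent.H36.BP.fs_smul_right (G w₀) 0 0
      rw [smul_zero, norm_zero, zero_mul] at h4
      exact h4
    linarith
  obtain ⟨γ, hγ⟩ : ∃ γ : ℂ → ℂ, γ = fun w => G w j / G w i := ⟨_, rfl⟩
  obtain ⟨θ, hθ⟩ : ∃ θ : ℂ → ℂ, θ = fun z => F z j / F z i := ⟨_, rfl⟩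
  have hγa : AnalyticAt ℂ γ w₀ := by rw [hγ]; exact (hGk w₀ j).div (hGk w₀ i) hi
  have hγ' : deriv γ w₀ ≠ 0 := by rw [hγ]; exact hj
  have hθa : AnalyticAt ℂ θ z₀ := by rw [hθ]; exact (hFk z₀ j).div (hFk z₀ i) hFi
  have hθ0 : θ z₀ = γ w₀ := by
    rw [hθ, hγ]
    have h1 := h0 j i
    show F z₀ j / F z₀ i = G w₀ j / G w₀ i
    rw [div_eq_div_iff hFi hi, h1, mul_comm]
  obtain ⟨κ, hκ⟩ : ∃ κ, κ = hγa.hasStrictDerivAt.localInverse _ _ _ hγ' := ⟨_, rfl⟩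
  have hκa : AnalyticAt ℂ κ (γ w₀) := by rw [hκ]; exact hγa.analyticAt_localInverse hγ'
  have hleft : ∀ᶠ w in 𝓝 w₀, κ (γ w) = w := by
    rw [hκ]; exact hγa.hasStrictDerivAt.eventually_left_inverse hγ'
  obtain ⟨ψ, hψ⟩ : ∃ ψ : ℂ → ℂ, ψ = fun z => κ (θ z) := ⟨_, rfl⟩
  have hψa : AnalyticAt ℂ ψ z₀ := by
    rw [hψ]
    refine AnalyticAt.comp (g := κ) (f := θ) ?_ hθa
    rw [hθ0]; exact hκa
  have hψ0 : ψ z₀ = w₀ := by
    rw [hψ]
    show κ (θ z₀) = w₀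
    rw [hθ0]; exact hleft.self_of_nhds
  obtain ⟨r, hr, hball⟩ := Metric.eventually_nhds_iff_ball.1 hψa.eventually_analyticAt
  refine ⟨ψ, r, hr, hball, hψ0, ?_, ?_⟩
  · have h1 : ∀ᶠ p : ℂ × ℂ in 𝓝 (z₀, w₀), F p.1 i ≠ 0 := by
      have : ContinuousAt (fun p : ℂ × ℂ => F p.1 i) (z₀, w₀) :=
        ContinuousAt.comp (g := fun z => F z i) (f := Prod.fst) (hFk z₀ i).continuousAt continuousAt_fst
      exact this.eventually_ne hFi
    have h2 : ∀ᶠ p : ℂ × ℂ in 𝓝 (z₀, w₀), G p.2 i ≠ 0 := by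
      have : ContinuousAt (fun p : ℂ × ℂ => G p.2 i) (z₀, w₀) :=
        ContinuousAt.comp (g := fun z => G z i) (f := Prod.snd) (hGk w₀ i).continuousAt continuousAt_snd
      exact this.eventually_ne hi
    have h3 : ∀ᶠ p : ℂ × ℂ in 𝓝 (z₀, w₀), κ (γ p.2) = p.2 :=
      (continuousAt_snd (p := (z₀, w₀))).eventually hleft
    filter_upwards [h1, h2, h3] with p h1 h2 h3 hp
    have h4 : θ p.1 = γ p.2 := by
      rw [hθ, hγ]
      have h5 := hp j i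
      show F p.1 j / F p.1 i = G p.2 j / G p.2 i
      rw [div_eq_div_iff h1 h2, h5, mul_comm]
    rw [hψ]
    show p.2 = κ (θ p.1)
    rw [h4, h3]
  · intro z₁ hz₁ hfr z hz k l
    have hDa : ∀ z ∈ ball z₀ r, AnalyticAt ℂ (fun z => F z k * G (ψ z) l - F z l * G (ψ z) k) z := by
      intro z hz
      have h1 : ∀ k, AnalyticAt ℂ (fun z => G (ψ z) k) z := fun k =>
        AnalyticAt.comp (g := fun w => G w k) (f := ψ) (hGk _ k) (hball z hz)
      exact ((hFk z k).mul (h1 l)).sub ((hFk z l).mul (h1 k))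
    have h2 : ∃ᶠ z in 𝓝[≠] z₁, F z k * G (ψ z) l - F z l * G (ψ z) k = 0 := by
      refine hfr.mono fun z hz => ?_
      rw [hz k l, sub_self]
    have h3 := (hDa z₁ hz₁).frequently_zero_iff_eventually_zero.1 h2
    have h4 : AnalyticOnNhd ℂ (fun z => F z k * G (ψ z) l - F z l * G (ψ z) k) (ball z₀ r) := hDa
    have h5 := h4.eqOn_zero_of_preconnected_of_eventuallyEq_zero (convex_ball z₀ r).isPreconnected hz₁ h3 hz
    exact sub_eq_zero.1 h5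

/-- There is a local solution through the point. -/
def Good (F G : ℂ → EN N) (z w : ℂ) : Prop := ∃ ψ : ℂ → ℂ, ContinuousAt ψ z ∧ ψ z = w ∧ ∀ᶠ y in 𝓝 z, Par F G y (ψ y)

/-- uniqueness of the local solution -/
theorem eventually_eq {F G : ℂ → EN N} (hF : Differentiable ℂ F) (hF0 : ∀ z, F z ≠ 0) (hG : Differentiable ℂ G)
    (hG0 : ∀ z, G z ≠ 0) (hpos : ∀ w, 0 < fs (G w) (deriv G w)) {z₀ : ℂ} {ψ₁ ψ₂ : ℂ → ℂ} (h1 : ContinuousAt ψ₁ z₀)
    (h2 : ContinuousAt ψ₂ z₀) (h : ψ₁ z₀ = ψ₂ z₀) (h1' : ∀ᶠ y in 𝓝 z₀, Par F G y (ψ₁ y)) (h2' : ∀ᶠ y in 𝓝 z₀, Par F G y (ψ₂ y)) :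
    ∀ᶠ y in 𝓝 z₀, ψ₁ y = ψ₂ y := by
  obtain ⟨ψ, r, hr, ha, hψ0, hu, -⟩ := exists_local hF hF0 hG hG0 (hpos (ψ₁ z₀)) h1'.self_of_nhds
  have e1 : Tendsto (fun y => (y, ψ₁ y)) (𝓝 z₀) (𝓝 (z₀, ψ₁ z₀)) := continuousAt_id.prodMk h1
  have e2 : Tendsto (fun y => (y, ψ₂ y)) (𝓝 z₀) (𝓝 (z₀, ψ₁ z₀)) := by
    rw [h]
    exact continuousAt_id.prodMk h2
  filter_upwards [e1.eventually hu, e2.eventually hu, h1', h2'] with y u1 u2 p1 p2
  rw [u1 p1, u2 p2]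

/-- the radius of the local solutions is uniform -/
theorem exists_radius {F G : ℂ → EN N} (hF : Differentiable ℂ F) (hF0 : ∀ z, F z ≠ 0) (hG : Differentiable ℂ G)
    (hG0 : ∀ z, G z ≠ 0) (hpos : ∀ w, 0 < fs (G w) (deriv G w)) {S : Set (ℂ × ℂ)} (hS : IsCompact S) :
    ∃ r : ℝ, 0 < r ∧ ∀ e ∈ S, Good F G e.1 e.2 → ∃ ψ : ℂ → ℂ, (∀ z ∈ ball e.1 r, AnalyticAt ℂ ψ z ∧ Par F G z (ψ z)) ∧ ψ e.1 = e.2 := by
  refine hS.induction_on (p := fun S => ∃ r : ℝ, 0 < r ∧ ∀ e ∈ S, Good F G e.1 e.2 →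
    ∃ ψ : ℂ → ℂ, (∀ z ∈ ball e.1 r, AnalyticAt ℂ ψ z ∧ Par F G z (ψ z)) ∧ ψ e.1 = e.2) ?_ ?_ ?_ ?_
  · exact ⟨1, one_pos, fun e he => absurd he (Set.notMem_empty e)⟩
  · rintro s t hst ⟨r, hr, h⟩
    exact ⟨r, hr, fun e he => h e (hst he)⟩
  · rintro s t ⟨r, hr, h⟩ ⟨r', hr', h'⟩
    refine ⟨min r r', lt_min hr hr', fun e he hg => ?_⟩
    rcases he with he | he
    · obtain ⟨ψ, h1, h2⟩ := h e he hg
      exact ⟨ψ, fun z hz => h1 z (ball_subset_ball (min_le_left _ _) hz), h2⟩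
    · obtain ⟨ψ, h1, h2⟩ := h' e he hg
      exact ⟨ψ, fun z hz => h1 z (ball_subset_ball (min_le_right _ _) hz), h2⟩
  · intro e₀ he₀
    by_cases h0 : Par F G e₀.1 e₀.2
    · obtain ⟨ψ, r, hr, ha, hψ0, hu, hfr⟩ := exists_local hF hF0 hG hG0 (hpos e₀.2) h0
      have h1 : ∀ᶠ p : ℂ × ℂ in 𝓝 e₀, p.1 ∈ ball e₀.1 (r / 2) := by
        have : Tendsto Prod.fst (𝓝 e₀) (𝓝 e₀.1) := continuousAt_fst
        exact this.eventually (ball_mem_nhds _ (by positivity))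
      refine ⟨{p | (∀ᶠ q in 𝓝 p, Par F G q.1 q.2 → q.2 = ψ q.1) ∧ p.1 ∈ ball e₀.1 (r / 2)}, mem_nhdsWithin_of_mem_nhds ?_, r / 2,
        by positivity, ?_⟩
      · exact (Filter.Eventually.eventually_nhds hu).and h1
      · rintro e ⟨he1, he2⟩ ⟨ψ', hc, hψe, hP⟩
        have e1 : Tendsto (fun y => (y, ψ' y)) (𝓝 e.1) (𝓝 e) := by
          have : Tendsto (fun y => (y, ψ' y)) (𝓝 e.1) (𝓝 (e.1, ψ' e.1)) := continuousAt_id.prodMk hc
          rw [hψe] at this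
          exact this
        have e2 : ∀ᶠ y in 𝓝 e.1, Par F G y (ψ y) ∧ ψ y = ψ' y := by
          filter_upwards [e1.eventually he1, hP] with y u1 p1
          have := u1 p1
          rw [← this]
          exact ⟨p1, rfl⟩
        have hsub : ball e.1 (r / 2) ⊆ ball e₀.1 r := by
          intro z hz
          rw [mem_ball] at *
          calc dist z e₀.1 ≤ dist z e.1 + dist e.1 e₀.1 := dist_triangle _ _ _
            _ < r / 2 + r / 2 := add_lt_add hz he2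
            _ = r := by ring
        have he' : e.1 ∈ ball e₀.1 r := ball_subset_ball (by linarith) he2
        have hall := hfr e.1 he' ((e2.mono fun y hy => hy.1).filter_mono nhdsWithin_le_nhds).frequently
        exact ⟨ψ, fun z hz => ⟨ha z (hsub hz), hall z (hsub hz)⟩, by rw [e2.self_of_nhds.2, hψe]⟩
    · refine ⟨{p | ¬ Par F G p.1 p.2}, mem_nhdsWithin_of_mem_nhds ((isClosed_par hF hG).isOpen_compl.mem_nhds h0), 1, one_pos, ?_⟩
      rintro e he ⟨ψ', hc, hψe, hP⟩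
      have := hP.self_of_nhds
      rw [hψe] at this
      exact absurd this he

end Pool.Agent.AD
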