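import Pool.Agent.AD.T.LiftA

/-!
# AD T LiftB: lifting of entire curves through doubly periodic immersed curves
-/

set_option autoImplicit false

open Topology Filter Metric

noncomputable section

namespace Pool.Agent.AD

open Pool.Agent.H36.BP (EN fs)

variable {N : ℕ}

/-- `φ` is a solution on the disc with radius `ρ`. -/
def Sol (F G : ℂ → EN N) (w₀ : ℂ) (ρ : ℝ) (φ : ℂ → ℂ) : Prop :=
  (∀ z ∈ ball 0 ρ, AnalyticAt ℂ φ z ∧ Par F G z (φ z)) ∧ φ 0 = w₀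

section
variable {F G : ℂ → EN N} (hF : Differentiable ℂ F) (hF0 : ∀ z, F z ≠ 0) (hG : Differentiable ℂ G)
    (hG0 : ∀ z, G z ≠ 0) (hpos : ∀ w, 0 < fs (G w) (deriv G w))
include hF hF0 hG hG0 hpos

/-- two solutions on an open convex set with the same value at a point agree -/
theorem eqOn_of_value {U : Set ℂ} (hU : IsOpen U) (hUc : Convex ℝ U) {ψ₁ ψ₂ : ℂ → ℂ}
    (h1 : ∀ z ∈ U, AnalyticAt ℂ ψ₁ z ∧ Par F G z (ψ₁ z)) (h2 : ∀ z ∈ U, AnalyticAt ℂ ψ₂ z ∧ Par F G z (ψ₂ z)) {z₀ : ℂ}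
    (hz₀ : z₀ ∈ U) (h : ψ₁ z₀ = ψ₂ z₀) {z : ℂ} (hz : z ∈ U) : ψ₁ z = ψ₂ z := by
  have h3 : ∀ᶠ y in 𝓝 z₀, ψ₁ y = ψ₂ y :=
    eventually_eq hF hF0 hG hG0 hpos (h1 z₀ hz₀).1.continuousAt (h2 z₀ hz₀).1.continuousAt h
      (by filter_upwards [hU.mem_nhds hz₀] with y hy using (h1 y hy).2)
      (by filter_upwards [hU.mem_nhds hz₀] with y hy using (h2 y hy).2)
  have e1 : AnalyticOnNhd ℂ ψ₁ U := fun y hy => (h1 y hy).1
  have e2 : AnalyticOnNhd ℂ ψ₂ U := fun y hy => (h2 y hy).1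
  exact e1.eqOn_of_preconnected_of_eventuallyEq e2 hUc.isPreconnected hz₀ h3 hz

/-- a solution extends to a larger disc -/
theorem extend_sol {w₀ : ℂ} {ρ r : ℝ} (hρ : 0 < ρ) (hr : 0 < r) {φ : ℂ → ℂ} (hφ : Sol F G w₀ ρ φ)
    (hrad : ∀ z ∈ ball (0 : ℂ) ρ, ∃ ψ : ℂ → ℂ, (∀ y ∈ ball z r, AnalyticAt ℂ ψ y ∧ Par F G y (ψ y)) ∧ ψ z = φ z) :
    ∃ Φ : ℂ → ℂ, Sol F G w₀ (ρ + r / 2) Φ := by
  classical
  obtain ⟨ρ', hρ'0, hρ'ρ, hρ'r⟩ : ∃ ρ' : ℝ, 0 < ρ' ∧ ρ' < ρ ∧ ρ < ρ' + r / 2 := by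
    refine ⟨max (ρ / 2) (ρ - r / 4), lt_max_of_lt_left (by positivity), max_lt (by linarith) (by linarith), ?_⟩
    have := le_max_right (ρ / 2) (ρ - r / 4)
    linarith
  choose! ψ hψ1 hψ2 using hrad
  -- the projection to the closed disc of radius `ρ'`
  obtain ⟨π, hπ⟩ : ∃ π : ℂ → ℂ, π = fun z => ((min 1 (ρ' / ‖z‖) : ℝ) : ℂ) * z := ⟨_, rfl⟩
  have hπle : ∀ z, ‖π z‖ ≤ ρ' := by
    intro z
    rw [hπ]
    simp only
    rw [norm_mul, Complex.norm_real, Real.norm_of_nonneg (le_min zero_le_one (by positivity))]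
    rcases eq_or_ne z 0 with rfl | hz
    · simp [hρ'0.le]
    · calc min 1 (ρ' / ‖z‖) * ‖z‖ ≤ ρ' / ‖z‖ * ‖z‖ := mul_le_mul_of_nonneg_right (min_le_right _ _) (norm_nonneg _)
        _ = ρ' := div_mul_cancel₀ _ (norm_ne_zero_iff.2 hz)
  have hπmem : ∀ z, π z ∈ ball (0 : ℂ) ρ := fun z => by
    rw [mem_ball_zero_iff]
    exact (hπle z).trans_lt hρ'ρ
  have hπid : ∀ z, ‖z‖ ≤ ρ' → π z = z := by
    intro z hz
    rw [hπ]
    simp only
    rcases eq_or_ne z 0 with rfl | hz0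
    · simp
    · rw [min_eq_left ((one_le_div (norm_pos_iff.2 hz0)).2 hz)]
      simp
  have hπdist : ∀ z, ‖z‖ < ρ + r / 2 → dist z (π z) < r := by
    intro z hz
    rcases le_or_gt ‖z‖ ρ' with h | h
    · rw [hπid z h, dist_self]
      exact hr
    · have hz0 : 0 < ‖z‖ := hρ'0.trans h
      rw [dist_eq_norm, hπ]
      simp only
      have h1 : z - ((min 1 (ρ' / ‖z‖) : ℝ) : ℂ) * z = ((1 - ρ' / ‖z‖ : ℝ) : ℂ) * z := by
        rw [min_eq_right ((div_le_one hz0).2 h.le)]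
        push_cast
        ring
      rw [h1, norm_mul, Complex.norm_real, Real.norm_of_nonneg (sub_nonneg.2 ((div_le_one hz0).2 h.le)), sub_mul,
        div_mul_cancel₀ _ hz0.ne', one_mul]
      linarith
  have hπcont : ∀ z, ContinuousAt π z := by
    intro z
    rcases lt_or_ge ‖z‖ ρ' with h | h
    · have : π =ᶠ[𝓝 z] id := by
        filter_upwards [(isOpen_lt continuous_norm continuous_const).mem_nhds h] with y hy
        exact hπid y (le_of_lt hy)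
      exact continuousAt_id.congr this.symm
    · have hz0 : ‖z‖ ≠ 0 := (hρ'0.trans_le h).ne'
      rw [hπ]
      have h1 : ContinuousAt (fun z : ℂ => min 1 (ρ' / ‖z‖)) z :=
        continuousAt_const.min (continuousAt_const.div continuous_norm.continuousAt hz0)
      exact (Complex.continuous_ofReal.continuousAt.comp h1).mul continuousAt_id
  refine ⟨fun z => ψ (π z) z, ?_, ?_⟩
  · intro z₁ hz₁
    rw [mem_ball_zero_iff] at hz₁
    have hz₁' : z₁ ∈ ball (π z₁) r := by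
      rw [mem_ball]
      exact hπdist z₁ hz₁
    -- near `z₁` the function is `ψ (π z₁)`
    have hkey : ∀ᶠ z in 𝓝 z₁, ψ (π z) z = ψ (π z₁) z := by
      have e1 : ∀ᶠ z in 𝓝 z₁, ‖z‖ < ρ + r / 2 := (isOpen_lt continuous_norm continuous_const).mem_nhds hz₁
      have e2 : ∀ᶠ z in 𝓝 z₁, z ∈ ball (π z₁) r := isOpen_ball.mem_nhds hz₁'
      have e3 : ∀ᶠ z in 𝓝 z₁, dist (π z) (π z₁) < r := (hπcont z₁).eventually (ball_mem_nhds _ hr)
      filter_upwards [e1, e2, e3] with z h1 h2 h3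
      have hzr : z ∈ ball (π z) r := by
        rw [mem_ball]
        exact hπdist z h1
      -- at `π z₁` both agree with `φ`
      have h4 : ψ (π z₁) (π z) = φ (π z) := by
        refine eqOn_of_value hF hF0 hG hG0 hpos (U := ball (π z₁) r ∩ ball 0 ρ) (isOpen_ball.inter isOpen_ball)
          ((convex_ball _ _).inter (convex_ball _ _)) (fun y hy => hψ1 _ (hπmem z₁) y hy.1) (fun y hy => hφ.1 y hy.2)
          (z₀ := π z₁) ⟨mem_ball_self hr, hπmem z₁⟩ (hψ2 _ (hπmem z₁)) ⟨by rw [mem_ball]; exact h3, hπmem z⟩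
      have h5 : ψ (π z) (π z) = ψ (π z₁) (π z) := by rw [hψ2 _ (hπmem z), h4]
      exact eqOn_of_value hF hF0 hG hG0 hpos (U := ball (π z) r ∩ ball (π z₁) r) (isOpen_ball.inter isOpen_ball)
        ((convex_ball _ _).inter (convex_ball _ _)) (fun y hy => hψ1 _ (hπmem z) y hy.1) (fun y hy => hψ1 _ (hπmem z₁) y hy.2)
        (z₀ := π z) ⟨mem_ball_self hr, by rw [mem_ball]; exact h3⟩ h5 ⟨hzr, h2⟩
    obtain ⟨h6, h7⟩ := hψ1 _ (hπmem z₁) z₁ hz₁'
    refine ⟨h6.congr (hkey.mono fun z hz => hz.symm), h7⟩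
  · have h1 : π 0 = 0 := hπid 0 (by rw [norm_zero]; exact hρ'0.le)
    show ψ (π 0) 0 = w₀
    rw [h1, hψ2 0 (mem_ball_self hρ), hφ.2]

/-- **Global solutions.** -/
theorem exists_entire_of_radius {w₀ : ℂ} (h0 : Good F G 0 w₀)
    (hrad : ∀ R : ℝ, ∃ r : ℝ, 0 < r ∧ ∀ z w, ‖z‖ ≤ R → Good F G z w →
      ∃ ψ : ℂ → ℂ, (∀ y ∈ ball z r, AnalyticAt ℂ ψ y ∧ Par F G y (ψ y)) ∧ ψ z = w) :
    ∃ φ : ℂ → ℂ, Differentiable ℂ φ ∧ ∀ z, Par F G z (φ z) := by
  have hgood : ∀ {ρ : ℝ} {φ : ℂ → ℂ}, Sol F G w₀ ρ φ → ∀ z ∈ ball (0 : ℂ) ρ, Good F G z (φ z) := by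
    intro ρ φ hφ z hz
    exact ⟨φ, (hφ.1 z hz).1.continuousAt, rfl, by filter_upwards [isOpen_ball.mem_nhds hz] with y hy using (hφ.1 y hy).2⟩
  have hex : ∀ R : ℝ, 0 < R → ∃ φ : ℂ → ℂ, Sol F G w₀ R φ := by
    intro R hR
    obtain ⟨r, hr, h⟩ := hrad R
    have hind : ∀ n : ℕ, ∃ φ : ℂ → ℂ, Sol F G w₀ (min R (r + n * (r / 2))) φ := by
      intro n
      induction n with
      | zero =>
        obtain ⟨ψ, h1, h2⟩ := h 0 w₀ (by rw [norm_zero]; exact hR.le) h0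
        refine ⟨ψ, fun z hz => h1 z ?_, h2⟩
        refine ball_subset_ball ?_ hz
        refine (min_le_right _ _).trans ?_
        simp
      | succ n ih =>
        obtain ⟨φ, hφ⟩ := ih
        have hρ : 0 < min R (r + n * (r / 2)) := lt_min hR (by positivity)
        obtain ⟨Φ, hΦ⟩ := extend_sol hF hF0 hG hG0 hpos hρ hr hφ fun z hz =>
          h z (φ z) (by
            rw [mem_ball_zero_iff] at hz
            exact hz.le.trans (min_le_left _ _)) (hgood hφ z hz)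
        refine ⟨Φ, fun z hz => hΦ.1 z (ball_subset_ball ?_ hz), hΦ.2⟩
        rcases min_choice R (r + n * (r / 2)) with h3 | h3
        · rw [h3]
          exact (min_le_left _ _).trans (by linarith)
        · rw [h3]
          refine (min_le_right _ _).trans ?_
          push_cast
          linarith
    obtain ⟨n, hn⟩ := exists_nat_ge (R / (r / 2))
    obtain ⟨φ, hφ⟩ := hind n
    refine ⟨φ, ?_⟩
    have h1 : R ≤ r + n * (r / 2) := by
      rw [div_le_iff₀ (by positivity)] at hn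
      linarith
    rw [min_eq_left h1] at hφ
    exact hφ
  have hex' : ∀ R : ℝ, ∃ φ : ℂ → ℂ, 0 < R → Sol F G w₀ R φ := by
    intro R
    by_cases hR : 0 < R
    · obtain ⟨φ, hφ⟩ := hex R hR
      exact ⟨φ, fun _ => hφ⟩
    · exact ⟨0, fun h => absurd h hR⟩
  choose φ hφ using hex'
  have huniq : ∀ R R' : ℝ, 0 < R → R ≤ R' → ∀ z ∈ ball (0 : ℂ) R, φ R z = φ R' z := by
    intro R R' hR hRR' z hz
    refine eqOn_of_value hF hF0 hG hG0 hpos isOpen_ball (convex_ball (0 : ℂ) R) (hφ R hR).1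
      (fun y hy => (hφ R' (hR.trans_le hRR')).1 y (ball_subset_ball hRR' hy)) (mem_ball_self hR) ?_ hz
    rw [(hφ R hR).2, (hφ R' (hR.trans_le hRR')).2]
  refine ⟨fun z => φ (‖z‖ + 1) z, ?_, ?_⟩
  · intro z₁
    have h1 : ∀ᶠ z in 𝓝 z₁, φ (‖z‖ + 1) z = φ (‖z₁‖ + 2) z := by
      have e1 : ∀ᶠ z : ℂ in 𝓝 z₁, ‖z‖ < ‖z₁‖ + 1 := (isOpen_lt continuous_norm continuous_const).mem_nhds (by simp)
      filter_upwards [e1] with z hz
      exact huniq _ _ (by positivity) (by linarith) z (by rw [mem_ball_zero_iff]; linarith)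
    have h2 := ((hφ (‖z₁‖ + 2) (by positivity)).1 z₁ (by rw [mem_ball_zero_iff]; linarith)).1
    exact (h2.congr (h1.mono fun z hz => hz.symm)).differentiableAt
  · intro z
    exact ((hφ (‖z‖ + 1) (by positivity)).1 z (by rw [mem_ball_zero_iff]; linarith)).2

end

end Pool.Agent.AD
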