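import Pool.Agent.AD.T.LiftB

/-!
# AD T LiftC: entire curves whose values are values of doubly periodic immersed curves
-/

set_option autoImplicit false

open Topology Filter Metric

noncomputable section

namespace Pool.Agent.AD

open Pool.Agent.H17 (PN VanishesAt HolomorphicInto)
open Pool.Agent.H36.BP (EN fs)
open Pool.Agent.H14.V (IsLift DoublyPeriodic exists_isLift boundedDistortion)

variable {N : ℕ}

theorem par_iff {F G : ℂ → EN N} {f g : ℂ → PN N} (hF : IsLift F f) (hG : IsLift G g) (z w : ℂ) :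
    f z = g w ↔ Par F G z w := by
  obtain ⟨h1, h2⟩ := hF.2 z
  obtain ⟨h3, h4⟩ := hG.2 w
  rw [h2, h4, Projectivization.mk_eq_mk_iff']
  constructor
  · rintro ⟨a, ha⟩ k l
    have e : ∀ i, a * G w i = F z i := fun i => congrFun ha i
    rw [← e k, ← e l]
    ring
  · intro h
    obtain ⟨i, hi⟩ := exists_coord_ne (hG.ne_zero w)
    refine ⟨F z i / G w i, ?_⟩
    funext k
    show F z i / G w i * G w k = F z k
    rw [div_mul_eq_mul_div, div_eq_iff hi, h i k]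

/-- the lifting, centred at the origin -/
theorem exists_factor_zero {f g : ℂ → PN N} (hf : HolomorphicInto f Set.univ) {X : Set (PN N)} {c L : ℝ} (hc : 0 < c)
    (hg : g ∈ boundedDistortion X c L) (hper : DoublyPeriodic g) (hval : ∃ᶠ z in 𝓝[≠] (0 : ℂ), ∃ w, f z = g w) :
    ∃ φ : ℂ → ℂ, Differentiable ℂ φ ∧ ∀ z, f z = g (φ z) := by
  obtain ⟨F, hF⟩ := exists_isLift hf
  obtain ⟨-, G, hG, hGL⟩ := hg
  obtain ⟨ω₁, ω₂, hω, hp⟩ := hper
  have hF0 := hF.ne_zero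
  have hG0 := hG.ne_zero
  have hpos : ∀ w, 0 < fs (G w) (deriv G w) := fun w => hc.trans_le (hGL w).1
  have hpar := fun z w => par_iff hF hG z w
  obtain ⟨K, hK, hmem⟩ := exists_compact hω
  have hshift : ∀ (m n : ℤ) (z w : ℂ), Par F G z (w + (m * ω₁ + n * ω₂)) ↔ Par F G z w := by
    intro m n z w
    rw [← hpar, ← hpar, periodic_add hp m n w]
  have hGood : ∀ (m n : ℤ) (z w : ℂ), Good F G z w → Good F G z (w + (m * ω₁ + n * ω₂)) := by
    rintro m n z w ⟨ψ, h1, h2, h3⟩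
    refine ⟨fun y => ψ y + (m * ω₁ + n * ω₂), h1.add continuousAt_const, ?_, h3.mono fun y hy => (hshift m n y _).2 hy⟩
    show ψ z + (m * ω₁ + n * ω₂) = w + (m * ω₁ + n * ω₂)
    rw [h2]
  -- the start
  obtain ⟨a, ha⟩ : ∃ a, Good F G 0 a := by
    have h1 : ∃ᶠ z in 𝓝[≠] (0 : ℂ), ∃ w ∈ K, Par F G z w := by
      refine hval.mono ?_
      rintro z ⟨w, hw⟩
      obtain ⟨m, n, hmn⟩ := hmem w
      exact ⟨_, hmn, (hshift m n z w).2 ((hpar z w).1 hw)⟩
    obtain ⟨ns, hns, hns'⟩ := exists_seq_forall_of_frequently h1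
    choose ws hwK hwP using hns'
    obtain ⟨a, haK, φ, hφ, hlim⟩ := hK.tendsto_subseq hwK
    have hns0 : Tendsto ns atTop (𝓝 0) := hns.mono_right nhdsWithin_le_nhds
    have hpair : Tendsto (fun n => (ns (φ n), ws (φ n))) atTop (𝓝 ((0 : ℂ), a)) :=
      (hns0.comp hφ.tendsto_atTop).prodMk_nhds hlim
    have hP0 : Par F G 0 a := by
      have := (isClosed_par hF.1 hG.1).mem_of_tendsto hpair (Eventually.of_forall fun n => hwP (φ n))
      exact this
    obtain ⟨ψ, r, hr, hψ, hψ0, hu, hfr⟩ := exists_local hF.1 hF0 hG.1 hG0 (hpos a) hP0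
    have h2 : ∀ᶠ n in atTop, Par F G (ns (φ n)) (ψ (ns (φ n))) := by
      filter_upwards [hpair.eventually hu] with n hn
      have h3 := hn (hwP (φ n))
      rw [← h3]
      exact hwP (φ n)
    have h3 : Tendsto (fun n => ns (φ n)) atTop (𝓝[≠] 0) := hns.comp hφ.tendsto_atTop
    have h4 : ∃ᶠ z in 𝓝[≠] (0 : ℂ), Par F G z (ψ z) := h3.frequently h2.frequently
    refine ⟨a, ψ, (hψ 0 (mem_ball_self hr)).continuousAt, hψ0, ?_⟩
    filter_upwards [ball_mem_nhds (0 : ℂ) hr] with y hy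
    exact hfr 0 (mem_ball_self hr) h4 y hy
  obtain ⟨φ, hφ, hφP⟩ := exists_entire_of_radius hF.1 hF0 hG.1 hG0 hpos ha fun R => by
    obtain ⟨r, hr, h⟩ := exists_radius hF.1 hF0 hG.1 hG0 hpos ((isCompact_closedBall (0 : ℂ) R).prod hK)
    refine ⟨r, hr, fun z w hz hgd => ?_⟩
    obtain ⟨m, n, hmn⟩ := hmem w
    obtain ⟨ψ, h1, h2⟩ := h (z, w + (m * ω₁ + n * ω₂)) ⟨mem_closedBall_zero_iff.2 hz, hmn⟩ (hGood m n z w hgd)
    refine ⟨fun y => ψ y + (((-m : ℤ) : ℂ) * ω₁ + ((-n : ℤ) : ℂ) * ω₂), fun y hy => ⟨(h1 y hy).1.add analyticAt_const,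
      (hshift (-m) (-n) y _).2 (h1 y hy).2⟩, ?_⟩
    have h2' : ψ z = w + (m * ω₁ + n * ω₂) := h2
    show ψ z + _ = w
    rw [h2']
    push_cast
    ring
  exact ⟨φ, hφ, fun z => (hpar z _).2 (hφP z)⟩

/-- **Entire curves whose values are values of finitely many doubly periodic immersed curves.** -/
theorem exists_factor {T : Set (ℂ → PN N)} (hT : T.Finite) {X : Set (PN N)}
    (hTb : ∀ g ∈ T, ∃ c L : ℝ, 0 < c ∧ g ∈ boundedDistortion X c L) (hTp : ∀ g ∈ T, DoublyPeriodic g) {f : ℂ → PN N}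
    (hf : HolomorphicInto f Set.univ) (hval : ∀ z, ∃ g ∈ T, ∃ w, f z = g w) :
    ∃ g ∈ T, ∃ φ : ℂ → ℂ, Differentiable ℂ φ ∧ ∀ z, f z = g (φ z) := by
  obtain ⟨g, hg, hfr⟩ : ∃ g ∈ T, ∃ᶠ z in 𝓝[≠] (0 : ℂ), ∃ w, f z = g w := by
    by_contra hcon
    push Not at hcon
    have h1 : ∀ᶠ z in 𝓝[≠] (0 : ℂ), ∀ g ∈ T, ¬ ∃ w, f z = g w := by
      rw [Filter.eventually_all_finite hT]
      intro g hg
      refine (hcon g hg).mono fun z hz => ?_
      rintro ⟨w, hw⟩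
      exact hz w hw
    obtain ⟨z, hz⟩ := h1.exists
    obtain ⟨g, hg, hw⟩ := hval z
    exact hz g hg hw
  obtain ⟨c, L, hc, hgb⟩ := hTb g hg
  exact ⟨g, hg, exists_factor_zero hf hc hgb (hTp g hg) hfr⟩

end Pool.Agent.AD
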