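import Pool.Agent.AD.T.Defs
import Pool.Agent.AD.G.Defs
import Pool.Agent.H14.V.FourW

/-!
# AD T Null: null classes, ampleness of the Plücker line bundle
-/

open MvPolynomial
open Pool.Agent.H17 (PN)
open Pool.Agent.H17EF (projVar coneE)
open Pool.Agent.H22.W (PseudoLength)
open Pool.Agent.H14.V (IsNull)
open Pool.Agent.AD.G (BSec Generates)

noncomputable section

namespace Pool.Agent.AD

variable {N : ℕ}

/-- The Plücker line bundle on the Grassmann bundle of the planes in the tangent spaces of the smooth variety `X ⊆ ℙ^N` of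
`P` is ample (this is so if `⋀² Ω_X` is ample): for some `m ≥ 1` finitely many sections generate `S^(m,m) Ω_X (-1)`. -/
def PluckerAmple (P : Ideal (MvPolynomial (Fin (N + 1)) ℂ)) : Prop :=
  ∃ (m J : ℕ) (Ω : Fin J → BSec P m), 1 ≤ m ∧ Generates Ω

/-- The classes of curves which are null for a pseudo-length of nonpositive curvature, or tangent to the members of a
finite family of symmetric differentials, or in a fibre of a holomorphic map to a complex torus, on the variety of `P`. -/
inductive NullClass (P : Ideal (MvPolynomial (Fin (N + 1)) ℂ)) : Set (ℂ → PN N) → Prop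
  | length (ν : PseudoLength (coneE P)) : NullClass P {f | IsNull ν f}
  | differentials (k : ℕ) (m : Fin k → ℕ) (hm : ∀ j, 1 ≤ m j) (θ : ∀ j, SymDiff (coneE P) (m j)) :
      NullClass P {f | ∀ j, TangentTo (θ j) f}
  | torus (g : ℕ) (Λ : AddSubgroup (Fin g → ℂ)) (hΛ : DiscreteTopology Λ) (u : PN N → (Fin g → ℂ) ⧸ Λ)
      (hu : IsHolomorphicTorusMap (projVar P) Λ u) : NullClass P {f | ∀ z w, u (f z) = u (f w)}

end Pool.Agent.AD
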