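import Pool.Agent.H14.V.MainV
import Pool.Agent.AD.T.Null
import Pool.Agent.AD.T.InCurve

/-!
# AD T NCDefs: the four properties, finitely many curves
-/

open MvPolynomial
open Pool.Agent.H17 (PN VanishesAt ZariskiClosedIn HolomorphicInto puncturedDisc)
open Pool.Agent.H62.FC (Homog)
open Pool.Agent.H17LG.Variety (FunField IsLogGeneralType)
open Pool.Agent.H13.SM (conTan)
open Pool.Agent.H14.KB (KobayashiHyperbolicModulo)
open Pool.Agent.H13.OT (OrderTwo)
open Pool.Agent.H17EF (projVar)
open Pool.Agent.H14.V (boundedDistortion DoublyPeriodic)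
open Pool.Agent.H62.SA (OnBd)

noncomputable section

namespace Pool.Agent.AD.NC

variable {N s : ℕ}

/-- The closed subvariety of dimension `n` of `ℙ^N` given by the homogeneous prime ideal `P` is smooth: the tangent
space of its affine cone has dimension at most `n + 1` at every point different from `0`. -/
def IsSmooth (P : Ideal (MvPolynomial (Fin (N + 1)) ℂ)) (n : ℕ) : Prop :=
  ∀ x : Fin (N + 1) → ℂ, x ≠ 0 → (∀ Q ∈ P, eval x Q = 0) → Module.finrank ℂ (conTan P x) ≤ n + 1

/-- `X ∖ D`: the complement in the closed subvariety `X` of `ℙ^N` given by `P` of the hypersurfaces `{G i = 0}`. If there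
are no `G i`, this is `X`. -/
def complement (P : Ideal (MvPolynomial (Fin (N + 1)) ℂ)) (G : Fin s → MvPolynomial (Fin (N + 1)) ℂ) : Set (PN N) :=
  {x | x ∈ projVar P ∧ ∀ i, ¬ VanishesAt (G i) x}

/-- The complement in the closed subvariety of `ℙ^N` given by `P`, of dimension `k`, of the hypersurfaces `{G i = 0}` is of
log general type. If there are no `G i`: the closed subvariety is of general type. -/
def IsOfLogGeneralType (P : Ideal (MvPolynomial (Fin (N + 1)) ℂ)) [P.IsPrime] (G : Fin s → MvPolynomial (Fin (N + 1)) ℂ)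
    (k : ℕ) : Prop :=
  IsLogGeneralType (K := FunField P) (k := k) (OnBd P fun _ : Fin 1 => ∏ i, G i)

/-- The four properties of the Green–Griffiths–Lang conjecture for the complement `U` in the closed subvariety `X` of
`ℙ^N` given by `P` of the hypersurfaces `{G i = 0}`, with the exceptional set `Ξ`. -/
structure FourProperties (P : Ideal (MvPolynomial (Fin (N + 1)) ℂ)) [P.IsPrime] (G : Fin s → MvPolynomial (Fin (N + 1)) ℂ)
    (Ξ : Set (PN N)) : Prop where
  /-- the set `Ξ` is Zariski closed in `U` and different from `U` -/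
  properClosed : ZariskiClosedIn (complement P G) Ξ ∧ Ξ ≠ complement P G
  /-- `U` is of log general type -/
  generalType : ∀ w, 1 ≤ w → (∃ z : Fin w → FunField P, IsTranscendenceBasis ℂ z) → IsOfLogGeneralType P G w
  /-- every holomorphic map from the punctured disc to `U` which is not a map into `Ξ` extends to a holomorphic map from
  the disc to `ℙ^N` -/
  picard : ∀ f : ℂ → PN N, HolomorphicInto f puncturedDisc → (∀ z ∈ puncturedDisc, f z ∈ complement P G) →
    (∃ z ∈ puncturedDisc, f z ∉ Ξ) →
    ∃ g : ℂ → PN N, HolomorphicInto g (Metric.ball 0 1) ∧ ∀ z ∈ puncturedDisc, g z = f z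
  /-- every non-constant entire curve in `U` lies in `Ξ` -/
  brody : ∀ f : ℂ → PN N, HolomorphicInto f Set.univ → (∀ z, f z ∈ complement P G) → (∃ z w, f z ≠ f w) → ∀ z, f z ∈ Ξ
  /-- every closed subvariety of `U` of positive dimension which is not contained in `Ξ` is of log general type -/
  strongly : ∀ (Q : Ideal (MvPolynomial (Fin (N + 1)) ℂ)) [Q.IsPrime], Homog Q → P ≤ Q → ¬ complement Q G ⊆ Ξ →
    ∀ w, 1 ≤ w → (∃ z : Fin w → FunField Q, IsTranscendenceBasis ℂ z) → IsOfLogGeneralType Q G w

/-- `T` is a finite set of doubly periodic entire curves `g` in `U` with `0 < c ≤ |g'|`, each of them in an algebraic curve,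
and it is empty if `U` is not `X`; every non-constant entire curve `f` in `U` is `g ∘ φ` with `g` in `T` and `φ` entire, and `φ` is
affine if `T_f(r) = O(r²)`; `U` has the four properties with the exceptional set `Ξ`, the union of the images of the curves
in `T`; if `U = X`, every projective variety birational to `X` has the four properties with some exceptional set; and
`|Q(h(0))|^M |h'(0)| ≤ C` for all holomorphic `h : 𝔻 → U`, for a form `Q` not zero on `U`, and for `Q = 1` if `U = X` and `T`
is empty. -/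
structure FinitelyManyCurves (P : Ideal (MvPolynomial (Fin (N + 1)) ℂ)) [P.IsPrime]
    (G : Fin s → MvPolynomial (Fin (N + 1)) ℂ) (T : Set (ℂ → PN N)) : Prop where
  finite : T.Finite
  empty : s ≠ 0 → T = ∅
  elliptic : ∀ g ∈ T, (∃ c L : ℝ, 0 < c ∧ g ∈ boundedDistortion (complement P G) c L) ∧ DoublyPeriodic g ∧ InCurve P g
  curves : ∀ f : ℂ → PN N, HolomorphicInto f Set.univ → (∀ z, f z ∈ complement P G) → (∃ z w, f z ≠ f w) →
    ∃ g ∈ T, ∃ φ : ℂ → ℂ, Differentiable ℂ φ ∧ (OrderTwo f → ∃ a b : ℂ, ∀ z, φ z = a * z + b) ∧ ∀ z, f z = g (φ z)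
  four : FourProperties P G (⋃ g ∈ T, Set.range g)
  birational : s = 0 → ∀ (M : ℕ) (P' : Ideal (MvPolynomial (Fin (M + 1)) ℂ)) [P'.IsPrime], Homog P' →
    Nonempty (FunField P' ≃ₐ[ℂ] FunField P) → ∃ Ξ' : Set (PN M), FourProperties P' (Fin.elim0 : Fin 0 → _) Ξ'
  kobayashi : ∃ (Q : MvPolynomial (Fin (N + 1)) ℂ) (D : ℕ), Q.IsHomogeneous D ∧
    (∃ x ∈ complement P G, ¬ VanishesAt Q x) ∧ KobayashiHyperbolicModulo (complement P G) Q D
  hyperbolic : s = 0 → T = ∅ → KobayashiHyperbolicModulo (complement P G) 1 0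

/-- For every `i`, `f` lies in `{G i = 0}` or avoids it. -/
def InOrOff (G : Fin s → MvPolynomial (Fin (N + 1)) ℂ) (f : ℂ → PN N) : Prop :=
  ∀ i, (∀ z, VanishesAt (G i) (f z)) ∨ ∀ z, ¬ VanishesAt (G i) (f z)

end Pool.Agent.AD.NC
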