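import Pool.Agent.H14.V.Concl
import Pool.Agent.H7.Bir.Main
import Pool.Agent.H22.WB.Uni
import Pool.Agent.AD.T.NCDefs
import Pool.Agent.AD.T.NullB
import Pool.Agent.AD.T.CurvesAll
import Pool.Agent.AD.P.Final

/-!
# AD T NCProof: the main theorem
-/

open MvPolynomial
open Pool.Agent.H17 (PN VanishesAt ZariskiClosedIn HolomorphicInto puncturedDisc)
open Pool.Agent.H62.FC (Homog)
open Pool.Agent.H17LG.Variety (FunField IsLogGeneralType)
open Pool.Agent.H13.SM (conTan)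
open Pool.Agent.H14.KB (KobayashiHyperbolicModulo)
open Pool.Agent.H13.OT (OrderTwo)
open Pool.Agent.H17EF (projVar zariskiClosure coneE GT)
open Pool.Agent.H22.W (PseudoLength)
open Pool.Agent.H14.V (boundedDistortion brodyCurves DoublyPeriodic Degenerate IsNull IsMetric)
open Pool.Agent.H62.SA (OnBd locVar)
open Pool.Agent.AD (IsHolomorphicTorusMap NoEllipticCurve PluckerAmple NullClass InCurve)

noncomputable section

namespace Pool.Agent.AD.NC

variable {N s : ℕ}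

theorem complement_eq (P : Ideal (MvPolynomial (Fin (N + 1)) ℂ)) (G : Fin s → MvPolynomial (Fin (N + 1)) ℂ) :
    complement P G = locVar P fun _ : Fin 1 => ∏ i, G i :=
  Set.ext fun _ => Pool.Agent.H22.WL.mem_locVar_prod.symm

theorem complement_zero (P : Ideal (MvPolynomial (Fin (N + 1)) ℂ)) (G : Fin 0 → MvPolynomial (Fin (N + 1)) ℂ) :
    complement P G = projVar P :=
  Set.ext fun _ => ⟨fun h => h.1, fun h => ⟨h, fun i => i.elim0⟩⟩

theorem isOfLogGeneralType_zero (P : Ideal (MvPolynomial (Fin (N + 1)) ℂ)) [P.IsPrime] (G : Fin 0 → MvPolynomial (Fin (N + 1)) ℂ)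
    (k : ℕ) : IsOfLogGeneralType P G k ↔ IsLogGeneralType (K := FunField P) (k := k) fun _ => False := by
  unfold IsOfLogGeneralType
  rw [Finset.univ_eq_empty, Finset.prod_empty, Pool.Agent.H17EF.onBd_one]

/-- the closed case, from the properties of a finite set of curves -/
theorem finitely_of {P : Ideal (MvPolynomial (Fin (N + 1)) ℂ)} [P.IsPrime] {G : Fin 0 → MvPolynomial (Fin (N + 1)) ℂ}
    {n : ℕ} (hP : Homog P) (hn : 2 ≤ n) (hdim : ∃ z : Fin n → FunField P, IsTranscendenceBasis ℂ z) (hsmooth : IsSmooth P n)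
    (ν : PseudoLength (coneE P)) (hν : ∀ f ∈ brodyCurves (projVar P) 1, IsNull ν f → ∀ z w, f z = f w)
    {T : Set (ℂ → PN N)} (h1 : T.Finite)
    (h2 : ∀ g ∈ T, HolomorphicInto g Set.univ ∧ (∀ z, g z ∈ projVar P) ∧ (∃ z w, g z ≠ g w) ∧ OrderTwo g ∧
        DoublyPeriodic g ∧ Degenerate P g)
    (h3 : ∀ f : ℂ → PN N, HolomorphicInto f Set.univ → OrderTwo f → (∀ z, f z ∈ projVar P) → (∃ z w, f z ≠ f w) →
        ∃ g ∈ T, ∃ a b : ℂ, a ≠ 0 ∧ ∀ z, f z = g (a * z + b))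
    (h4 : ZariskiClosedIn (projVar P) (⋃ g ∈ T, zariskiClosure g) ∧ (⋃ g ∈ T, zariskiClosure g) ≠ projVar P)
    (h5 : ∀ f : ℂ → PN N, HolomorphicInto f Set.univ → (∀ z, f z ∈ projVar P) → (∃ z w, f z ≠ f w) →
        ∀ z, f z ∈ (⋃ g ∈ T, zariskiClosure g))
    (h6 : ∀ f : ℂ → PN N, HolomorphicInto f puncturedDisc → (∀ z ∈ puncturedDisc, f z ∈ projVar P) →
        (∃ z ∈ puncturedDisc, f z ∉ (⋃ g ∈ T, zariskiClosure g)) →
        ∃ g : ℂ → PN N, HolomorphicInto g (Metric.ball 0 1) ∧ ∀ z ∈ puncturedDisc, g z = f z)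
    (h7 : ∀ (Q : Ideal (MvPolynomial (Fin (N + 1)) ℂ)) [Q.IsPrime], Homog Q → P ≤ Q →
        ¬ projVar Q ⊆ (⋃ g ∈ T, zariskiClosure g) →
        ∀ k, 1 ≤ k → (∃ z : Fin k → FunField Q, IsTranscendenceBasis ℂ z) → GT Q k)
    (h8 : ∃ (Q : MvPolynomial (Fin (N + 1)) ℂ) (D : ℕ), Q.IsHomogeneous D ∧ (∃ x ∈ projVar P, ¬ VanishesAt Q x) ∧
        KobayashiHyperbolicModulo (projVar P) Q D)
    (hG : ∀ w, 1 ≤ w → (∃ z : Fin w → FunField P, IsTranscendenceBasis ℂ z) →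
      IsLogGeneralType (K := FunField P) (k := w) fun _ => False) : FinitelyManyCurves P G T := by
  obtain ⟨z, hz⟩ := hdim
  obtain ⟨c, L, hc, hscale⟩ := Pool.Agent.AD.exists_scale_down hP hz hsmooth ν hν
  obtain ⟨heq, ha, hb⟩ := Pool.Agent.AD.curves_all hP hc hscale h1 h2 h3 h5
  rw [heq] at h4 h5 h6 h7
  refine ⟨h1, fun h => absurd rfl h, ?_, ?_, ⟨?_, ?_, ?_, ?_, ?_⟩, ?_, ?_, ?_⟩
  · rw [complement_zero]
    exact ha
  · rw [complement_zero]
    exact hb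
  · rw [complement_zero]
    exact h4
  · intro w hw hz'
    rw [isOfLogGeneralType_zero]
    exact hG w hw hz'
  · rw [complement_zero]
    exact h6
  · rw [complement_zero]
    exact h5
  · intro Q _ hQ hPQ hsub w hw hz'
    rw [isOfLogGeneralType_zero]
    rw [complement_zero] at hsub
    exact h7 Q hQ hPQ hsub w hw hz'
  · intro _ M P' _ hP' ⟨e⟩
    obtain ⟨k, rfl⟩ : ∃ k, n = k + 1 := ⟨n - 1, by omega⟩
    obtain ⟨Ξ', h⟩ := Pool.Agent.H7.Bir.bir_four hP ⟨k, z, hz⟩ hP' e (Ξ := ⋃ g ∈ T, Set.range g) ⟨h4.1, h4.2, hG, h6, h5, h7⟩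
    refine ⟨Ξ', ?_, ?_, ?_, ?_, ?_⟩
    · rw [complement_zero]
      exact ⟨h.closed, h.proper⟩
    · intro w hw hz'
      rw [isOfLogGeneralType_zero]
      exact h.generalType w hw hz'
    · rw [complement_zero]
      exact h.picard
    · rw [complement_zero]
      exact h.brody
    · intro Q _ hQ hPQ hsub w hw hz'
      rw [isOfLogGeneralType_zero]
      rw [complement_zero] at hsub
      exact h.strongly Q hQ hPQ hsub w hw hz'
  · rw [complement_zero]
    exact h8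
  · rintro - rfl
    rw [complement_zero]
    rw [← heq] at h5
    exact Pool.Agent.AD.kobayashi_of_empty hP h5

/-- the closed case, surfaces -/
theorem exists_closed {P : Ideal (MvPolynomial (Fin (N + 1)) ℂ)} [P.IsPrime] {G : Fin 0 → MvPolynomial (Fin (N + 1)) ℂ}
    (hP : Homog P) (hdim : ∃ z : Fin 2 → FunField P, IsTranscendenceBasis ℂ z) (hsmooth : IsSmooth P 2)
    (hgt : IsOfLogGeneralType P G 2) (ν : PseudoLength (coneE P))
    (hν : ∀ f ∈ brodyCurves (projVar P) 1, IsNull ν f → ∀ z w, f z = f w) :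
    ∃ T : Set (ℂ → PN N), FinitelyManyCurves P G T := by
  rw [isOfLogGeneralType_zero] at hgt
  obtain ⟨z, hz⟩ := hdim
  obtain ⟨c, L, hc, hscale⟩ := Pool.Agent.H14.V.partC_w hP hz hsmooth ν hν
  obtain ⟨T, h1, h2, h3, h4, h5, h6, h7, h8⟩ := Pool.Agent.H14.V.conclusion hP hz hsmooth hgt hc hscale
  refine ⟨T, finitely_of hP le_rfl ⟨z, hz⟩ hsmooth ν hν h1 h2 h3 h4 h5 h6 h7 h8 ?_⟩
  intro w _ hw
  obtain rfl := Pool.Agent.H17EF.two_of_basis ⟨z, hz⟩ hw
  exact hgt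

/-- the closed case in all dimensions -/
theorem exists_ample {P : Ideal (MvPolynomial (Fin (N + 1)) ℂ)} [P.IsPrime] {G : Fin 0 → MvPolynomial (Fin (N + 1)) ℂ}
    {n : ℕ} (hP : Homog P) (hn : 2 ≤ n) (hdim : ∃ z : Fin n → FunField P, IsTranscendenceBasis ℂ z) (hsmooth : IsSmooth P n)
    (hample : PluckerAmple P) (ν : PseudoLength (coneE P))
    (hν : ∀ f ∈ brodyCurves (projVar P) 1, IsNull ν f → ∀ z w, f z = f w) :
    ∃ T : Set (ℂ → PN N), FinitelyManyCurves P G T := by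
  obtain ⟨z, hz⟩ := hdim
  obtain ⟨m, J, Ω, hm, hΩ⟩ := hample
  obtain ⟨T, h1, h2, h3, h4, h5, h6, h7, h8, hG, -⟩ := Pool.Agent.AD.P.conclusion hn hP hz hsmooth hm hΩ ν hν
  exact ⟨T, finitely_of hP hn ⟨z, hz⟩ hsmooth ν hν h1 h2 h3 h4 h5 h6 h7 h8 hG⟩

/-- constant curves are null -/
theorem null_or_inCurve {P : Ideal (MvPolynomial (Fin (N + 1)) ℂ)} (hP : Homog P) (ν : PseudoLength (coneE P)) {L : ℝ}
    {f : ℂ → PN N} (hf : f ∈ brodyCurves (projVar P) L) (h : IsNull ν f ∨ (DoublyPeriodic f ∧ Degenerate P f)) :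
    IsNull ν f ∨ (DoublyPeriodic f ∧ InCurve P f) := by
  rcases h with h | ⟨h, -⟩
  · exact Or.inl h
  · obtain ⟨hfX, F, hF, hFL⟩ := hf
    by_cases hne : ∃ z w, f z ≠ f w
    · exact Or.inr ⟨h, Pool.Agent.AD.inCurve_of hP hF.holomorphicInto hfX h hne⟩
    · left
      push Not at hne
      refine ⟨fun _ => F 0, ⟨differentiable_const _, fun z => ?_⟩, fun z => ?_⟩
      · obtain ⟨h1, h2⟩ := hF.2 0
        exact ⟨h1, by rw [hne z 0, h2]⟩
      · have hx : F 0 ∈ coneE P := (hF.mem_iff hP 0).1 (hfX 0)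
        have ht := Pool.Agent.H22.W.tan_entire (X := coneE P) (F := fun _ => F 0) (differentiable_const _) (fun _ => hx) 0
        have h1 := ν.smul _ _ ht 0
        rw [zero_smul, norm_zero, zero_mul] at h1
        rw [deriv_const]
        exact h1

/-- curves with bounded distortion lie in algebraic curves -/
theorem inCurve_of_bounded {P : Ideal (MvPolynomial (Fin (N + 1)) ℂ)} (hP : Homog P) {c L : ℝ} (hc : 0 < c)
    {f : ℂ → PN N} (hf : f ∈ boundedDistortion (projVar P) c L) (h : DoublyPeriodic f) : InCurve P f := by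
  obtain ⟨hfX, F, hF, hFb⟩ := hf
  exact Pool.Agent.AD.inCurve_of hP hF.holomorphicInto hfX h (Pool.Agent.H14.V.nonconstant_of hF hc fun z => (hFb z).1)

/-- the open case -/
theorem exists_open {P : Ideal (MvPolynomial (Fin (N + 1)) ℂ)} [P.IsPrime] {G : Fin s → MvPolynomial (Fin (N + 1)) ℂ}
    {d : Fin s → ℕ} (hP : Homog P) (hdim : ∃ z : Fin 2 → FunField P, IsTranscendenceBasis ℂ z) (hsmooth : IsSmooth P 2)
    (hG : ∀ i, (G i).IsHomogeneous (d i)) (hd : ∑ i, d i ≠ 0) (hs : s ≠ 0) (hGP : ∀ i, G i ∉ P)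
    (hgt : IsOfLogGeneralType P G 2) (n : PseudoLength (coneE P))
    (hn : ∀ f ∈ brodyCurves (projVar P) 1, InOrOff G f → IsNull n f → ∀ z w, f z = f w) :
    ∃ T : Set (ℂ → PN N), FinitelyManyCurves P G T := by
  obtain ⟨z, hz⟩ := hdim
  have hn' : Pool.Agent.H22.WL.NoCurves n G ∅ := fun f hf hfG hor => hn f hf hfG
    (hor.resolve_left fun ⟨i, hi, _⟩ => absurd hi (Finset.notMem_empty i))
  obtain ⟨h1, h2, h3, h4, h5⟩ := Pool.Agent.H22.WB.four_log hP hz hsmooth hG hd hGP hgt hn'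
  rw [← complement_eq P G] at h1 h2 h3 h5
  have hunion : (⋃ g ∈ (∅ : Set (ℂ → PN N)), Set.range g) = ∅ := by simp
  refine ⟨∅, Set.finite_empty, fun _ => rfl, fun g hg => absurd hg (Set.notMem_empty g), ?_, ?_, fun h => absurd h hs, h5,
    fun h => absurd h hs⟩
  · intro f hf hfU ⟨z, w, hzw⟩
    exact absurd (h3 f hf hfU z w) hzw
  · rw [hunion]
    refine ⟨⟨?_, h1⟩, ?_, fun f hf hfU _ => h2 f hf hfU, fun f hf hfU ⟨z, w, hzw⟩ => absurd (h3 f hf hfU z w) hzw, ?_⟩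
    · refine ⟨{1}, fun R hR => ⟨0, by rw [Set.mem_singleton_iff.1 hR]; exact isHomogeneous_one _ _⟩, ?_⟩
      ext y
      constructor
      · exact fun h1 => absurd h1 (Set.notMem_empty y)
      · rintro ⟨-, h1⟩
        have h2 := h1 1 rfl
        unfold VanishesAt at h2
        rw [map_one] at h2
        exact absurd h2 one_ne_zero
    · intro w _ hw
      obtain rfl := Pool.Agent.H17EF.two_of_basis ⟨z, hz⟩ hw
      exact hgt
    · intro Q _ hQ hPQ hsub w hw hz'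
      rw [complement_eq Q G] at hsub
      exact h4 Q hQ hPQ (Set.nonempty_iff_ne_empty.2 fun h => hsub h.le) w hw hz'

/-- **Main theorem.** -/
theorem main {N s n : ℕ} (P : Ideal (MvPolynomial (Fin (N + 1)) ℂ)) [P.IsPrime] (hP : Homog P) (hn : 2 ≤ n)
    (hdim : ∃ z : Fin n → FunField P, IsTranscendenceBasis ℂ z) (hsmooth : IsSmooth P n)
    (G : Fin s → MvPolynomial (Fin (N + 1)) ℂ) (d : Fin s → ℕ) (hG : ∀ i, (G i).IsHomogeneous (d i)) (hd : ∀ i, 1 ≤ d i)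
    (hGP : ∀ i, G i ∉ P) (h : (n = 2 ∧ IsOfLogGeneralType P G 2) ∨ (s = 0 ∧ PluckerAmple P)) :
    (∀ ν : PseudoLength (coneE P), IsMetric ν → ∃ T : Set (ℂ → PN N), FinitelyManyCurves P G T) ∧
    (∀ A : Set (ℂ → PN N), NullClass P A →
      ((∀ f ∈ brodyCurves (projVar P) 1, InOrOff G f → f ∈ A → ∀ z w, f z = f w) →
        ∃ T : Set (ℂ → PN N), FinitelyManyCurves P G T) ∧
      ((∀ f ∈ brodyCurves (projVar P) 1, InOrOff G f → ((∃ i, ∀ z, VanishesAt (G i) (f z)) ∨ f ∈ A) → ∀ z w, f z = f w) →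
        s ≠ 0 → KobayashiHyperbolicModulo (complement P G) 1 0) ∧
      ∀ (L : ℝ), ∀ f ∈ brodyCurves (complement P G) L, f ∈ A ∨ (s = 0 ∧ DoublyPeriodic f ∧ InCurve P f)) ∧
    (∀ (g : ℕ) (Λ : AddSubgroup (Fin g → ℂ)), DiscreteTopology Λ → NoEllipticCurve Λ → ∀ u : PN N → (Fin g → ℂ) ⧸ Λ,
      IsHolomorphicTorusMap (projVar P) Λ u → (∀ f ∈ brodyCurves (projVar P) 1, (∀ z w, u (f z) = u (f w)) → ∀ z w, f z = f w) →
        s = 0 → KobayashiHyperbolicModulo (complement P G) 1 0) ∧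
    ∀ c L : ℝ, 0 < c →
      (∀ f ∈ boundedDistortion (complement P G) c L, s = 0 ∧ DoublyPeriodic f ∧ InCurve P f) ∧
      ∃ T : Set (ℂ → PN N), T.Finite ∧ T ⊆ boundedDistortion (complement P G) c L ∧
        ∀ f ∈ boundedDistortion (complement P G) c L, ∃ g ∈ T, ∃ a b : ℂ, a ≠ 0 ∧ ∀ z, f z = g (a * z + b) := by
  obtain ⟨z, hz⟩ := hdim
  rcases Nat.eq_zero_or_pos s with rfl | hs
  · -- the closed case
    have hio : ∀ f : ℂ → PN N, InOrOff G f := fun f i => i.elim0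
    have key : (∀ ν : PseudoLength (coneE P), (∀ f ∈ brodyCurves (projVar P) 1, IsNull ν f → ∀ z w, f z = f w) →
          ∃ T : Set (ℂ → PN N), FinitelyManyCurves P G T) ∧
        (∀ (ν : PseudoLength (coneE P)) (L : ℝ), ∀ f ∈ brodyCurves (projVar P) L, IsNull ν f ∨ (DoublyPeriodic f ∧ Degenerate P f)) ∧
        (∀ c L : ℝ, 0 < c → (∀ f ∈ boundedDistortion (projVar P) c L, DoublyPeriodic f ∧ Degenerate P f) ∧
          ∃ T : Set (ℂ → PN N), T.Finite ∧ T ⊆ boundedDistortion (projVar P) c L ∧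
            ∀ f ∈ boundedDistortion (projVar P) c L, ∃ g ∈ T, ∃ a b : ℂ, a ≠ 0 ∧ ∀ z, f z = g (a * z + b)) := by
      rcases h with ⟨rfl, hgt⟩ | ⟨-, hample⟩
      · have hgt0 := (isOfLogGeneralType_zero P G 2).1 hgt
        exact ⟨fun ν hν => exists_closed hP ⟨z, hz⟩ hsmooth hgt ν hν,
          fun ν L f hf => Pool.Agent.H14.V.partB_w hP hz hsmooth hgt0 ν hf,
          fun c L hc => Pool.Agent.H14.V.partA hP hz hsmooth hgt0 hc L⟩
      · exact ⟨fun ν hν => exists_ample hP hn ⟨z, hz⟩ hsmooth hample ν hν,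
          fun ν L f hf => Pool.Agent.AD.brody_or hn hP hz hsmooth (Pool.Agent.AD.bd_ample hP hz hsmooth hample) ν hf,
          fun c L hc => Pool.Agent.AD.partA hn hP hz (Pool.Agent.AD.bd_ample hP hz hsmooth hample c L hc)⟩
    obtain ⟨k1, k2, k3⟩ := key
    rw [complement_zero]
    refine ⟨fun ν hν => k1 ν fun f hf hnull => Pool.Agent.H14.V.const_of_metric hP hν hf.1 hnull, fun A hA => ?_,
      fun g Λ hΛ hell u hu hconst _ => ?_, fun c L hc => ?_⟩
    · obtain ⟨ν, hν⟩ := Pool.Agent.AD.exists_length hP hz hsmooth hA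
      exact ⟨fun h => k1 ν fun f hf hnull => h f hf (hio f) (hν f hf.1 hnull), fun _ h => absurd rfl h,
        fun L f hf => (null_or_inCurve hP ν hf (k2 ν L f hf)).imp (hν f hf.1) fun h => ⟨rfl, h⟩⟩
    · exact Pool.Agent.AD.kobayashi_of_torus hP hz hsmooth (fun ν => k2 ν 1) hell hu hconst
    · obtain ⟨h1, h2⟩ := k3 c L hc
      exact ⟨fun f hf => ⟨rfl, (h1 f hf).1, inCurve_of_bounded hP hc hf (h1 f hf).1⟩, h2⟩
  · -- the open case
    have hs0 : s ≠ 0 := hs.ne'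
    obtain ⟨rfl, hgt⟩ := h.resolve_right fun h => hs0 h.1
    have hd0 : ∑ i, d i ≠ 0 := by
      intro h0
      have h1 := (Finset.sum_eq_zero_iff.1 h0) ⟨0, hs⟩ (Finset.mem_univ _)
      have h2 := hd ⟨0, hs⟩
      omega
    have hno : ∀ c L : ℝ, 0 < c → ∀ f ∈ boundedDistortion (complement P G) c L, False := by
      intro c L hc f hf
      rw [complement_eq] at hf
      exact Pool.Agent.H22.WB.no_boundedDistortion hP hz hsmooth hG hd0 hGP hgt hc hf
    have hnull : ∀ (ν : PseudoLength (coneE P)) (L : ℝ), ∀ f ∈ brodyCurves (complement P G) L, IsNull ν f := by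
      intro ν L f hf
      rw [complement_eq] at hf
      exact Pool.Agent.H22.WB.brody_null hP hz hsmooth hG hd0 hGP hgt ν hf
    refine ⟨fun ν hν => ?_, fun A hA => ?_, fun _ _ _ _ _ _ _ h => absurd h hs0,
      fun c L hc => ⟨fun f hf => (hno c L hc f hf).elim, ∅, Set.finite_empty, Set.empty_subset _, fun f hf => (hno c L hc f hf).elim⟩⟩
    · exact exists_open hP ⟨z, hz⟩ hsmooth hG hd0 hs0 hGP hgt ν fun f hf _ h => Pool.Agent.H14.V.const_of_metric hP hν hf.1 h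
    · obtain ⟨ν, hν⟩ := Pool.Agent.AD.exists_length hP hz hsmooth hA
      refine ⟨fun h => exists_open hP ⟨z, hz⟩ hsmooth hG hd0 hs0 hGP hgt ν fun f hf hfG hnull => h f hf hfG (hν f hf.1 hnull),
        fun h _ => ?_, fun L f hf => Or.inl (hν f (fun z => (hf.1 z).1) (hnull ν L f hf))⟩
      rw [complement_eq]
      exact Pool.Agent.H22.WL.kobayashi_complement hP hz hsmooth hG hd0 (n := ν) fun f hf hfG hor =>
        h f hf hfG (hor.imp (fun ⟨i, _, h⟩ => ⟨i, h⟩) fun h => hν f hf.1 h)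

end Pool.Agent.AD.NC
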