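import Pool.Agent.AD.T.Torus
import Pool.Agent.AD.Cone

/-!
# AD T Proj: pseudo-lengths from holomorphic maps to tori and from symmetric differentials, on projective manifolds
-/

set_option autoImplicit false

open Topology Filter Metric MvPolynomial

noncomputable section

namespace Pool.Agent.AD

open Pool.Agent.H36.BP (EN fs wd)
open Pool.Agent.H14.PP (IsCone Tan CurveAt)
open Pool.Agent.H22.W (PseudoLength)
open Pool.Agent.H17 (PN HolomorphicInto)
open Pool.Agent.H62.FC (Homog)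
open Pool.Agent.H17EF (projVar coneE LE mk_mem_projVar mem_coneE)
open Pool.Agent.H14.V (IsLift brodyCurves IsNull)

variable {N g : ℕ} {P : Ideal (MvPolynomial (Fin (N + 1)) ℂ)}

open Classical in
/-- the map to the torus as a function on the cone -/
def uV (Λ : AddSubgroup (Fin g → ℂ)) (u : PN N → (Fin g → ℂ) ⧸ Λ) (y : EN N) : Fin g → ℂ :=
  if h : (LE N).symm y ≠ 0 then Quotient.out (u (Projectivization.mk ℂ ((LE N).symm y) h)) else 0

theorem uV_eq (Λ : AddSubgroup (Fin g → ℂ)) (u : PN N → (Fin g → ℂ) ⧸ Λ) {y : EN N} (h : (LE N).symm y ≠ 0) :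
    ((uV Λ u y : Fin g → ℂ) : (Fin g → ℂ) ⧸ Λ) = u (Projectivization.mk ℂ ((LE N).symm y) h) := by
  unfold uV
  rw [dif_pos h]
  exact Quotient.out_eq _

theorem sub_mem_iff {Λ : AddSubgroup (Fin g → ℂ)} {a b : Fin g → ℂ} :
    a - b ∈ Λ ↔ ((a : Fin g → ℂ) : (Fin g → ℂ) ⧸ Λ) = (b : (Fin g → ℂ) ⧸ Λ) := by
  rw [QuotientAddGroup.eq, ← neg_mem_iff]
  constructor
  · intro h
    convert h using 1
    abel
  · intro h
    convert h using 1
    abel

theorem torusMapV (hP : Homog P) {Λ : AddSubgroup (Fin g → ℂ)} {u : PN N → (Fin g → ℂ) ⧸ Λ}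
    (hu : IsHolomorphicTorusMap (projVar P) Λ u) : TorusMapV (coneE P) Λ (uV Λ u) := by
  constructor
  · intro x hx c hc
    have h1 : (LE N).symm x ≠ 0 := hx.1
    have h2 : (LE N).symm (c • x) ≠ 0 := by
      rw [map_smul]
      exact smul_ne_zero hc h1
    rw [sub_mem_iff, uV_eq Λ u h1, uV_eq Λ u h2]
    congr 1
    rw [Projectivization.mk_eq_mk_iff']
    exact ⟨c, (map_smul _ _ _).symm⟩
  · intro x hx
    obtain ⟨h1, h2⟩ := (mem_coneE hP).1 hx
    obtain ⟨v, hv, hv'⟩ := hu _ h1 h2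
    refine ⟨fun y => v ((LE N).symm y), ?_, ?_⟩
    · exact AnalyticAt.comp (g := v) (f := fun y : EN N => (LE N).symm y) hv (((LE N).symm : EN N →L[ℂ] (Fin (N + 1) → ℂ)).analyticAt x)
    · have h3 : Tendsto (fun y : EN N => (LE N).symm y) (𝓝 x) (𝓝 ((LE N).symm x)) := (LE N).symm.continuous.tendsto x
      filter_upwards [h3.eventually hv'] with y hy hyX
      obtain ⟨h4, h5⟩ := (mem_coneE hP).1 hyX
      rw [sub_mem_iff, uV_eq Λ u h4]
      exact hy h4 h5

theorem discreteSub_of (Λ : AddSubgroup (Fin g → ℂ)) [DiscreteTopology Λ] : DiscreteSub Λ := by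
  have h1 : ({0} : Set Λ) ∈ 𝓝 (0 : Λ) := by
    rw [nhds_discrete]
    exact Set.mem_singleton 0
  obtain ⟨δ, hδ, h⟩ := Metric.mem_nhds_iff.1 h1
  refine ⟨δ, hδ, fun l hl hn => ?_⟩
  have h2 : (⟨l, hl⟩ : Λ) ∈ ball (0 : Λ) δ := by
    rw [mem_ball, Subtype.dist_eq]
    simpa [dist_eq_norm] using hn
  have h3 := h h2
  rw [Set.mem_singleton_iff] at h3
  exact congrArg Subtype.val h3

/-- **The pseudo-length of a holomorphic map to a torus.** -/
theorem exists_torusLength {d : ℕ} (hP : Homog P) (hch : Charts d (coneE P)) {Λ : AddSubgroup (Fin g → ℂ)} [DiscreteTopology Λ]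
    {u : PN N → (Fin g → ℂ) ⧸ Λ} (hu : IsHolomorphicTorusMap (projVar P) Λ u) :
    ∃ n : PseudoLength (coneE P), ∀ f : ℂ → PN N, (∀ z, f z ∈ projVar P) → IsNull n f → ∀ z w, u (f z) = u (f w) := by
  have hX := isCone_coneE hP
  have hΛ := discreteSub_of Λ
  have hT := torusMapV hP hu
  refine ⟨symLength hX hch (m := fun _ : Fin g => 1) (fun _ => le_rfl) (fun j => hT.symDiff hΛ hX j), fun f hfX hnull z w => ?_⟩
  obtain ⟨F, hF, h0⟩ := hnull
  have hFX : ∀ z, F z ∈ coneE P := fun z => (hF.mem_iff hP z).1 (hfX z)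
  have h1 : ∀ z, hT.du (F z) (deriv F z) = 0 := fun z => by
    funext j
    exact (symLength_zero hX hch (fun _ => le_rfl) (fun j => hT.symDiff hΛ hX j)).1 (h0 z) j
  have h2 := hT.fibre_of_du hΛ hF.1 hFX h1 z w
  have hne : ∀ z, (LE N).symm (F z) ≠ 0 := fun z => (hFX z).1
  rw [sub_mem_iff, uV_eq Λ u (hne z), uV_eq Λ u (hne w)] at h2
  obtain ⟨h3, h3'⟩ := hF.2 z
  obtain ⟨h4, h4'⟩ := hF.2 w
  rw [h3', h4']
  exact h2

/-- **The pseudo-length of a family of symmetric differentials.** -/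
theorem exists_symLength {d : ℕ} (hP : Homog P) (hch : Charts d (coneE P)) {k : ℕ} {m : Fin k → ℕ} (hm : ∀ j, 1 ≤ m j)
    (θ : ∀ j, SymDiff (coneE P) (m j)) :
    ∃ n : PseudoLength (coneE P), ∀ f : ℂ → PN N, IsNull n f → ∀ j, TangentTo (θ j) f := by
  have hX := isCone_coneE hP
  refine ⟨symLength hX hch hm θ, fun f hnull j => ?_⟩
  obtain ⟨F, hF, h0⟩ := hnull
  exact ⟨F, hF, fun z => (symLength_zero hX hch hm θ).1 (h0 z) j⟩

end Pool.Agent.AD
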