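import Pool.Agent.H13.CV.MerP

/-!
# AD T RangeA: homomorphisms into the field of meromorphic functions, doubly periodic meromorphic functions without poles
-/

set_option autoImplicit false

open Topology Filter MvPolynomial
open Pool.Agent.H17 (EntFun)
open Pool.Agent.H13.CV (Mer toM ordM ordM_div)

noncomputable section

namespace Pool.Agent.AD

/-- A homomorphism of a field which is generated by the `y i`. -/
theorem exists_hom_gen {K M ι : Type} [Field K] [Algebra ℂ K] [Field M] [Algebra ℂ M] (y : ι → K)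
    (hy : IntermediateField.adjoin ℂ (Set.range y) = ⊤) (s : ι → M)
    (h : ∀ p : MvPolynomial ι ℂ, aeval y p = 0 ↔ aeval s p = 0) : ∃ φ : K →ₐ[ℂ] M, ∀ i, φ (y i) = s i := by
  classical
  obtain ⟨A, hA⟩ : ∃ A : Subalgebra ℂ K, A = (aeval y : MvPolynomial ι ℂ →ₐ[ℂ] K).range := ⟨_, rfl⟩
  have hmem : ∀ p : MvPolynomial ι ℂ, aeval y p ∈ A := fun p => by rw [hA]; exact ⟨p, rfl⟩
  have hfr : IsFractionRing A K := by
    have hsurj : ∀ z : K, ∃ a b : A, z = algebraMap A K a / algebraMap A K b := by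
      intro z
      have hz : z ∈ IntermediateField.adjoin ℂ (Set.range y) := by
        rw [hy]
        exact IntermediateField.mem_top
      obtain ⟨r, t, hrt⟩ := (IntermediateField.mem_adjoin_range_iff ℂ y z).1 hz
      exact ⟨⟨_, hmem r⟩, ⟨_, hmem t⟩, hrt⟩
    exact IsFractionRing.of_field A K hsurj
  have hex : ∀ a : A, ∃ p : MvPolynomial ι ℂ, aeval y p = (a : K) := fun a => by
    have h1 : (a : K) ∈ (aeval y : MvPolynomial ι ℂ →ₐ[ℂ] K).range := by
      rw [← hA]
      exact a.2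
    exact h1
  choose q hq using hex
  have hindep : ∀ p p' : MvPolynomial ι ℂ, aeval y p = aeval y p' → aeval s p = aeval s p' := by
    intro p p' hpp
    have h1 := (h (p - p')).1 (by rw [map_sub, hpp, sub_self])
    rwa [map_sub, sub_eq_zero] at h1
  let ψ : A →ₐ[ℂ] M :=
    { toFun := fun a => aeval s (q a)
      map_one' := by
        rw [hindep (q 1) 1 (by rw [hq, map_one]; rfl), map_one]
      map_mul' := fun a b => by
        rw [hindep (q (a * b)) (q a * q b) (by rw [hq, map_mul, hq, hq]; rfl), map_mul]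
      map_zero' := by
        rw [hindep (q 0) 0 (by rw [hq, map_zero]; rfl), map_zero]
      map_add' := fun a b => by
        rw [hindep (q (a + b)) (q a + q b) (by rw [hq, map_add, hq, hq]; rfl), map_add]
      commutes' := fun c => by
        rw [hindep (q (algebraMap ℂ A c)) (C c) (by rw [hq, aeval_C]; rfl), aeval_C] }
  have hψ : Function.Injective ψ := by
    rw [injective_iff_map_eq_zero]
    intro a ha
    have h1 : aeval s (q a) = 0 := ha
    rw [← h, hq] at h1
    exact Subtype.ext h1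
  refine ⟨IsFractionRing.liftAlgHom (K := K) hψ, fun i => ?_⟩
  have h1 : y i = algebraMap A K ⟨aeval y (X i), hmem _⟩ := (aeval_X y i).symm
  have h2 : (IsFractionRing.liftAlgHom (K := K) hψ) (algebraMap A K ⟨aeval y (X i), hmem _⟩) = ψ ⟨aeval y (X i), hmem _⟩ := by
    rw [IsFractionRing.liftAlgHom_apply]
    exact IsFractionRing.lift_algebraMap hψ _
  rw [h1, h2]
  change aeval s (q _) = s i
  rw [hindep (q _) (X i) (by rw [hq]), aeval_X]

/-- Doubly periodic entire functions are constant. -/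
theorem const_of_periodic {f : ℂ → ℂ} (hf : Differentiable ℂ f) {w₁ w₂ : ℂ} (hw : LinearIndependent ℝ ![w₁, w₂]) (h1 : ∀ z, f (z + w₁) = f z)
    (h2 : ∀ z, f (z + w₂) = f z) (z w : ℂ) : f z = f w := by
  refine hf.apply_eq_apply_of_bounded ?_ z w
  -- coordinates
  have hcard : Fintype.card (Fin 2) = Module.finrank ℝ ℂ := by
    rw [Complex.finrank_real_complex, Fintype.card_fin]
  let b : Module.Basis (Fin 2) ℝ ℂ := basisOfLinearIndependentOfCardEqFinrank hw hcard
  have hb0 : b 0 = w₁ := by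
    simp [b]
  have hb1 : b 1 = w₂ := by
    simp [b]
  have hi1 : ∀ (n : ℤ) (z : ℂ), f (z + n * w₁) = f z := by
    intro n z
    have hp : Function.Periodic f w₁ := h1
    have := hp.int_mul n z
    simpa using this
  have hi2 : ∀ (n : ℤ) (z : ℂ), f (z + n * w₂) = f z := by
    intro n z
    have hp : Function.Periodic f w₂ := h2
    have := hp.int_mul n z
    simpa using this
  have hcpt : IsCompact ((fun p : ℝ × ℝ => (p.1 : ℂ) * w₁ + (p.2 : ℂ) * w₂) '' (Set.Icc (0 : ℝ) 1 ×ˢ Set.Icc (0 : ℝ) 1)) :=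
    (isCompact_Icc.prod isCompact_Icc).image (by fun_prop)
  refine (hcpt.image hf.continuous).isBounded.subset ?_
  rintro _ ⟨z, rfl⟩
  have hz : z = (b.repr z 0 : ℂ) * w₁ + (b.repr z 1 : ℂ) * w₂ := by
    conv_lhs => rw [← b.sum_repr z]
    rw [Fin.sum_univ_two, hb0, hb1, Complex.real_smul, Complex.real_smul]
  refine ⟨((Int.fract (b.repr z 0) : ℝ) : ℂ) * w₁ + ((Int.fract (b.repr z 1) : ℝ) : ℂ) * w₂, ⟨(Int.fract (b.repr z 0), Int.fract (b.repr z 1)),
    ⟨⟨Int.fract_nonneg _, (Int.fract_lt_one _).le⟩, ⟨Int.fract_nonneg _, (Int.fract_lt_one _).le⟩⟩, rfl⟩, ?_⟩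
  have h3 : z = (((Int.fract (b.repr z 0) : ℝ) : ℂ) * w₁ + ((Int.fract (b.repr z 1) : ℝ) : ℂ) * w₂) + (⌊b.repr z 0⌋ : ℤ) * w₁ + (⌊b.repr z 1⌋ : ℤ) * w₂ := by
    conv_lhs => rw [hz]
    have e0 : (b.repr z 0 : ℂ) = ((Int.fract (b.repr z 0) : ℝ) : ℂ) + ((⌊b.repr z 0⌋ : ℤ) : ℂ) := by
      have := Int.fract_add_floor (b.repr z 0)
      exact_mod_cast this.symm
    have e1 : (b.repr z 1 : ℂ) = ((Int.fract (b.repr z 1) : ℝ) : ℂ) + ((⌊b.repr z 1⌋ : ℤ) : ℂ) := by
      have := Int.fract_add_floor (b.repr z 1)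
      exact_mod_cast this.symm
    rw [e0, e1]
    ring
  conv_rhs => rw [h3]
  rw [hi2, hi1]

/-- A doubly periodic meromorphic function without poles is constant. -/
theorem const_of_ordM {a b : EntFun} (hb : b ≠ 0) {w₁ w₂ : ℂ} (hw : LinearIndependent ℝ ![w₁, w₂])
    (h1 : ∀ z, (a : ℂ → ℂ) (z + w₁) * (b : ℂ → ℂ) z = (a : ℂ → ℂ) z * (b : ℂ → ℂ) (z + w₁))
    (h2 : ∀ z, (a : ℂ → ℂ) (z + w₂) * (b : ℂ → ℂ) z = (a : ℂ → ℂ) z * (b : ℂ → ℂ) (z + w₂)) (hord : ∀ z, 0 ≤ ordM z (toM a / toM b)) :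
    ∃ c : ℂ, toM a / toM b = algebraMap ℂ Mer c := by
  classical
  set h : ℂ → ℂ := fun z => (a : ℂ → ℂ) z / (b : ℂ → ℂ) z with hh
  have hmer : ∀ z, MeromorphicAt h z := fun z => (a.analyticAt z).meromorphicAt.fun_div (b.analyticAt z).meromorphicAt
  have hbne : ∀ z₀, ∀ᶠ z in 𝓝[≠] z₀, (b : ℂ → ℂ) z ≠ 0 := fun z₀ =>
    Pool.Agent.H17.eventually_ne_zero_of_entire b.2 ((Pool.Agent.H17.EntFun.ne_zero_iff b).mp hb) z₀
  have hord' : ∀ z, 0 ≤ meromorphicOrderAt h z := fun z => by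
    have := hord z
    rwa [ordM_div z a hb] at this
  -- the limits
  choose l hl using fun z => tendsto_nhds_of_meromorphicOrderAt_nonneg (hmer z) (hord' z)
  -- `l` is entire and `l b = a`
  have hlb : ∀ z₀, (b : ℂ → ℂ) z₀ ≠ 0 → l z₀ = h z₀ := by
    intro z₀ hz
    have hc : ContinuousAt h z₀ := (a.analyticAt z₀).continuousAt.div (b.analyticAt z₀).continuousAt hz
    exact tendsto_nhds_unique (hl z₀) (hc.tendsto.mono_left nhdsWithin_le_nhds)
  have hle : ∀ z₀, ∀ᶠ z in 𝓝[≠] z₀, l z = h z := by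
    intro z₀
    filter_upwards [hbne z₀] with z hz using hlb z hz
  have hlc : ∀ z₀, ContinuousAt l z₀ := by
    intro z₀
    rw [continuousAt_iff_punctured_nhds]
    exact (hl z₀).congr' ((hle z₀).mono fun z hz => hz.symm)
  have hld : Differentiable ℂ l := by
    intro z₀
    have hd : ∀ᶠ z in 𝓝[≠] z₀, DifferentiableAt ℂ l z := by
      filter_upwards [hbne z₀] with z hz
      have h3 : ∀ᶠ y in 𝓝 z, l y = h y := by
        filter_upwards [(b.analyticAt z).continuousAt.eventually_ne hz] with y hy using hlb y hy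
      have h4 : DifferentiableAt ℂ h z := (a.diff z).div (b.diff z) hz
      exact (Filter.EventuallyEq.differentiableAt_iff h3).2 h4
    exact (Complex.analyticAt_of_differentiable_on_punctured_nhds_of_continuousAt hd (hlc z₀)).differentiableAt
  -- periodicity
  have hper : ∀ w, (∀ z, (a : ℂ → ℂ) (z + w) * (b : ℂ → ℂ) z = (a : ℂ → ℂ) z * (b : ℂ → ℂ) (z + w)) → ∀ z, l (z + w) = l z := by
    intro w hw z₀
    have hc1 : ContinuousAt (fun z => l (z + w)) z₀ := ContinuousAt.comp (f := fun z => z + w) (hlc (z₀ + w)) (by fun_prop)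
    have hev : ∀ᶠ z in 𝓝[≠] z₀, l (z + w) = l z := by
      have hb2 : ∀ᶠ z in 𝓝[≠] z₀, (b : ℂ → ℂ) (z + w) ≠ 0 := by
        have ht : Tendsto (fun z => z + w) (𝓝[≠] z₀) (𝓝[≠] (z₀ + w)) := by
          refine tendsto_nhdsWithin_iff.2 ⟨((continuous_add_right w).tendsto z₀).mono_left nhdsWithin_le_nhds, ?_⟩
          filter_upwards [self_mem_nhdsWithin] with z hz hz'
          exact hz (add_right_cancel hz')
        exact ht.eventually (hbne (z₀ + w))
      filter_upwards [hbne z₀, hb2] with z hz1 hz2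
      rw [hlb z hz1, hlb _ hz2, hh]
      simp only
      rw [div_eq_div_iff hz2 hz1]
      exact hw z
    exact tendsto_nhds_unique (hc1.tendsto.mono_left nhdsWithin_le_nhds) (((hlc z₀).tendsto.mono_left nhdsWithin_le_nhds).congr' (hev.mono fun z hz => hz.symm))
  have hconst := const_of_periodic hld hw (hper w₁ h1) (hper w₂ h2)
  refine ⟨l 0, ?_⟩
  have hbM : toM b ≠ 0 := fun h0 => hb (IsFractionRing.injective EntFun Mer (h0.trans (map_zero (algebraMap EntFun Mer)).symm))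
  rw [div_eq_iff hbM, Pool.Agent.H13.CV.algebraMap_eq, ← map_mul]
  congr 1
  -- `a = l 0 * b` away from the zeros of `b`, and by continuity
  apply Pool.Agent.H17.EntFun.ext'
  intro z₀
  have h5 : ∀ᶠ z in 𝓝[≠] z₀, (a : ℂ → ℂ) z = l 0 * (b : ℂ → ℂ) z := by
    filter_upwards [hbne z₀] with z hz
    rw [hconst 0 z, hlb z hz, hh]
    simp only
    rw [div_mul_cancel₀ _ hz]
  have h6 : Tendsto (fun z => l 0 * (b : ℂ → ℂ) z) (𝓝[≠] z₀) (𝓝 (l 0 * (b : ℂ → ℂ) z₀)) :=
    ((b.analyticAt z₀).continuousAt.tendsto.mono_left nhdsWithin_le_nhds).const_mul _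
  exact tendsto_nhds_unique ((a.analyticAt z₀).continuousAt.tendsto.mono_left nhdsWithin_le_nhds) (h6.congr' (h5.mono fun z hz => hz.symm))

end Pool.Agent.AD
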