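import Pool.Agent.AD.T.Null
import Pool.Agent.AD.T.InCurve
import Pool.Agent.H17R.SpecialR

/-!
# AD T SSDefs: varieties whose special set is a finite union of elliptic curves
-/

open MvPolynomial
open Pool.Agent.H17 (PN HolomorphicInto)
open Pool.Agent.H62.FC (Homog specialSet IsGeneralType)
open Pool.Agent.H17LG.Variety (FunField)
open Pool.Agent.H13.SM (conTan)
open Pool.Agent.H17EF (projVar)
open Pool.Agent.H17R (SpecialWith)
open Pool.Agent.H14.V (boundedDistortion DoublyPeriodic)

noncomputable section

namespace Pool.Agent.AD.SS

variable {N : ℕ}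

/-- The closed subvariety of dimension `n` of `ℙ^N` given by the homogeneous prime ideal `P` is smooth: the tangent
space of its affine cone has dimension at most `n + 1` at every point different from `0`. -/
def IsSmooth (P : Ideal (MvPolynomial (Fin (N + 1)) ℂ)) (n : ℕ) : Prop :=
  ∀ x : Fin (N + 1) → ℂ, x ≠ 0 → (∀ Q ∈ P, eval x Q = 0) → Module.finrank ℂ (conTan P x) ≤ n + 1

/-- `T` is a finite set of doubly periodic entire curves `g` with `0 < c ≤ |g'|` in the variety `X` given by `P`, each of
them in an algebraic curve; the special set of `X` is the union of the images of these curves; every non-constant entire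
curve in `X` is `g ∘ φ` with `g` in `T` and `φ` entire; the special set has the properties of `SpecialWith`: it is not
equal to `X`, and every closed subvariety `Y` of positive dimension of `X` which is not contained in it is of general
type, and the special set of `Y` is not equal to `Y`; a closed subvariety `Y` of positive dimension of `X` is of general
type if and only if its special set is not equal to `Y`, and if and only if it is not the image of one of the `g` in `T`;
and every projective variety birational to `X` has the properties of `SpecialWith` with some closed subset `Ξ'`, so its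
special set is not the whole variety. -/
structure FiniteSpecialSet (P : Ideal (MvPolynomial (Fin (N + 1)) ℂ)) [P.IsPrime] (T : Set (ℂ → PN N)) : Prop where
  finite : T.Finite
  elliptic : ∀ g ∈ T, (∃ c L : ℝ, 0 < c ∧ g ∈ boundedDistortion (projVar P) c L) ∧ DoublyPeriodic g ∧ InCurve P g
  specialSet_eq : specialSet (projVar P) = ⋃ g ∈ T, Set.range g
  curves : ∀ f : ℂ → PN N, HolomorphicInto f Set.univ → (∀ z, f z ∈ projVar P) → (∃ z w, f z ≠ f w) →
    ∃ g ∈ T, ∃ φ : ℂ → ℂ, Differentiable ℂ φ ∧ ∀ z, f z = g (φ z)
  special : SpecialWith P (specialSet (projVar P))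
  subvarieties : ∀ (Q : Ideal (MvPolynomial (Fin (N + 1)) ℂ)) [Q.IsPrime], Homog Q → P ≤ Q → ∀ w, 1 ≤ w →
    (∃ z : Fin w → FunField Q, IsTranscendenceBasis ℂ z) →
    (IsGeneralType (FunField Q) w ↔ specialSet (projVar Q) ≠ projVar Q) ∧
    (IsGeneralType (FunField Q) w ↔ ∀ g ∈ T, projVar Q ≠ Set.range g)
  birational : ∀ (M : ℕ) (P' : Ideal (MvPolynomial (Fin (M + 1)) ℂ)) [P'.IsPrime], Homog P' →
    Nonempty (FunField P' ≃ₐ[ℂ] FunField P) → ∃ Ξ' : Set (PN M), SpecialWith P' Ξ'

end Pool.Agent.AD.SS
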