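import Pool.Agent.AD.T.SSDefs
import Pool.Agent.AD.T.CurvesAll
import Pool.Agent.AD.P.Final
import Pool.Agent.H14.V.Concl
import Pool.Agent.H14.V.Spec
import Pool.Agent.H7.Bir.Main

/-!
# AD T SSProof: the special set in all dimensions
-/

open MvPolynomial
open Pool.Agent.H17 (PN VanishesAt ZariskiClosedIn HolomorphicInto puncturedDisc)
open Pool.Agent.H62.FC (Homog specialSet IsGeneralType primeLocus unionImages_subset)
open Pool.Agent.H17LG.Variety (FunField IsLogGeneralType)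
open Pool.Agent.H13.SM (conTan)
open Pool.Agent.H14.KB (KobayashiHyperbolicModulo)
open Pool.Agent.H13.OT (OrderTwo)
open Pool.Agent.H17EF (projVar zariskiClosure coneE GT)
open Pool.Agent.H22.W (PseudoLength)
open Pool.Agent.H17R (SpecialWith)
open Pool.Agent.H17BP (mapIdeal exists_X_notMem mem_mapIdeal_form le_mapIdeal mapIdeal_homog trdeg_lt)
open Pool.Agent.H14.V (boundedDistortion brodyCurves DoublyPeriodic Degenerate IsNull IsMetric primeLocus_empty
  isGeneralType_of_gt gt_of_isGeneralType closure_subset_special)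
open Pool.Agent.AD (IsHolomorphicTorusMap NoEllipticCurve PluckerAmple NullClass InCurve)

noncomputable section

namespace Pool.Agent.AD.SS

variable {N : ℕ} {P : Ideal (MvPolynomial (Fin (N + 1)) ℂ)}

/-- the special set of a variety for which all the entire curves lie in `Ξ` -/
theorem special_of [P.IsPrime]
    (hgt : ∀ w, 1 ≤ w → (∃ z : Fin w → FunField P, IsTranscendenceBasis ℂ z) → IsGeneralType (FunField P) w)
    {Ξ : Set (PN N)} (hΞ : ZariskiClosedIn (projVar P) Ξ) (hne : Ξ ≠ projVar P)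
    (hbrody : ∀ f : ℂ → PN N, HolomorphicInto f Set.univ → (∀ z, f z ∈ projVar P) → (∃ z w, f z ≠ f w) → ∀ z, f z ∈ Ξ)
    (hstr : ∀ (Q : Ideal (MvPolynomial (Fin (N + 1)) ℂ)) [Q.IsPrime], Homog Q → P ≤ Q → ¬ projVar Q ⊆ Ξ →
      ∀ k, 1 ≤ k → (∃ z : Fin k → FunField Q, IsTranscendenceBasis ℂ z) → GT Q k) : SpecialWith P Ξ := by
  have hPL := primeLocus_empty P
  have hent : ∀ Y ⊆ projVar P, specialSet Y ⊆ Ξ := by
    intro Y hY
    refine Pool.Agent.H17R.closureIn_subset hΞ hY (unionImages_subset ?_)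
    rintro _ ⟨f, hf, hfY, hne, z, rfl⟩
    exact hbrody f hf (fun z => hY (hfY z)) hne z
  refine ⟨by rw [hPL]; exact hΞ, by rw [hPL]; exact hne, hgt, by rw [hPL]; exact hent _ subset_rfl, ?_⟩
  intro Q _ hQ hPQ hsub
  have hY : primeLocus Q ∅ ⊆ projVar P := fun x hx => fun R hR => hx.1 R (hPQ hR)
  refine ⟨fun k hk hz => isGeneralType_of_gt (hstr Q hQ hPQ ?_ k hk hz), hent _ hY, ?_⟩
  · rw [← primeLocus_empty Q]
    exact hsub
  · intro heq
    exact hsub (heq ▸ hent _ hY)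

/-- an irreducible closed subset of a finite union of the closures of doubly periodic curves -/
theorem eq_closure (Q : Ideal (MvPolynomial (Fin (N + 1)) ℂ)) [hQp : Q.IsPrime] (hQ : Homog Q) {w : ℕ} (hw : 1 ≤ w)
    (hz : ∃ z : Fin w → FunField Q, IsTranscendenceBasis ℂ z) {T : Set (ℂ → PN N)} (hT : T.Finite)
    (hTp : ∀ g ∈ T, HolomorphicInto g Set.univ ∧ DoublyPeriodic g ∧ ∃ z w, g z ≠ g w)
    (hX : ∃ i, (X i : MvPolynomial (Fin (N + 1)) ℂ) ∉ Q) (hsub : projVar Q ⊆ ⋃ g ∈ T, zariskiClosure g) :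
    w = 1 ∧ ∃ g ∈ T, projVar Q = zariskiClosure g ∧ ∀ z, g z ∈ projVar Q := by
  obtain ⟨g, hg, hgQ⟩ : ∃ g ∈ T, projVar Q ⊆ zariskiClosure g := by
    by_contra hcon
    push Not at hcon
    obtain ⟨R, n, hR, hRQ, hRv⟩ := Pool.Agent.H17EF.exists_prod (P := Q) hT (A := fun g => zariskiClosure g) (fun g hg => by
      obtain ⟨x, hx, hxg⟩ := Set.not_subset.1 (hcon g hg)
      have h1 : ∃ (R : MvPolynomial (Fin (N + 1)) ℂ) (n : ℕ), R.IsHomogeneous n ∧ (∀ z, VanishesAt R (g z)) ∧ ¬ VanishesAt R x := by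
        by_contra h
        push Not at h
        exact hxg fun R n hR hv => h R n hR hv
      obtain ⟨R, n, hR, hv, hRx⟩ := h1
      exact ⟨R, n, hR, fun hRQ => hRx (hx R hRQ n hR), fun y hy => hy R n hR hv⟩)
    obtain ⟨x, hx, hRx⟩ := Pool.Agent.H17EF.exists_point hQ hX hRQ hR
    exact hRx (hRv x (hsub hx))
  obtain ⟨h1, h2, h3⟩ := hTp g hg
  obtain ⟨hJp, hJz⟩ := Pool.Agent.AD.trdeg_one h1 h2 h3
  have hJQ : mapIdeal g Set.univ ≤ Q := by
    intro R hR
    rw [← MvPolynomial.sum_homogeneousComponent R]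
    refine Ideal.sum_mem _ fun i _ => ?_
    by_contra hcon
    obtain ⟨x, hx, hRx⟩ := Pool.Agent.H17EF.exists_point hQ hX hcon (homogeneousComponent_isHomogeneous i R)
    have h4 : homogeneousComponent i R ∈ mapIdeal g Set.univ := mapIdeal_homog R hR i
    exact hRx (hgQ hx _ i (homogeneousComponent_isHomogeneous i R) fun z =>
      (mem_mapIdeal_form (homogeneousComponent_isHomogeneous i R)).1 h4 z (Set.mem_univ _))
  have hQJ : Q ≤ mapIdeal g Set.univ := by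
    by_contra hcon
    have := trdeg_lt mapIdeal_homog hQ hJQ hcon hX hJz hz
    omega
  have heq : Q = mapIdeal g Set.univ := le_antisymm hQJ hJQ
  have hgQ' : ∀ z, g z ∈ projVar Q := by
    intro z R hR n hn
    exact (mem_mapIdeal_form hn).1 (hQJ hR) z (Set.mem_univ _)
  refine ⟨?_, g, hg, Set.Subset.antisymm hgQ fun x hx R hR n hn => hx R n hn fun z => hgQ' z R hR n hn, hgQ'⟩
  subst heq
  obtain ⟨z, hz⟩ := hz
  obtain ⟨z', hz'⟩ := hJz
  have e1 := hz.lift_cardinalMk_eq_trdeg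
  have e2 := hz'.lift_cardinalMk_eq_trdeg
  rw [← e1] at e2
  have e3 : ((1 : ℕ) : Cardinal.{0}) = ((w : ℕ) : Cardinal.{0}) := by simpa using e2
  exact_mod_cast e3.symm

/-- a curve of general type contains no entire curve -/
theorem const_of_generalType (Q : Ideal (MvPolynomial (Fin (N + 1)) ℂ)) [Q.IsPrime] (hQ : Homog Q)
    (hz : ∃ z : Fin 1 → FunField Q, IsTranscendenceBasis ℂ z) (hgt : IsGeneralType (FunField Q) 1) {g : ℂ → PN N}
    (hg : HolomorphicInto g Set.univ) (hgQ : ∀ z, g z ∈ projVar Q) : ∀ z w, g z = g w := by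
  by_contra hcon
  push Not at hcon
  have h1 := gt_of_isGeneralType hgt
  have hB : (Pool.Agent.H62.SA.OnBd Q (fun _ : Fin 1 => (1 : MvPolynomial (Fin (N + 1)) ℂ)) (k := 1)) = fun _ => False :=
    Pool.Agent.H17EF.onBd_one Q 1
  have hloc := Pool.Agent.H17EF.locVar_one (P := Q)
  have h2 := Pool.Agent.H17R.brody_of_picard (Y := projVar Q) (Ξ := ∅) ⟨{1}, fun R hR => ⟨0, by
      rw [Set.mem_singleton_iff.1 hR]; exact isHomogeneous_one _ _⟩, by
        ext y
        constructor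
        · exact fun h1 => absurd h1 (Set.notMem_empty y)
        · rintro ⟨-, h1⟩
          have h2 := h1 1 rfl
          unfold VanishesAt at h2
          rw [map_one] at h2
          exact absurd h2 one_ne_zero⟩ (fun f hf hfQ _ =>
    Pool.Agent.H62.LGC.picard_of_logGeneralType (I := Q) (s := 1) (G := fun _ => 1) hQ hz (fun _ => ⟨0, isHomogeneous_one _ _⟩)
      (by rw [hB]; exact h1) hf (by rw [hloc]; exact hfQ)) hg hgQ hcon 0
  exact absurd h2 (Set.notMem_empty _)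

/-- a variety of positive dimension is not empty -/
theorem exists_X (Q : Ideal (MvPolynomial (Fin (N + 1)) ℂ)) [Q.IsPrime] {w : ℕ} (hw : 1 ≤ w)
    (hz : ∃ z : Fin w → FunField Q, IsTranscendenceBasis ℂ z) : ∃ i, (X i : MvPolynomial (Fin (N + 1)) ℂ) ∉ Q := by
  by_contra hcon
  push Not at hcon
  obtain ⟨z, hz⟩ := hz
  have h0 : ∀ i, Pool.Agent.H17GT.coordFun Q i = 0 := by
    intro i
    have h1 : (Ideal.Quotient.mk Q (X i : MvPolynomial (Fin (N + 1)) ℂ)) = 0 := Ideal.Quotient.eq_zero_iff_mem.2 (hcon i)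
    unfold Pool.Agent.H17GT.coordFun
    rw [h1, map_zero]
  have hset : {y | ∃ i j, y = Pool.Agent.H17GT.coordFun Q i / Pool.Agent.H17GT.coordFun Q j} = {0} := by
    ext y
    constructor
    · rintro ⟨i, j, rfl⟩
      rw [h0 i, zero_div]
      exact rfl
    · intro hy
      rw [Set.mem_singleton_iff.1 hy]
      exact ⟨0, 0, by rw [h0 0, zero_div]⟩
  have hbot : Pool.Agent.H17GT.functionField Q = ⊥ := by
    unfold Pool.Agent.H17GT.functionField
    rw [hset]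
    exact IntermediateField.adjoin_zero
  have htr := hz.1.transcendental ⟨0, hw⟩
  apply htr
  obtain ⟨y, hy⟩ : ∃ y : Pool.Agent.H17GT.functionField Q, y = z ⟨0, hw⟩ := ⟨_, rfl⟩
  have hy2 : (y : FractionRing (MvPolynomial (Fin (N + 1)) ℂ ⧸ Q)) ∈
      (⊥ : IntermediateField ℂ (FractionRing (MvPolynomial (Fin (N + 1)) ℂ ⧸ Q))) := hbot ▸ y.2
  rw [IntermediateField.mem_bot] at hy2
  obtain ⟨c, hc⟩ := hy2
  have h1 : z ⟨0, hw⟩ = algebraMap ℂ (FunField Q) c := by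
    rw [← hy]
    exact Subtype.ext hc.symm
  rw [h1]
  exact isAlgebraic_algebraMap c

/-- subvarieties of general type and special sets -/
theorem subvarieties [P.IsPrime] {T : Set (ℂ → PN N)} (hT : T.Finite)
    (hTp : ∀ g ∈ T, HolomorphicInto g Set.univ ∧ DoublyPeriodic g ∧ ∃ z w, g z ≠ g w)
    (hs : SpecialWith P (⋃ g ∈ T, zariskiClosure g)) (Q : Ideal (MvPolynomial (Fin (N + 1)) ℂ)) [Q.IsPrime] (hQ : Homog Q)
    (hPQ : P ≤ Q) {w : ℕ} (hw : 1 ≤ w) (hz : ∃ z : Fin w → FunField Q, IsTranscendenceBasis ℂ z) :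
    (IsGeneralType (FunField Q) w ↔ specialSet (projVar Q) ≠ projVar Q) ∧
    (IsGeneralType (FunField Q) w ↔ ∀ g ∈ T, projVar Q ≠ zariskiClosure g) := by
  by_cases hsub : projVar Q ⊆ ⋃ g ∈ T, zariskiClosure g
  · obtain ⟨rfl, g, hg, hQg, hgQ⟩ := eq_closure Q hQ hw hz hT hTp (exists_X Q hw hz) hsub
    obtain ⟨h1, h2, h3⟩ := hTp g hg
    have ha : ¬ IsGeneralType (FunField Q) 1 := by
      intro hgt
      obtain ⟨z, w, hzw⟩ := h3
      exact hzw (const_of_generalType Q hQ hz hgt h1 hgQ z w)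
    have hb : specialSet (projVar Q) = projVar Q := by
      apply Set.Subset.antisymm
      · exact fun x hx => hx.1
      · intro x hx
        rw [hQg] at hx
        exact closure_subset_special h1 hgQ h3 h2 hx
    exact ⟨⟨fun h => absurd h ha, fun h => absurd hb h⟩, ⟨fun h => absurd h ha, fun h => absurd hQg (h g hg)⟩⟩
  · obtain ⟨h1, h2, h3⟩ := hs.subvarieties Q hQ hPQ (by rw [primeLocus_empty]; exact hsub)
    rw [primeLocus_empty] at h3
    have h4 := h1 w hw hz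
    exact ⟨⟨fun _ => h3, fun _ => h4⟩, ⟨fun _ g hg heq => hsub (heq ▸ Set.subset_biUnion_of_mem hg), fun _ => h4⟩⟩

/-- from the properties of a finite set of curves -/
theorem finite_of [P.IsPrime] {n : ℕ} (hP : Homog P) (hn : 2 ≤ n) (hdim : ∃ z : Fin n → FunField P, IsTranscendenceBasis ℂ z)
    (hsmooth : IsSmooth P n)
    (ν : PseudoLength (coneE P)) (hν : ∀ f ∈ brodyCurves (projVar P) 1, IsNull ν f → ∀ z w, f z = f w)
    {T : Set (ℂ → PN N)} (h1 : T.Finite)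
    (h2 : ∀ g ∈ T, HolomorphicInto g Set.univ ∧ (∀ z, g z ∈ projVar P) ∧ (∃ z w, g z ≠ g w) ∧ OrderTwo g ∧
        DoublyPeriodic g ∧ Degenerate P g)
    (h3 : ∀ f : ℂ → PN N, HolomorphicInto f Set.univ → OrderTwo f → (∀ z, f z ∈ projVar P) → (∃ z w, f z ≠ f w) →
        ∃ g ∈ T, ∃ a b : ℂ, a ≠ 0 ∧ ∀ z, f z = g (a * z + b))
    (h4 : ZariskiClosedIn (projVar P) (⋃ g ∈ T, zariskiClosure g) ∧ (⋃ g ∈ T, zariskiClosure g) ≠ projVar P)
    (h5 : ∀ f : ℂ → PN N, HolomorphicInto f Set.univ → (∀ z, f z ∈ projVar P) → (∃ z w, f z ≠ f w) →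
        ∀ z, f z ∈ (⋃ g ∈ T, zariskiClosure g))
    (h6 : ∀ f : ℂ → PN N, HolomorphicInto f puncturedDisc → (∀ z ∈ puncturedDisc, f z ∈ projVar P) →
        (∃ z ∈ puncturedDisc, f z ∉ (⋃ g ∈ T, zariskiClosure g)) →
        ∃ g : ℂ → PN N, HolomorphicInto g (Metric.ball 0 1) ∧ ∀ z ∈ puncturedDisc, g z = f z)
    (h7 : ∀ (Q : Ideal (MvPolynomial (Fin (N + 1)) ℂ)) [Q.IsPrime], Homog Q → P ≤ Q →
        ¬ projVar Q ⊆ (⋃ g ∈ T, zariskiClosure g) →
        ∀ k, 1 ≤ k → (∃ z : Fin k → FunField Q, IsTranscendenceBasis ℂ z) → GT Q k)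
    (hG : ∀ w, 1 ≤ w → (∃ z : Fin w → FunField P, IsTranscendenceBasis ℂ z) →
      IsLogGeneralType (K := FunField P) (k := w) fun _ => False) : FiniteSpecialSet P T := by
  obtain ⟨z, hz⟩ := hdim
  obtain ⟨c, L, hc, hscale⟩ := Pool.Agent.AD.exists_scale_down hP hz hsmooth ν hν
  obtain ⟨heq, ha, hb⟩ := Pool.Agent.AD.curves_all hP hc hscale h1 h2 h3 h5
  have hs : SpecialWith P (⋃ g ∈ T, zariskiClosure g) :=
    special_of (fun w hw hz => isGeneralType_of_gt (hG w hw hz)) h4.1 h4.2 h5 h7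
  have hsp : specialSet (projVar P) = ⋃ g ∈ T, zariskiClosure g := by
    apply subset_antisymm
    · have := hs.special
      rwa [primeLocus_empty] at this
    · intro x hx
      simp only [Set.mem_iUnion] at hx
      obtain ⟨g, hg, hx⟩ := hx
      obtain ⟨a1, a2, a3, -, a5, -⟩ := h2 g hg
      exact closure_subset_special a1 a2 a3 a5 hx
  refine ⟨h1, ha, hsp.trans heq, fun f hf hfX hfn => ?_, hsp ▸ hs, ?_, ?_⟩
  · obtain ⟨g, hg, φ, h8, -, h9⟩ := hb f hf hfX hfn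
    exact ⟨g, hg, φ, h8, h9⟩
  · intro Q _ hQ hPQ w hw hz'
    obtain ⟨h8, h9⟩ := subvarieties h1 (fun g hg => ⟨(h2 g hg).1, (h2 g hg).2.2.2.2.1, (h2 g hg).2.2.1⟩) hs Q hQ hPQ hw hz'
    refine ⟨h8, h9.trans ?_⟩
    have h10 : ∀ g ∈ T, zariskiClosure g = Set.range g := fun g hg =>
      Pool.Agent.AD.zariskiClosure_eq_range (h2 g hg).1 (h2 g hg).2.2.2.2.1 (h2 g hg).2.2.1
    exact ⟨fun h g hg => h10 g hg ▸ h g hg, fun h g hg => (h10 g hg).symm ▸ h g hg⟩
  · intro M P' _ hP' ⟨e⟩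
    obtain ⟨k, rfl⟩ : ∃ k, n = k + 1 := ⟨n - 1, by omega⟩
    obtain ⟨Ξ', h⟩ := Pool.Agent.H7.Bir.bir_four hP ⟨k, z, hz⟩ hP' e (Ξ := ⋃ g ∈ T, zariskiClosure g)
      ⟨h4.1, h4.2, hG, h6, h5, h7⟩
    exact ⟨Ξ', special_of (fun w hw hz => isGeneralType_of_gt (h.generalType w hw hz)) h.closed h.proper h.brody
      fun Q _ hQ hPQ hsub w hw hz => h.strongly Q hQ hPQ hsub w hw hz⟩

theorem exists_surface [P.IsPrime] (hP : Homog P) (hdim : ∃ z : Fin 2 → FunField P, IsTranscendenceBasis ℂ z)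
    (hsmooth : IsSmooth P 2) (hgt : IsGeneralType (FunField P) 2) (ν : PseudoLength (coneE P))
    (hν : ∀ f ∈ brodyCurves (projVar P) 1, IsNull ν f → ∀ z w, f z = f w) : ∃ T : Set (ℂ → PN N), FiniteSpecialSet P T := by
  obtain ⟨z, hz⟩ := hdim
  obtain ⟨c, L, hc, hscale⟩ := Pool.Agent.H14.V.partC_w hP hz hsmooth ν hν
  obtain ⟨T, h1, h2, h3, h4, h5, h6, h7, -⟩ := Pool.Agent.H14.V.conclusion hP hz hsmooth (gt_of_isGeneralType hgt) hc hscale
  refine ⟨T, finite_of hP le_rfl ⟨z, hz⟩ hsmooth ν hν h1 h2 h3 h4 h5 h6 h7 ?_⟩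
  intro w _ hw
  obtain rfl := Pool.Agent.H17EF.two_of_basis ⟨z, hz⟩ hw
  exact gt_of_isGeneralType hgt

theorem exists_ample [P.IsPrime] {n : ℕ} (hP : Homog P) (hn : 2 ≤ n) (hdim : ∃ z : Fin n → FunField P, IsTranscendenceBasis ℂ z)
    (hsmooth : IsSmooth P n) (hample : PluckerAmple P) (ν : PseudoLength (coneE P))
    (hν : ∀ f ∈ brodyCurves (projVar P) 1, IsNull ν f → ∀ z w, f z = f w) : ∃ T : Set (ℂ → PN N), FiniteSpecialSet P T := by
  obtain ⟨z, hz⟩ := hdim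
  obtain ⟨m, J, Ω, hm, hΩ⟩ := hample
  obtain ⟨T, h1, h2, h3, h4, h5, h6, h7, -, hG, -⟩ := Pool.Agent.AD.P.conclusion hn hP hz hsmooth hm hΩ ν hν
  exact ⟨T, finite_of hP hn ⟨z, hz⟩ hsmooth ν hν h1 h2 h3 h4 h5 h6 h7 hG⟩

/-- **Main theorem.** -/
theorem main {N n : ℕ} (P : Ideal (MvPolynomial (Fin (N + 1)) ℂ)) [P.IsPrime] (hP : Homog P) (hn : 2 ≤ n)
    (hdim : ∃ z : Fin n → FunField P, IsTranscendenceBasis ℂ z) (hsmooth : IsSmooth P n)
    (h : (n = 2 ∧ IsGeneralType (FunField P) 2) ∨ PluckerAmple P) :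
    (∀ ν : PseudoLength (coneE P), IsMetric ν → ∃ T : Set (ℂ → PN N), FiniteSpecialSet P T) ∧
    (∀ A : Set (ℂ → PN N), NullClass P A → (∀ f ∈ brodyCurves (projVar P) 1, f ∈ A → ∀ z w, f z = f w) →
      ∃ T : Set (ℂ → PN N), FiniteSpecialSet P T) ∧
    ∀ (g : ℕ) (Λ : AddSubgroup (Fin g → ℂ)), DiscreteTopology Λ → NoEllipticCurve Λ → ∀ u : PN N → (Fin g → ℂ) ⧸ Λ,
      IsHolomorphicTorusMap (projVar P) Λ u → (∀ f ∈ brodyCurves (projVar P) 1, (∀ z w, u (f z) = u (f w)) → ∀ z w, f z = f w) →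
        FiniteSpecialSet P ∅ := by
  have key : ∀ ν : PseudoLength (coneE P), (∀ f ∈ brodyCurves (projVar P) 1, IsNull ν f → ∀ z w, f z = f w) →
      ∃ T : Set (ℂ → PN N), FiniteSpecialSet P T := by
    rcases h with ⟨rfl, hgt⟩ | hample
    · exact exists_surface hP hdim hsmooth hgt
    · exact exists_ample hP hn hdim hsmooth hample
  obtain ⟨z, hz⟩ := hdim
  refine ⟨fun ν hν => key ν fun f hf hnull => Pool.Agent.H14.V.const_of_metric hP hν hf.1 hnull, fun A hA h => ?_,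
    fun g Λ hΛ hell u hu hconst => ?_⟩
  · obtain ⟨ν, hν⟩ := Pool.Agent.AD.exists_length hP hz hsmooth hA
    exact key ν fun f hf hnull => h f hf (hν f hf.1 hnull)
  · have hch := Pool.Agent.AD.charts_coneE hP hz hsmooth
    obtain ⟨ν, hν⟩ := Pool.Agent.AD.exists_torusLength hP hch hu
    obtain ⟨T, hT⟩ := key ν fun f hf hnull => hconst f hf (hν f hf.1 hnull)
    have hempty : T = ∅ := by
      by_contra hne
      obtain ⟨f, hf⟩ := Set.nonempty_iff_ne_empty.2 hne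
      obtain ⟨⟨c, L, hc, hfb⟩, hper, -⟩ := hT.elliptic f hf
      obtain ⟨hfX, F, hF, hFb⟩ := hfb
      obtain ⟨z₁, z₂, hzw⟩ : ∃ z w, f z ≠ f w := Pool.Agent.H14.V.nonconstant_of hF hc fun z => (hFb z).1
      have hL : 0 < L := hc.trans_le ((hFb 0).1.trans (hFb 0).2)
      obtain ⟨a, ha⟩ : ∃ a : ℂ, a = ((L⁻¹ : ℝ) : ℂ) := ⟨_, rfl⟩
      have ha0 : a ≠ 0 := by
        rw [ha]
        exact_mod_cast (inv_pos.2 hL).ne'
      have hfa : (fun z => f (a * z)) ∈ brodyCurves (projVar P) 1 := by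
        refine ⟨fun z => hfX _, fun z => F (a * z), ⟨hF.1.comp (differentiable_id.const_mul a), fun z => hF.2 _⟩, fun z => ?_⟩
        have h1 : deriv (fun z => F (a * z)) z = a • deriv F (a * z) := by
          have h2 : HasDerivAt (fun z : ℂ => a * z) a z := by
            simpa using (hasDerivAt_id z).const_mul a
          exact ((hF.1 (a * z)).hasDerivAt.scomp z h2).deriv
        rw [h1, Pool.Agent.H36.BP.fs_smul_right, ha, Complex.norm_real, Real.norm_of_nonneg (inv_pos.2 hL).le]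
        calc L⁻¹ * _ ≤ L⁻¹ * L := mul_le_mul_of_nonneg_left (hFb _).2 (inv_pos.2 hL).le
          _ = 1 := inv_mul_cancel₀ hL.ne'
      have hpa : DoublyPeriodic fun z => f (a * z) := by
        obtain ⟨ω₁, ω₂, hω, hp⟩ := hper
        refine ⟨a⁻¹ * ω₁, a⁻¹ * ω₂, ?_, fun z => ⟨?_, ?_⟩⟩
        · have hreal : a⁻¹ = ((L : ℝ) : ℂ) := by
            rw [ha]
            push_cast
            rw [inv_inv]
          have h1 : (![a⁻¹ * ω₁, a⁻¹ * ω₂] : Fin 2 → ℂ) = fun i => (Units.mk0 L hL.ne') • (![ω₁, ω₂] : Fin 2 → ℂ) i := by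
            funext i
            fin_cases i <;> simp [hreal, Units.smul_def, Complex.real_smul]
          rw [h1]
          exact hω.units_smul fun _ => Units.mk0 L hL.ne'
        · show f (a * (z + a⁻¹ * ω₁)) = f (a * z)
          rw [mul_add, mul_inv_cancel_left₀ ha0, (hp _).1]
        · show f (a * (z + a⁻¹ * ω₂)) = f (a * z)
          rw [mul_add, mul_inv_cancel_left₀ ha0, (hp _).2]
      have h1 := hconst _ hfa (Pool.Agent.AD.fibre_of_doublyPeriodic hP hch hu hell hfa hpa) (a⁻¹ * z₁) (a⁻¹ * z₂)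
      simp only [mul_inv_cancel_left₀ ha0] at h1
      exact hzw h1
    rw [hempty] at hT
    exact hT

end Pool.Agent.AD.SS
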