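import Pool.Agent.AD.T.Defs
import Pool.Agent.AD.W.Scale
import Pool.Agent.H22.W.Pow

/-!
# AD T Sym: the pseudo-length of a family of symmetric differentials, in any dimension

`n (x, v) ^ 2 = ∑ j, ‖θ_j (x, v)‖ ^ (2 / m_j)`.  Port of `H22/W/Sym.lean`.
-/

set_option autoImplicit false

open Topology Filter Metric

namespace Pool.Agent.AD

open Pool.Agent.H36.BP (EN fs wd)
open Pool.Agent.H14.PP (IsCone Tan CurveAt IsOpenPart)
open Pool.Agent.H22.W (PseudoLength isOpenPart_self tan_smul tan_mem tan_curve tan_entire rpow_le_avg)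

variable {N : ℕ}

variable {X : Set (EN N)} {d m : ℕ}

/-- the value of a symmetric differential on the derivative of a curve is holomorphic -/
theorem SymDiff.curve_an (θ : SymDiff X m) {F : ℂ → EN N} {z₀ : ℂ} (hF : CurveAt X F z₀) :
    AnalyticAt ℂ (fun z => θ.toFun (F z) (deriv F z)) z₀ := by
  have hev : AnalyticAt ℂ (fun t : Fin 1 → ℂ => t 0) (fun _ => z₀) :=
    (ContinuousLinearMap.proj (R := ℂ) (φ := fun _ : Fin 1 => ℂ) 0).analyticAt _
  have hφ : AnalyticAt ℂ (fun t : Fin 1 → ℂ => F (t 0)) (fun _ => z₀) :=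
    AnalyticAt.comp (g := F) (f := fun t : Fin 1 → ℂ => t 0) hF.1 hev
  have h1 := θ.analytic 1 (fun t => F (t 0)) (fun _ => z₀) (fun _ => 1) hφ (by
    have h2 : Tendsto (fun t : Fin 1 → ℂ => t 0) (𝓝 (fun _ => z₀)) (𝓝 z₀) := hev.continuousAt.tendsto
    exact h2.eventually hF.2)
  have h3 : AnalyticAt ℂ (fun z : ℂ => ((fun _ => z : Fin 1 → ℂ), (fun _ => 1 : Fin 1 → ℂ))) z₀ := by
    refine AnalyticAt.prod ?_ analyticAt_const
    exact AnalyticAt.pi fun _ => analyticAt_id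
  have h4 := AnalyticAt.comp (g := fun y : (Fin 1 → ℂ) × (Fin 1 → ℂ) => θ.toFun (F (y.1 0)) (fderiv ℂ (fun t : Fin 1 → ℂ => F (t 0)) y.1 y.2))
    (f := fun z : ℂ => ((fun _ => z : Fin 1 → ℂ), (fun _ => 1 : Fin 1 → ℂ))) h1 h3
  refine h4.congr ?_
  filter_upwards [hF.1.eventually_analyticAt] with z hz
  show θ.toFun (F z) (fderiv ℂ (fun t : Fin 1 → ℂ => F (t 0)) (fun _ => z) (fun _ => 1)) = θ.toFun (F z) (deriv F z)
  congr 1
  have h5 : HasFDerivAt (fun t : Fin 1 → ℂ => F (t 0)) ((fderiv ℂ F z).comp (ContinuousLinearMap.proj (R := ℂ) (φ := fun _ : Fin 1 => ℂ) 0))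
      (fun _ => z) :=
    HasFDerivAt.comp (g := F) (f := fun t : Fin 1 → ℂ => t 0) (fun _ => z) hz.differentiableAt.hasFDerivAt
      (ContinuousLinearMap.proj (R := ℂ) (φ := fun _ : Fin 1 => ℂ) 0).hasFDerivAt
  rw [h5.fderiv]
  simp

/-- the expression of the differential in a chart -/
noncomputable def tC (θ : SymDiff X m) (χ : Chart d X) (y : Vd d × Vd d) : ℂ := θ.toFun (χ.σ y.1) (fderiv ℂ χ.σ y.1 y.2)

theorem tC_an (θ : SymDiff X m) (χ : Chart d X) {p : Vd d} (hp : p ∈ ball (0 : Vd d) 2) (w : Vd d) :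
    AnalyticAt ℂ (tC θ χ) (p, w) := by
  refine θ.analytic d χ.σ p w (χ.σ_an p hp) ?_
  filter_upwards [isOpen_ball.mem_nhds hp] with y hy
  exact (χ.σ_mem y hy).1

theorem SymDiff.eq_tC (hX : IsCone X) (θ : SymDiff X m) (χ : Chart d X) {x v : EN N} (h : Tan X x v) (hU : x ∈ χ.U) :
    θ.toFun x v = tC θ χ (χ.q x, fderiv ℂ χ.q x v) := by
  obtain ⟨hb, c, a, hc, h1, h2⟩ := tan_chart hX χ h hU
  have ht := tan_sigma hX χ hb (fderiv ℂ χ.q x v)
  have ht' : Tan X x (c • fderiv ℂ χ.σ (χ.q x) (fderiv ℂ χ.q x v)) := by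
    have := tan_smul hX ht hc
    rwa [← h1] at this
  have h3 : θ.toFun x v = θ.toFun x (c • fderiv ℂ χ.σ (χ.q x) (fderiv ℂ χ.q x v)) := by
    conv_lhs => rw [h2]
    exact θ.add_smul _ _ ht' a
  have h4 := θ.scale _ _ ht c hc
  rw [← h1] at h4
  rw [h3, h4]
  rfl

theorem SymDiff.continuousOn (hX : IsCone X) (hch : Charts d X) (θ : SymDiff X m) :
    ContinuousOn (fun p : EN N × EN N => θ.toFun p.1 p.2) {p | Tan X p.1 p.2} := by
  rintro ⟨x₀, v₀⟩ h₀
  have h₀' : Tan X x₀ v₀ := h₀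
  obtain ⟨χ, hU, hq0⟩ := hch x₀ (tan_mem h₀')
  have hq := χ.q_an x₀ hU
  have hp : χ.q x₀ ∈ ball (0 : Vd d) 2 := by
    rw [hq0]
    exact mem_ball_self two_pos
  have h1 : Tendsto (fun y : EN N × EN N => χ.q y.1) (𝓝 (x₀, v₀)) (𝓝 (χ.q x₀)) :=
    hq.continuousAt.tendsto.comp continuousAt_fst.tendsto
  have h2 : Tendsto (fun y : EN N × EN N => fderiv ℂ χ.q y.1) (𝓝 (x₀, v₀)) (𝓝 (fderiv ℂ χ.q x₀)) :=
    hq.fderiv.continuousAt.tendsto.comp continuousAt_fst.tendsto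
  have hcb : Continuous fun p : (EN N →L[ℂ] (Vd d)) × EN N => p.1 p.2 := isBoundedBilinearMap_apply.continuous
  have h3 : Tendsto (fun y : EN N × EN N => fderiv ℂ χ.q y.1 y.2) (𝓝 (x₀, v₀)) (𝓝 (fderiv ℂ χ.q x₀ v₀)) :=
    (hcb.tendsto (fderiv ℂ χ.q x₀, v₀)).comp (h2.prodMk_nhds continuousAt_snd.tendsto)
  have h4 : Tendsto (fun y : EN N × EN N => tC θ χ (χ.q y.1, fderiv ℂ χ.q y.1 y.2)) (𝓝 (x₀, v₀))
      (𝓝 (tC θ χ (χ.q x₀, fderiv ℂ χ.q x₀ v₀))) :=
    (tC_an θ χ hp (fderiv ℂ χ.q x₀ v₀)).continuousAt.tendsto.comp (h1.prodMk_nhds h3)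
  have h5 : θ.toFun x₀ v₀ = tC θ χ (χ.q x₀, fderiv ℂ χ.q x₀ v₀) := SymDiff.eq_tC hX θ χ h₀' hU
  show Tendsto (fun p : EN N × EN N => θ.toFun p.1 p.2) (𝓝[{p | Tan X p.1 p.2}] (x₀, v₀)) (𝓝 (θ.toFun x₀ v₀))
  rw [h5]
  refine (h4.mono_left nhdsWithin_le_nhds).congr' ?_
  have h6 : ∀ᶠ y : EN N × EN N in 𝓝 (x₀, v₀), y.1 ∈ χ.U := continuousAt_fst.eventually (χ.isOpen_U.mem_nhds hU)
  filter_upwards [nhdsWithin_le_nhds h6, self_mem_nhdsWithin] with y hy1 hy2
  exact (SymDiff.eq_tC hX θ χ hy2 hy1).symm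

theorem pow_two_div {m : ℕ} (hm : 1 ≤ m) {t : ℝ} (ht : 0 ≤ t) : (t ^ m) ^ ((2 : ℝ) / m) = t ^ 2 := by
  have hm0 : (m : ℝ) ≠ 0 := by exact_mod_cast (by omega : m ≠ 0)
  rw [← Real.rpow_natCast, ← Real.rpow_mul ht, mul_div_cancel₀ _ hm0, ← Real.rpow_natCast]
  norm_num

/-- **The pseudo-length of a family of symmetric differentials.** -/
noncomputable def symLength (hX : IsCone X) (hch : Charts d X) {k : ℕ} {m : Fin k → ℕ} (hm : ∀ j, 1 ≤ m j)
    (θ : ∀ j, SymDiff X (m j)) : PseudoLength X where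
  toFun x v := Real.sqrt (∑ j, ‖(θ j).toFun x v‖ ^ ((2 : ℝ) / m j))
  nonneg _ _ _ := Real.sqrt_nonneg _
  add_smul x v h a := by
    have h1 : ∀ j, (θ j).toFun x (v + a • x) = (θ j).toFun x v := fun j => (θ j).add_smul x v h a
    simp only [h1]
  smul x v h a := by
    have h1 : ∀ j, ‖(θ j).toFun x (a • v)‖ ^ ((2 : ℝ) / m j) = ‖a‖ ^ 2 * ‖(θ j).toFun x v‖ ^ ((2 : ℝ) / m j) := fun j => by
      rw [(θ j).smul x v h a, norm_mul, norm_pow, Real.mul_rpow (by positivity) (norm_nonneg _),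
        pow_two_div (hm j) (norm_nonneg _)]
    simp only [h1]
    rw [← Finset.mul_sum, Real.sqrt_mul (by positivity), Real.sqrt_sq (norm_nonneg _)]
  scale x v h c hc := by
    have h1 : ∀ j, (θ j).toFun (c • x) (c • v) = (θ j).toFun x v := fun j => (θ j).scale x v h c hc
    simp only [h1]
  continuous := by
    refine Real.continuous_sqrt.comp_continuousOn (continuousOn_finsetSum _ fun j _ => ?_)
    refine (SymDiff.continuousOn hX hch (θ j)).norm.rpow_const fun x _ => Or.inr ?_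
    positivity
  curved U F hU hF hFX c r hr hc := by
    have h0 : ∀ z, 0 ≤ ∑ j, ‖(θ j).toFun (F z) (deriv F z)‖ ^ ((2 : ℝ) / m j) := fun z =>
      Finset.sum_nonneg fun j _ => Real.rpow_nonneg (norm_nonneg _) _
    simp only [Real.sq_sqrt (h0 _)]
    have han : ∀ j, AnalyticOnNhd ℂ (fun z => (θ j).toFun (F z) (deriv F z)) (closedBall c r) := by
      intro j z hz
      have hz' : U ∈ 𝓝 z := hU.mem_nhds (hc hz)
      refine (θ j).curve_an ⟨hF.analyticAt hz', ?_⟩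
      filter_upwards [hz'] with w hw using hFX w hw
    have hsum : Real.circleAverage (fun z => ∑ j, ‖(θ j).toFun (F z) (deriv F z)‖ ^ ((2 : ℝ) / m j)) c r =
        ∑ j, Real.circleAverage (fun z => ‖(θ j).toFun (F z) (deriv F z)‖ ^ ((2 : ℝ) / m j)) c r := by
      refine Real.circleAverage_fun_sum fun j _ => ?_
      have h2 : sphere c |r| ⊆ closedBall c r := by
        rw [abs_of_pos hr]
        exact sphere_subset_closedBall
      refine ContinuousOn.circleIntegrable' ?_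
      exact ((han j).continuousOn.mono h2).norm.rpow_const fun x _ => Or.inr (by positivity)
    rw [hsum]
    refine Finset.sum_le_sum fun j _ => rpow_le_avg hr ?_ (han j)
    have h3 : (0 : ℝ) < m j := by exact_mod_cast (by have := hm j; omega : 0 < m j)
    positivity

theorem symLength_zero (hX : IsCone X) (hch : Charts d X) {k : ℕ} {m : Fin k → ℕ} (hm : ∀ j, 1 ≤ m j)
    (θ : ∀ j, SymDiff X (m j)) {x v : EN N} : (symLength hX hch hm θ).toFun x v = 0 ↔ ∀ j, (θ j).toFun x v = 0 := by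
  have h0 : ∀ j, 0 ≤ ‖(θ j).toFun x v‖ ^ ((2 : ℝ) / m j) := fun j => Real.rpow_nonneg (norm_nonneg _) _
  show Real.sqrt (∑ j, ‖(θ j).toFun x v‖ ^ ((2 : ℝ) / m j)) = 0 ↔ _
  rw [Real.sqrt_eq_zero (Finset.sum_nonneg fun j _ => h0 j), Finset.sum_eq_zero_iff_of_nonneg fun j _ => h0 j]
  constructor
  · intro h j
    have h1 := h j (Finset.mem_univ j)
    have h3 : (0 : ℝ) < m j := by exact_mod_cast (by have := hm j; omega : 0 < m j)
    rw [Real.rpow_eq_zero (norm_nonneg _) (by positivity)] at h1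
    exact norm_eq_zero.1 h1
  · intro h j _
    have h3 : (0 : ℝ) < m j := by exact_mod_cast (by have := hm j; omega : 0 < m j)
    rw [h j, norm_zero, Real.zero_rpow (by positivity)]

end Pool.Agent.AD
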