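import Pool.Agent.AD.T.Sym
import Pool.Agent.H14.V.FourW

/-!
# AD T Torus: holomorphic maps to complex tori

`u : X → ℂ^g / Λ` is holomorphic, `Λ` discrete.  The components of `du` are symmetric differentials of degree one; an entire curve `F` with
`du (F') = 0` lies in a fibre of `u`.
-/

set_option autoImplicit false

open Topology Filter Metric MvPolynomial

namespace Pool.Agent.AD

open Pool.Agent.H36.BP (EN fs wd)
open Pool.Agent.H14.PP (IsCone Tan CurveAt IsOpenPart)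
open Pool.Agent.H22.W (PseudoLength isOpenPart_self tan_smul tan_mem tan_curve tan_entire)
open Pool.Agent.H17 (PN HolomorphicInto)
open Pool.Agent.H62.FC (Homog)
open Pool.Agent.H17EF (projVar coneE LE mk_mem_projVar mem_coneE)
open Pool.Agent.H14.V (IsLift brodyCurves IsNull)

variable {N g : ℕ}

/-- `u` is a holomorphic map from the variety with the cone `X` to `ℂ^g / Λ` -/
structure TorusMapV (X : Set (EN N)) (Λ : AddSubgroup (Fin g → ℂ)) (u : EN N → (Fin g → ℂ)) : Prop where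
  smul : ∀ x ∈ X, ∀ c : ℂ, c ≠ 0 → u (c • x) - u x ∈ Λ
  loc : ∀ x ∈ X, ∃ v : EN N → (Fin g → ℂ), AnalyticAt ℂ v x ∧ ∀ᶠ y in 𝓝 x, y ∈ X → u y - v y ∈ Λ

/-- a discrete subgroup -/
def DiscreteSub (Λ : AddSubgroup (Fin g → ℂ)) : Prop := ∃ δ : ℝ, 0 < δ ∧ ∀ l ∈ Λ, ‖l‖ < δ → l = 0

variable {X : Set (EN N)} {Λ : AddSubgroup (Fin g → ℂ)} {u : EN N → (Fin g → ℂ)}

open Classical in
/-- a local lift of `u` at `x` -/
noncomputable def TorusMapV.lift (hu : TorusMapV X Λ u) (x : EN N) : EN N → (Fin g → ℂ) :=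
  if h : x ∈ X then (hu.loc x h).choose else fun _ => 0

theorem TorusMapV.lift_an (hu : TorusMapV X Λ u) {x : EN N} (hx : x ∈ X) : AnalyticAt ℂ (hu.lift x) x := by
  unfold TorusMapV.lift
  rw [dif_pos hx]
  exact (hu.loc x hx).choose_spec.1

theorem TorusMapV.lift_mem (hu : TorusMapV X Λ u) {x : EN N} (hx : x ∈ X) : ∀ᶠ y in 𝓝 x, y ∈ X → u y - hu.lift x y ∈ Λ := by
  unfold TorusMapV.lift
  rw [dif_pos hx]
  exact (hu.loc x hx).choose_spec.2

/-- a continuous function with values in a discrete subgroup is locally constant -/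
theorem eventually_const_of_mem (hΛ : DiscreteSub Λ) {h : ℂ → (Fin g → ℂ)} {z₀ : ℂ} (hc : ContinuousAt h z₀)
    (hm : ∀ᶠ z in 𝓝 z₀, h z ∈ Λ) : ∀ᶠ z in 𝓝 z₀, h z = h z₀ := by
  obtain ⟨δ, hδ, hd⟩ := hΛ
  have h1 : ∀ᶠ z in 𝓝 z₀, ‖h z - h z₀‖ < δ := by
    have h2 := hc.eventually (ball_mem_nhds (h z₀) hδ)
    filter_upwards [h2] with z hz
    rw [← dist_eq_norm]
    exact hz
  filter_upwards [h1, hm] with z hz1 hz2
  exact sub_eq_zero.1 (hd _ (Λ.sub_mem hz2 hm.self_of_nhds) hz1)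

/-- two functions which differ locally by an element of a discrete subgroup have the same derivative -/
theorem deriv_eq_of_mem (hΛ : DiscreteSub Λ) {h k : ℂ → (Fin g → ℂ)} {z₀ : ℂ} (hh : AnalyticAt ℂ h z₀) (hk : AnalyticAt ℂ k z₀)
    (hm : ∀ᶠ z in 𝓝 z₀, h z - k z ∈ Λ) : deriv h z₀ = deriv k z₀ := by
  have h1 := eventually_const_of_mem hΛ (hh.sub hk).continuousAt hm
  have h2 : (fun z => h z) =ᶠ[𝓝 z₀] fun z => (h z₀ - k z₀) + k z := by
    filter_upwards [h1] with z hz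
    have hz' : h z - k z = h z₀ - k z₀ := hz
    rw [← hz']
    abel
  rw [show deriv h z₀ = deriv (fun z => (h z₀ - k z₀) + k z) z₀ from h2.deriv_eq, deriv_const_add]

theorem deriv_comp_lift {v : EN N → (Fin g → ℂ)} {F : ℂ → EN N} {z₀ : ℂ} (hF : AnalyticAt ℂ F z₀) (hv : AnalyticAt ℂ v (F z₀)) :
    deriv (fun z => v (F z)) z₀ = fderiv ℂ v (F z₀) (deriv F z₀) :=
  (hv.differentiableAt.hasFDerivAt.comp_hasDerivAt z₀ hF.differentiableAt.hasDerivAt).deriv

/-- the differential of `u` -/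
noncomputable def TorusMapV.du (hu : TorusMapV X Λ u) (x w : EN N) : Fin g → ℂ := fderiv ℂ (hu.lift x) x w

/-- the differential can be computed with every local lift -/
theorem TorusMapV.du_eq (hu : TorusMapV X Λ u) (hΛ : DiscreteSub Λ) {x w : EN N} (hw : Tan X x w) {v : EN N → (Fin g → ℂ)}
    (hv : AnalyticAt ℂ v x) (hvu : ∀ᶠ y in 𝓝 x, y ∈ X → u y - v y ∈ Λ) : hu.du x w = fderiv ℂ v x w := by
  have hx : x ∈ X := tan_mem hw
  obtain ⟨F, hF, h0, hd⟩ := hw
  subst h0 hd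
  have hl := hu.lift_an hx
  have h1 := deriv_eq_of_mem (Λ := Λ) hΛ (h := fun z => hu.lift (F 0) (F z)) (k := fun z => v (F z)) (z₀ := 0)
    (AnalyticAt.comp (g := hu.lift (F 0)) (f := F) hl hF.1) (AnalyticAt.comp (g := v) (f := F) hv hF.1) (by
      have hc : Tendsto F (𝓝 0) (𝓝 (F 0)) := hF.1.continuousAt.tendsto
      filter_upwards [hc.eventually hvu, hc.eventually (hu.lift_mem hx), hF.2] with z h2 h3 h4
      have h5 := Λ.sub_mem (h2 h4) (h3 h4)
      have h6 : hu.lift (F 0) (F z) - v (F z) = (u (F z) - v (F z)) - (u (F z) - hu.lift (F 0) (F z)) := by abel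
      rw [h6]
      exact h5)
  rw [deriv_comp_lift hF.1 hl, deriv_comp_lift hF.1 hv] at h1
  exact h1

/-- the differential along a holomorphic map -/
theorem tan_fderiv {k : ℕ} {φ : (Fin k → ℂ) → EN N} {y : Fin k → ℂ} (hφ : AnalyticAt ℂ φ y) (hX : ∀ᶠ x in 𝓝 y, φ x ∈ X) (w : Fin k → ℂ) :
    Tan X (φ y) (fderiv ℂ φ y w) := by
  have hl : AnalyticAt ℂ (fun z : ℂ => y + z • w) 0 := by fun_prop
  have h0 : y + (0 : ℂ) • w = y := by simp
  have hφ' : AnalyticAt ℂ φ (y + (0 : ℂ) • w) := by rwa [h0]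
  refine ⟨fun z => φ (y + z • w), ⟨AnalyticAt.comp (g := φ) (f := fun z : ℂ => y + z • w) hφ' hl, ?_⟩, by simp, ?_⟩
  · have h1 : Tendsto (fun z : ℂ => y + z • w) (𝓝 0) (𝓝 y) := by
      have := hl.continuousAt.tendsto
      rwa [h0] at this
    exact h1.eventually hX
  · have h1 : HasFDerivAt φ (fderiv ℂ φ y) (y + (0 : ℂ) • w) := by
      rw [h0]
      exact hφ.differentiableAt.hasFDerivAt
    have h2 : HasDerivAt (fun z : ℂ => y + z • w) w 0 := by
      have h3 : HasDerivAt (fun z : ℂ => z • w) ((1 : ℂ) • w) 0 := (hasDerivAt_id (0 : ℂ)).smul_const w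
      rw [one_smul] at h3
      exact h3.const_add y
    exact (h1.comp_hasDerivAt (0 : ℂ) h2).deriv

theorem tan_self (hX : IsCone X) {x : EN N} (hx : x ∈ X) : Tan X x x := by
  refine ⟨fun z => (1 + z) • x, ⟨by fun_prop, ?_⟩, by simp, ?_⟩
  · have h1 : ∀ᶠ z : ℂ in 𝓝 0, 1 + z ≠ 0 := by
      apply ContinuousAt.eventually_ne
      · fun_prop
      · simp
    filter_upwards [h1] with z hz
    exact hX.smul_mem x hx _ hz
  · have h1 : HasDerivAt (fun h : ℂ => 1 + h) 1 0 := by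
      simpa using (hasDerivAt_id (0 : ℂ)).const_add (1 : ℂ)
    have h2 : HasDerivAt (fun h : ℂ => (1 + h) • x) ((1 : ℂ) • x) 0 := h1.smul_const x
    rw [h2.deriv, one_smul]

theorem TorusMapV.du_self (hu : TorusMapV X Λ u) (hΛ : DiscreteSub Λ) (hX : IsCone X) {x : EN N} (hx : x ∈ X) : hu.du x x = 0 := by
  have hl := hu.lift_an hx
  have h1 : AnalyticAt ℂ (fun z : ℂ => (1 + z) • x) 0 := by fun_prop
  have h00 : (fun z : ℂ => (1 + z) • x) 0 = x := by simp
  have hl' : AnalyticAt ℂ (hu.lift x) ((fun z : ℂ => (1 + z) • x) 0) := by rwa [h00]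
  have hne : ∀ᶠ z : ℂ in 𝓝 0, 1 + z ≠ 0 := by
    apply ContinuousAt.eventually_ne
    · fun_prop
    · simp
  have hc : Tendsto (fun z : ℂ => (1 + z) • x) (𝓝 0) (𝓝 x) := by
    have := h1.continuousAt.tendsto
    simpa using this
  have h2 := deriv_eq_of_mem (Λ := Λ) hΛ (h := fun z : ℂ => hu.lift x ((1 + z) • x)) (k := fun _ => u x) (z₀ := 0)
    (AnalyticAt.comp (g := hu.lift x) (f := fun z : ℂ => (1 + z) • x) hl' h1) analyticAt_const (by
      filter_upwards [hc.eventually (hu.lift_mem hx), hne] with z h3 h4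
      have h5 := h3 (hX.smul_mem x hx _ h4)
      have h6 := Λ.sub_mem (hu.smul x hx (1 + z) h4) h5
      have h7 : hu.lift x ((1 + z) • x) - u x = (u ((1 + z) • x) - u x) - (u ((1 + z) • x) - hu.lift x ((1 + z) • x)) := by abel
      rw [h7]
      exact h6)
  rw [deriv_const] at h2
  have h3 : HasDerivAt (fun z : ℂ => (1 + z) • x) x 0 := by
    have h1 : HasDerivAt (fun h : ℂ => 1 + h) 1 0 := by
      simpa using (hasDerivAt_id (0 : ℂ)).const_add (1 : ℂ)
    have h2 : HasDerivAt (fun h : ℂ => (1 + h) • x) ((1 : ℂ) • x) 0 := h1.smul_const x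
    rwa [one_smul] at h2
  have h4 : HasFDerivAt (hu.lift x) (fderiv ℂ (hu.lift x) x) ((fun z : ℂ => (1 + z) • x) 0) := by
    rw [h00]
    exact hl.differentiableAt.hasFDerivAt
  have h5 := (h4.comp_hasDerivAt (0 : ℂ) h3).deriv
  unfold TorusMapV.du
  rw [← h5]
  exact h2

/-- **The components of the differential are symmetric differentials of degree one.** -/
noncomputable def TorusMapV.symDiff (hu : TorusMapV X Λ u) (hΛ : DiscreteSub Λ) (hX : IsCone X) (j : Fin g) : SymDiff X 1 where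
  toFun x w := hu.du x w j
  add_smul x v h a := by
    have h1 : hu.du x (v + a • x) = hu.du x v + a • hu.du x x := by
      unfold TorusMapV.du
      rw [map_add, map_smul]
    rw [h1, hu.du_self hΛ hX (tan_mem h), smul_zero, add_zero]
  smul x v _ a := by
    have h1 : hu.du x (a • v) = a • hu.du x v := by
      unfold TorusMapV.du
      rw [map_smul]
    rw [h1, pow_one]
    rfl
  scale x v h c hc := by
    have hx := tan_mem h
    have hl := hu.lift_an hx
    have h0 : c⁻¹ • (c • x) = x := by rw [smul_smul, inv_mul_cancel₀ hc, one_smul]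
    have h1 : AnalyticAt ℂ (fun y : EN N => c⁻¹ • y) (c • x) := by fun_prop
    have hl' : AnalyticAt ℂ (hu.lift x) ((fun y : EN N => c⁻¹ • y) (c • x)) := by
      show AnalyticAt ℂ (hu.lift x) (c⁻¹ • (c • x))
      rwa [h0]
    have ht : Tendsto (fun y : EN N => c⁻¹ • y) (𝓝 (c • x)) (𝓝 x) := by
      have := h1.continuousAt.tendsto
      rwa [h0] at this
    have h2 := hu.du_eq hΛ (tan_smul hX h hc) (v := fun y => hu.lift x (c⁻¹ • y))
      (AnalyticAt.comp (g := hu.lift x) (f := fun y : EN N => c⁻¹ • y) hl' h1) (by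
        filter_upwards [ht.eventually (hu.lift_mem hx)] with y h3 hy
        have h4 := hX.smul_mem y hy c⁻¹ (inv_ne_zero hc)
        have h5 := Λ.sub_mem (h3 h4) (hu.smul y hy c⁻¹ (inv_ne_zero hc))
        have h6 := Λ.add_mem (h3 h4) (Λ.neg_mem (hu.smul y hy c⁻¹ (inv_ne_zero hc)))
        have h7 : u y - hu.lift x (c⁻¹ • y) = (u (c⁻¹ • y) - hu.lift x (c⁻¹ • y)) + -(u (c⁻¹ • y) - u y) := by abel
        rw [h7]
        exact h6)
    rw [h2]
    have h8 : HasFDerivAt (fun y : EN N => hu.lift x (c⁻¹ • y)) ((fderiv ℂ (hu.lift x) x).comp (c⁻¹ • ContinuousLinearMap.id ℂ (EN N))) (c • x) := by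
      have h9 : HasFDerivAt (hu.lift x) (fderiv ℂ (hu.lift x) x) ((fun y : EN N => c⁻¹ • y) (c • x)) := by
        show HasFDerivAt (hu.lift x) (fderiv ℂ (hu.lift x) x) (c⁻¹ • (c • x))
        rw [h0]
        exact hl.differentiableAt.hasFDerivAt
      exact h9.comp (c • x) ((hasFDerivAt_id (c • x)).const_smul c⁻¹)
    rw [h8.fderiv]
    show (fderiv ℂ (hu.lift x) x (c⁻¹ • (c • v))) j = (fderiv ℂ (hu.lift x) x v) j
    rw [smul_smul, inv_mul_cancel₀ hc, one_smul]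
  analytic k φ p w hφ hφX := by
    have hx : φ p ∈ X := hφX.self_of_nhds
    have hl := hu.lift_an hx
    have hcomp : AnalyticAt ℂ (fun y => hu.lift (φ p) (φ y)) p := AnalyticAt.comp (g := hu.lift (φ p)) (f := φ) hl hφ
    have h1 : AnalyticAt ℂ (fun y : (Fin k → ℂ) × (Fin k → ℂ) => fderiv ℂ (fun y => hu.lift (φ p) (φ y)) y.1 y.2) (p, w) := by
      have h2 : AnalyticAt ℂ (fun y : (Fin k → ℂ) × (Fin k → ℂ) => fderiv ℂ (fun y => hu.lift (φ p) (φ y)) y.1) (p, w) :=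
        AnalyticAt.comp (g := fderiv ℂ (fun y => hu.lift (φ p) (φ y))) (f := fun y : (Fin k → ℂ) × (Fin k → ℂ) => y.1) hcomp.fderiv analyticAt_fst
      exact AnalyticAt.comp (g := fun q : ((Fin k → ℂ) →L[ℂ] (Fin g → ℂ)) × (Fin k → ℂ) => q.1 q.2)
        (f := fun y : (Fin k → ℂ) × (Fin k → ℂ) => (fderiv ℂ (fun y => hu.lift (φ p) (φ y)) y.1, y.2))
        ((ContinuousLinearMap.id ℂ ((Fin k → ℂ) →L[ℂ] (Fin g → ℂ))).analyticAt_bilinear _) (h2.prod analyticAt_snd)
    have h3 : AnalyticAt ℂ (fun y : (Fin k → ℂ) × (Fin k → ℂ) => (fderiv ℂ (fun y => hu.lift (φ p) (φ y)) y.1 y.2) j) (p, w) :=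
      AnalyticAt.comp (g := fun v : Fin g → ℂ => v j) (f := fun y : (Fin k → ℂ) × (Fin k → ℂ) => fderiv ℂ (fun y => hu.lift (φ p) (φ y)) y.1 y.2)
        ((ContinuousLinearMap.proj (R := ℂ) (φ := fun _ : Fin g => ℂ) j).analyticAt _) h1
    refine h3.congr ?_
    have hφc : Tendsto (fun y : (Fin k → ℂ) × (Fin k → ℂ) => φ y.1) (𝓝 (p, w)) (𝓝 (φ p)) :=
      hφ.continuousAt.tendsto.comp continuousAt_fst.tendsto
    have e1 : ∀ᶠ y : (Fin k → ℂ) × (Fin k → ℂ) in 𝓝 (p, w), AnalyticAt ℂ (hu.lift (φ p)) (φ y.1) := hφc.eventually hl.eventually_analyticAt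
    have e2 : ∀ᶠ y : (Fin k → ℂ) × (Fin k → ℂ) in 𝓝 (p, w), ∀ᶠ x in 𝓝 (φ y.1), x ∈ X → u x - hu.lift (φ p) x ∈ Λ :=
      hφc.eventually (hu.lift_mem hx).eventually_nhds
    have hfst : Tendsto (fun y : (Fin k → ℂ) × (Fin k → ℂ) => y.1) (𝓝 (p, w)) (𝓝 p) := continuousAt_fst.tendsto
    have e3 : ∀ᶠ y : (Fin k → ℂ) × (Fin k → ℂ) in 𝓝 (p, w), AnalyticAt ℂ φ y.1 := hfst.eventually hφ.eventually_analyticAt
    have e4 : ∀ᶠ y : (Fin k → ℂ) × (Fin k → ℂ) in 𝓝 (p, w), ∀ᶠ x in 𝓝 y.1, φ x ∈ X := hfst.eventually hφX.eventually_nhds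
    filter_upwards [e1, e2, e3, e4] with y h4 h5 h6 h7
    rw [hu.du_eq hΛ (tan_fderiv h6 h7 y.2) h4 h5]
    have h8 : HasFDerivAt (fun x => hu.lift (φ p) (φ x)) ((fderiv ℂ (hu.lift (φ p)) (φ y.1)).comp (fderiv ℂ φ y.1)) y.1 :=
      HasFDerivAt.comp (g := hu.lift (φ p)) (f := φ) y.1 h4.differentiableAt.hasFDerivAt h6.differentiableAt.hasFDerivAt
    rw [h8.fderiv]
    rfl

/-- **An entire curve with `du (F') = 0` lies in a fibre of `u`.** -/
theorem TorusMapV.fibre_of_du (hu : TorusMapV X Λ u) (hΛ : DiscreteSub Λ) {F : ℂ → EN N} (hF : Differentiable ℂ F) (hFX : ∀ z, F z ∈ X)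
    (h0 : ∀ z, hu.du (F z) (deriv F z) = 0) (z w : ℂ) : u (F z) - u (F w) ∈ Λ := by
  have hlc : IsLocallyConstant fun z => (QuotientAddGroup.mk (u (F z)) : (Fin g → ℂ) ⧸ Λ) := by
    rw [IsLocallyConstant.iff_eventually_eq]
    intro z₀
    have hx := hFX z₀
    have hl := hu.lift_an hx
    have hc : Tendsto F (𝓝 z₀) (𝓝 (F z₀)) := hF.continuous.tendsto z₀
    obtain ⟨h, hh⟩ : ∃ h : ℂ → (Fin g → ℂ), h = fun z => hu.lift (F z₀) (F z) := ⟨_, rfl⟩
    have hder : ∀ᶠ z in 𝓝 z₀, deriv h z = 0 ∧ DifferentiableAt ℂ h z := by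
      filter_upwards [hc.eventually hl.eventually_analyticAt, hc.eventually (hu.lift_mem hx).eventually_nhds] with z h1 h2
      have h3 : AnalyticAt ℂ h z := by
        rw [hh]
        exact AnalyticAt.comp (g := hu.lift (F z₀)) (f := F) h1 (hF.analyticAt z)
      refine ⟨?_, h3.differentiableAt⟩
      rw [hh, deriv_comp_lift (hF.analyticAt z) h1, ← hu.du_eq hΛ (tan_entire hF hFX z) h1 h2]
      exact h0 z
    obtain ⟨r, hr, hball⟩ := Metric.eventually_nhds_iff_ball.1 hder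
    have hconst : ∀ z ∈ ball z₀ r, h z = h z₀ := by
      intro z hz
      exact (convex_ball z₀ r).is_const_of_fderivWithin_eq_zero (𝕜 := ℂ) (fun y hy => (hball y hy).2.differentiableWithinAt)
        (fun y hy => by
          rw [fderivWithin_of_isOpen isOpen_ball hy]
          ext1
          exact (hball y hy).1) hz (mem_ball_self hr)
    filter_upwards [hc.eventually (hu.lift_mem hx), isOpen_ball.mem_nhds (mem_ball_self hr)] with z h1 h2
    have h3 := h1 (hFX z)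
    have h4 := (hu.lift_mem hx).self_of_nhds hx
    have h5 : hu.lift (F z₀) (F z) = hu.lift (F z₀) (F z₀) := by
      have := hconst z h2
      rwa [hh] at this
    rw [h5] at h3
    rw [QuotientAddGroup.eq]
    have h6 := Λ.sub_mem h4 h3
    have h7 : -u (F z) + u (F z₀) = (u (F z₀) - hu.lift (F z₀) (F z₀)) - (u (F z) - hu.lift (F z₀) (F z₀)) := by abel
    rw [h7]
    exact h6
  have h1 := hlc.apply_eq_of_preconnectedSpace w z
  rw [QuotientAddGroup.eq] at h1
  rwa [neg_add_eq_sub] at h1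

end Pool.Agent.AD
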